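import Pool.Agent.Lib.MP_0e31aa_co.H.FC

/-!
Module AddEdge (45 min): a cycle of `G + uv` either avoids `uv` or gives a `u`-`v` path of `G`
through the same number of vertices.

Proof. Take `f` with `FCyc (G ⊔ edge u v) c f` (`fcyc_of_hasCyc`). If all consecutive pairs and the
closing pair are `G`-adjacent, `FCyc G c f`. Otherwise some pair `f k, f (k+1 mod c)` is not
`G`-adjacent, so it is `{u, v}` (`SimpleGraph.sup_adj`, `SimpleGraph.edge_adj`); by `FCyc.move` we
may assume that it is the pair `f (c-1), f 0`. No other consecutive pair `f i, f (i+1)`,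
`i + 1 < c`, is `{u, v}`: by injectivity `{i, i+1} = {c-1, 0}` would force `c = 2`. So
`FPath G c f` with ends `{u, v}`; reverse (`fun i => f (c-1-i)`) if `f 0 = v`.
-/

set_option autoImplicit false

namespace Pool.Agent.Lib.MP_0e31aa_co.H

open Finset
open Pool.Agent.Lib.MP_0e31aa_co.TC (nb mem_nb Emb HasCyc Bip)

variable {V : Type}

theorem add_edge (G : SimpleGraph V) (u v : V) (c : ℕ) (hc : 3 ≤ c)
    (h : HasCyc (G ⊔ SimpleGraph.edge u v) c) :
    HasCyc G c ∨ ∃ f : ℕ → V, FPath G c f ∧ f 0 = u ∧ f (c - 1) = v := by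
  obtain ⟨f, hf⟩ := fcyc_of_hasCyc (by omega) h
  by_cases hall : (∀ i, i + 1 < c → G.Adj (f i) (f (i + 1))) ∧ G.Adj (f (c - 1)) (f 0)
  · exact Or.inl (hasCyc_of_fcyc (by omega) ⟨⟨hf.inj, hall.1⟩, hall.2⟩)
  right
  obtain ⟨g, hg, hg0⟩ : ∃ g : ℕ → V, FCyc (G ⊔ SimpleGraph.edge u v) c g ∧
      ¬ G.Adj (g (c - 1)) (g 0) := by
    by_cases h1 : G.Adj (f (c - 1)) (f 0)
    · have h2 : ∃ i, i + 1 < c ∧ ¬ G.Adj (f i) (f (i + 1)) := by
        by_contra hc'
        push Not at hc'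
        exact hall ⟨hc', h1⟩
      obtain ⟨i, hi, hi'⟩ := h2
      obtain ⟨g, hg, hg1, hg2, -⟩ := hf.move (by omega) i (by omega)
      refine ⟨g, hg, ?_⟩
      rw [hg1, hg2, Nat.mod_eq_of_lt hi]
      exact hi'
    · exact ⟨f, hf, h1⟩
  have hend : (g (c - 1) = u ∧ g 0 = v) ∨ (g (c - 1) = v ∧ g 0 = u) := by
    have h1 := hg.close
    rw [SimpleGraph.sup_adj, SimpleGraph.edge_adj] at h1
    rcases h1 with h1 | h1
    · exact absurd h1 hg0
    · exact h1.1
  have hpath : FPath G c g := by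
    refine ⟨hg.inj, fun i hi => ?_⟩
    have h1 := hg.adj i hi
    rw [SimpleGraph.sup_adj, SimpleGraph.edge_adj] at h1
    rcases h1 with h1 | h1
    · exact h1
    · exfalso
      have h2 : (g i = g (c - 1) ∨ (g i = g 0 ∧ g (i + 1) = g (c - 1))) := by
        rcases hend with ⟨e1, e2⟩ | ⟨e1, e2⟩ <;> rcases h1.1 with ⟨e3, e4⟩ | ⟨e3, e4⟩
        · left; rw [e3, e1]
        · right; exact ⟨by rw [e3, e2], by rw [e4, e1]⟩
        · right; exact ⟨by rw [e3, e2], by rw [e4, e1]⟩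
        · left; rw [e3, e1]
      rcases h2 with h2 | ⟨h2, h3⟩
      · have := hg.inj i (by omega) (c - 1) (by omega) h2
        omega
      · have e1 := hg.inj i (by omega) 0 (by omega) h2
        have e2 := hg.inj (i + 1) hi (c - 1) (by omega) h3
        omega
  rcases hend with ⟨e1, e2⟩ | ⟨e1, e2⟩
  · refine ⟨fun i => g (c - 1 - i), ⟨fun i hi j hj hij => ?_, fun i hi => ?_⟩, ?_, ?_⟩
    · have := hg.inj (c - 1 - i) (by omega) (c - 1 - j) (by omega) hij
      omega
    · have h1 := hpath.adj (c - 1 - (i + 1)) (by omega)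
      have h2 : c - 1 - (i + 1) + 1 = c - 1 - i := by omega
      rw [h2] at h1
      exact h1.symm
    · exact e1
    · show g (c - 1 - (c - 1)) = v
      rw [Nat.sub_self]
      exact e2
  · exact ⟨g, hpath, e2, e1⟩

end Pool.Agent.Lib.MP_0e31aa_co.H
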