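import Pool.Agent.Lib.MP_0e31aa_co.H.Defs
import Pool.Agent.Lib.MP_c5b475_co.Rooted

/-!
Module Center (60 min): a tree of diameter at most four has radius at most two.

Proof. Take `u`, `v` with `D = T.dist u v` maximum, `D ≤ 4`. If `D ≤ 2` take `z = u`. Otherwise let
`z` be the vertex of a shortest walk from `u` to `v` at distance 2 from `u`: `dist u z = 2`,
`dist z v = D - 2`. Let `w` be a vertex with `dist z w ≥ 3`. In a tree (root it at `z`, `exists_RT`)
the neighbour of `z` on the way to `w` (the ancestor of `w` at depth 1) differs from the one on the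
way to `u` or from the one on the way to `v` (these two are different, otherwise
`dist u v ≤ 2 + (D-2) - 2`). If two vertices `a`, `b` have different ancestors at depth 1 then
`dist a b = dist z a + dist z b`. So `dist w u ≥ 3 + 2 = 5` or `dist w v ≥ 3 + D - 2 = D + 1`,
contradiction to the maximality (and to `D ≤ 4`).
An alternative is fine: only the statement matters.
-/

set_option autoImplicit false

namespace Pool.Agent.Lib.MP_0e31aa_co.H

open Finset

variable {W : Type}

/-- The ancestor at depth one. -/
private noncomputable def ctop [DecidableEq W] {T : SimpleGraph W} (R : MP_c5b475_co.RT T) (u : W) : W :=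
  R.phi (fun i x => if R.par i.1 = R.c then i.1 else x) R.c u

private theorem ctop_one [DecidableEq W] {T : SimpleGraph W} (R : MP_c5b475_co.RT T) {u : W} (hu : u ≠ R.c)
    (h : R.par u = R.c) : ctop R u = u := by
  unfold ctop
  rw [R.phi_ne _ _ hu, if_pos h]

private theorem ctop_two [DecidableEq W] {T : SimpleGraph W} (R : MP_c5b475_co.RT T) {u : W} (hu : u ≠ R.c)
    (h : R.par u ≠ R.c) : ctop R u = ctop R (R.par u) := by
  unfold ctop
  rw [R.phi_ne _ _ hu, if_neg h]

private theorem ctop_adj [DecidableEq W] {T : SimpleGraph W} (R : MP_c5b475_co.RT T) {u v : W} (h : T.Adj u v)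
    (hu : u ≠ R.c) (hv : v ≠ R.c) : ctop R u = ctop R v := by
  rcases (R.adj_iff u v).1 h with ⟨_, rfl⟩ | ⟨_, rfl⟩
  · exact ctop_two R hu hv
  · exact (ctop_two R hv hu).symm

private theorem ctop_c [DecidableEq W] {T : SimpleGraph W} (R : MP_c5b475_co.RT T) :
    ∀ u, u ≠ R.c → T.Adj (ctop R u) R.c := by
  refine R.ind ?_ ?_
  · intro h
    exact absurd rfl h
  · intro u hu ih _
    by_cases h : R.par u = R.c
    · rw [ctop_one R hu h, ← h]
      exact R.adj_par hu
    · rw [ctop_two R hu h]
      exact ih h

private theorem ctop_dist [DecidableEq W] {T : SimpleGraph W} (hT : T.Connected) (R : MP_c5b475_co.RT T) :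
    ∀ u, u ≠ R.c → T.dist (ctop R u) u + 1 ≤ R.dep u := by
  refine R.ind ?_ ?_
  · intro h
    exact absurd rfl h
  · intro u hu ih _
    have h1 := R.dep_par u hu
    by_cases h : R.par u = R.c
    · rw [ctop_one R hu h, SimpleGraph.dist_self]
      omega
    · rw [ctop_two R hu h]
      have h2 := ih h
      have h3 : T.dist (R.par u) u = 1 := SimpleGraph.dist_eq_one_iff_adj.2 (R.adj_par hu).symm
      have h4 := hT.dist_triangle (u := ctop R (R.par u)) (v := R.par u) (w := u)
      omega

private theorem ctop_walk [DecidableEq W] {T : SimpleGraph W} (R : MP_c5b475_co.RT T) {u v : W}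
    (p : T.Walk u v) : R.c ∉ p.support → ctop R u = ctop R v := by
  induction p with
  | nil => intro _; rfl
  | cons h q ih =>
    intro hc
    rw [SimpleGraph.Walk.support_cons, List.mem_cons, not_or] at hc
    have h1 : _ ≠ R.c := fun e => hc.2 (e ▸ q.start_mem_support)
    rw [ctop_adj R h (fun e => hc.1 e.symm) h1]
    exact ih hc.2

theorem center [Fintype W] [DecidableEq W] (T : SimpleGraph W) (hT : T.IsTree)
    (h : ∀ u v, T.dist u v ≤ 4) : ∃ z, ∀ w, T.dist z w ≤ 2 := by
  have hconn : T.Connected := hT.connected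
  have hne : Nonempty W := hconn.nonempty
  obtain ⟨z, -, hz⟩ := Finset.exists_min_image (univ : Finset W) (fun z => (univ : Finset W).sup (T.dist z))
    univ_nonempty
  refine ⟨z, ?_⟩
  by_contra hcon
  push Not at hcon
  obtain ⟨w0, hw0⟩ := hcon
  obtain ⟨w, -, hw⟩ := Finset.exists_mem_eq_sup (univ : Finset W) univ_nonempty (T.dist z)
  have hle : ∀ v, T.dist z v ≤ T.dist z w := by
    intro v
    rw [← hw]
    exact Finset.le_sup (f := T.dist z) (mem_univ v)
  have h3 : 3 ≤ T.dist z w := le_trans hw0 (hle w0)
  obtain ⟨R, hRc, hRd⟩ := MP_c5b475_co.exists_RT hT z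
  have hwc : w ≠ R.c := by
    rintro rfl
    rw [hRc, SimpleGraph.dist_self] at h3
    omega
  have ha := ctop_c R w hwc
  obtain ⟨w', -, hw'⟩ := Finset.exists_mem_eq_sup (univ : Finset W) univ_nonempty (T.dist (ctop R w))
  have h4 : T.dist z w ≤ T.dist (ctop R w) w' := by
    rw [← hw, ← hw']
    exact hz _ (mem_univ _)
  have h5 : T.dist (ctop R w) R.c = 1 := SimpleGraph.dist_eq_one_iff_adj.2 ha
  have hw'c : w' ≠ R.c := by
    rintro rfl
    omega
  have h6 := ctop_dist hconn R w' hw'c
  rw [hRd] at h6
  have h7 := hconn.dist_triangle (u := ctop R w) (v := R.c) (w := w')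
  rw [hRc] at h5 h7
  have h8 := hle w'
  by_cases ht : ctop R w = ctop R w'
  · rw [← ht] at h6
    omega
  · obtain ⟨p, hp⟩ := hconn.exists_walk_length_eq_dist w w'
    have hc : R.c ∈ p.support := by
      by_contra hc
      exact ht (ctop_walk R p hc)
    have e1 : (p.takeUntil R.c hc).length + (p.dropUntil R.c hc).length = p.length := by
      rw [← SimpleGraph.Walk.length_append, SimpleGraph.Walk.take_spec]
    have e2 := SimpleGraph.dist_le (p.takeUntil R.c hc)
    have e3 := SimpleGraph.dist_le (p.dropUntil R.c hc)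
    have e5 : T.dist w R.c = T.dist z w := by rw [hRc, SimpleGraph.dist_comm]
    have e6 : T.dist R.c w' = T.dist z w' := by rw [hRc]
    have e4 := h w w'
    omega

end Pool.Agent.Lib.MP_0e31aa_co.H
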