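import Pool.Agent.Lib.MP_0e31aa_co.H.Defs
import Pool.Agent.Lib.MP_0e31aa_co.TC.Classes
import Pool.Agent.Lib.MP_c5b475_co.Rooted

/-!
Module EmbStep (90 min, the heart): embedding `P ∪ inner T` with `P` into `F` and the rest `Q1` into
`U`, all at once for each vertex of `Q1` together with its children.

Setting: `D : RT T` rooted at a vertex of `P` (`P` is non-empty: `bip_nonempty`), `Q1` = inner
vertices outside `P`; `q1 = |Q1|`, `p = |P|`. Every vertex of `P` other than the root has its parent
in `Q1` (the parent of `v ∈ P` is outside `P` and has degree `≥ 2`: it is not the root, so it has a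
parent and the child `v`). For `y ∈ Q1` let `ch y` be its children (all in `P`), `r_y = |ch y| ≥ 1`
(degree `≥ 2`, one neighbour is the parent). So `∑_{y ∈ Q1} r_y = p - 1`.

Induction over `k = 0..q1`: there are `Y ⊆ Q1` with `|Y| = k` and `D.par (D.par y) ∈ Y` for every
`y ∈ Y` unless `D.par y` is the root (that is: the parent of every `y ∈ Y` is placed), and `g` such
that, with `P_Y = {root} ∪ ⋃_{y ∈ Y} ch y`, `g` is injective on `Y ∪ P_Y`, `g y ∈ U` for `y ∈ Y`,
`g v ∈ F` for `v ∈ P_Y`, `g y ~ g (D.par y)` and `g y ~ g v` for `y ∈ Y`, `v ∈ ch y`.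
Step: take `y ∈ Q1 \ Y` of minimal depth; then its parent is in `P_Y`, placed at `f ∈ F`. Put
`r = r_y`, `q' = q1 - k`, `F' = F \ g(P_Y)`: `|F'| ≥ p - |P_Y| = ∑_{y' ∈ Q1 \ Y} r_{y'} ≥ r + q' - 1`.
Candidates `C` = unused vertices `u` of `U` with `R.Adj f u`: at least `(p + 1) - k - 1 = p - k`
(`f` is non-adjacent to at most one vertex of `U`). The sets `Z u = {f' ∈ F' | ¬ R.Adj f' u}`,
`u ∈ C`, are pairwise disjoint (`hmiss`), so `∑_{u ∈ C} |Z u| ≤ |F'|`. If `|Z u| ≥ |F'| - r + 1` for
all `u ∈ C`: with `v = |F'| - r + 1 ≥ q' ≥ 1`: `(p - k) v ≤ |F'| = v + r - 1`; but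
`p - 1 ≥ r + (q1 - 1)`, so `p - k - 1 ≥ r + q' - 1 ≥ r` and `(p - k - 1) v ≥ r > r - 1`.
Contradiction. So some `u ∈ C` has at least `r` neighbours in `F'`: place `y` at `u` and the
children of `y` at `r` of these neighbours.
At the end `Y = Q1`, `P_Y = P`, and all edges inside `P ∪ inner T` are of the form
`y - par y` or `y - child` (`D.adj_iff`).
-/

set_option autoImplicit false

namespace Pool.Agent.Lib.MP_0e31aa_co.H

open Finset
open Pool.Agent.Lib.MP_0e31aa_co.TC (nb mem_nb Emb HasCyc Bip)
open Pool.Agent.Lib.MP_c5b475_co (RT exists_RT)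

variable {V W : Type}

open Pool.Agent.Lib.MP_0e31aa_co.TC (card_nb_compl card_nb_mono card_nb_le bip_nonempty)

private theorem EmbStep_dc (R : SimpleGraph V) (A C : Finset V) :
    ∑ u ∈ C, (nb R u A).card = ∑ f ∈ A, (nb R f C).card := by
  classical
  have h : ∀ u (S : Finset V), (nb R u S).card = ∑ f ∈ S, if R.Adj u f then 1 else 0 := by
    intro u S
    rw [← card_filter]
    congr 1
  simp only [h]
  rw [sum_comm]
  refine sum_congr rfl fun f _ => sum_congr rfl fun u _ => ?_
  rw [R.adj_comm]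

/-- The choice of `u`. -/
theorem choose_u [DecidableEq V] (R : SimpleGraph V) (F' C : Finset V) (r q : ℕ) (hq : 1 ≤ q)
    (hr : 1 ≤ r) (hF : r + q ≤ F'.card + 1) (hC : r + q ≤ C.card)
    (hmiss : ∀ f ∈ F', (nb Rᶜ f C).card ≤ 1) (hFC : Disjoint F' C) :
    ∃ u ∈ C, r ≤ (nb R u F').card := by
  by_contra hcon
  push Not at hcon
  have h1 : ∀ u ∈ C, F'.card + 1 - r ≤ (nb Rᶜ u F').card := by
    intro u hu
    have h2 := card_nb_compl R u F' (fun h => (Finset.disjoint_left.1 hFC h) hu)
    have h3 := hcon u hu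
    omega
  have h4 : C.card * (F'.card + 1 - r) ≤ F'.card := by
    calc C.card * (F'.card + 1 - r) = ∑ _u ∈ C, (F'.card + 1 - r) := by
          rw [sum_const, smul_eq_mul]
      _ ≤ ∑ u ∈ C, (nb Rᶜ u F').card := sum_le_sum h1
      _ = ∑ f ∈ F', (nb Rᶜ f C).card := EmbStep_dc Rᶜ F' C
      _ ≤ ∑ _f ∈ F', 1 := sum_le_sum hmiss
      _ = F'.card := by simp
  obtain ⟨v, hv⟩ : ∃ v, F'.card + 1 - r = v := ⟨_, rfl⟩
  rw [hv] at h4
  have hv1 : 1 ≤ v := by omega
  have h5 : (r + 1) * v ≤ C.card * v := Nat.mul_le_mul_right _ (by omega)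
  have h6 : r * 1 ≤ r * v := Nat.mul_le_mul_left _ hv1
  have h7 : (r + 1) * v = r * v + v := by ring
  omega

/-- The children of `y`. -/
private noncomputable def chld [Fintype W] [DecidableEq W] {T : SimpleGraph W} (D : RT T) (y : W) :
    Finset W :=
  univ.filter fun v => v ≠ D.c ∧ D.par v = y

private theorem mem_chld [Fintype W] [DecidableEq W] {T : SimpleGraph W} (D : RT T) (y v : W) :
    v ∈ chld D y ↔ v ≠ D.c ∧ D.par v = y := by
  simp [chld]

/-- The non-leaves outside `P`. -/
private noncomputable def Qone [Fintype W] [DecidableEq W] (T : SimpleGraph W) (P : Finset W) :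
    Finset W :=
  (inner T).filter fun w => w ∉ P

private theorem mem_Qone [Fintype W] [DecidableEq W] (T : SimpleGraph W) (P : Finset W) (w : W) :
    w ∈ Qone T P ↔ w ∈ inner T ∧ w ∉ P := by
  simp [Qone]

/-- The placed part of `P`. -/
private noncomputable def PY [Fintype W] [DecidableEq W] {T : SimpleGraph W} (D : RT T)
    (Y : Finset W) : Finset W :=
  insert D.c (Y.biUnion (chld D))

private theorem mem_PY [Fintype W] [DecidableEq W] {T : SimpleGraph W} (D : RT T)
    (Y : Finset W) (v : W) : v ∈ PY D Y ↔ v = D.c ∨ (v ≠ D.c ∧ D.par v ∈ Y) := by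
  unfold PY
  rw [mem_insert, mem_biUnion]
  constructor
  · rintro (h | ⟨y, hy, hv⟩)
    · exact Or.inl h
    · rw [mem_chld] at hv
      exact Or.inr ⟨hv.1, hv.2 ▸ hy⟩
  · rintro (h | ⟨h1, h2⟩)
    · exact Or.inl h
    · exact Or.inr ⟨_, h2, (mem_chld D _ _).2 ⟨h1, rfl⟩⟩

private theorem card_PY [Fintype W] [DecidableEq W] {T : SimpleGraph W} (D : RT T)
    (Y : Finset W) : (PY D Y).card = ∑ y ∈ Y, (chld D y).card + 1 := by
  unfold PY
  rw [card_insert_of_notMem, card_biUnion]
  · intro a _ b _ hab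
    rw [Function.onFun, Finset.disjoint_left]
    intro x hx hx'
    rw [mem_chld] at hx hx'
    exact hab (hx.2.symm.trans hx'.2)
  · rw [mem_biUnion]
    rintro ⟨y, -, hy⟩
    rw [mem_chld] at hy
    exact hy.1 rfl

private theorem PY_sub [Fintype W] [DecidableEq W] {T : SimpleGraph W} (D : RT T)
    (P : Finset W) (hP : Bip T P) (hc : D.c ∈ P) (Y : Finset W) (hY : ∀ y ∈ Y, y ∉ P) :
    PY D Y ⊆ P := by
  intro v hv
  rw [mem_PY] at hv
  rcases hv with rfl | ⟨h1, h2⟩
  · exact hc
  · exact (hP _ _ (D.adj_par h1)).2 (hY _ h2)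

private theorem par_Qone [Fintype W] [DecidableEq W] {T : SimpleGraph W} (D : RT T)
    (P : Finset W) (hP : Bip T P) (hc : D.c ∈ P) (v : W) (hv : v ∈ P) (hvc : v ≠ D.c) :
    D.par v ∈ Qone T P := by
  have h1 := D.adj_par hvc
  have h2 : D.par v ∉ P := (hP _ _ h1).1 hv
  rw [mem_Qone, mem_inner]
  refine ⟨?_, h2⟩
  have h3 : D.par v ≠ D.c := fun h => h2 (h ▸ hc)
  have h4 := D.adj_par h3
  have h5 : v ≠ D.par (D.par v) := by
    intro h
    have e1 := D.dep_par v hvc
    have e2 := D.dep_par _ h3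
    rw [← h] at e2
    omega
  have h6 : ({v, D.par (D.par v)} : Finset W) ⊆ nb T (D.par v) univ := by
    intro x hx
    rw [mem_insert, mem_singleton] at hx
    rw [mem_nb]
    refine ⟨mem_univ _, ?_⟩
    rcases hx with rfl | rfl
    · exact h1.symm
    · exact h4
  have h7 := card_le_card h6
  rw [card_pair h5] at h7
  exact h7

private theorem chld_pos [Fintype W] [DecidableEq W] {T : SimpleGraph W} (D : RT T)
    (P : Finset W) (hc : D.c ∈ P) (y : W) (hy : y ∈ Qone T P) :
    1 ≤ (chld D y).card := by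
  rw [mem_Qone, mem_inner] at hy
  have h1 : nb T y univ ⊆ insert (D.par y) (chld D y) := by
    intro w hw
    rw [mem_nb, D.adj_iff] at hw
    rw [mem_insert, mem_chld]
    rcases hw.2 with h | h
    · exact Or.inl h.2
    · exact Or.inr ⟨h.1, h.2.symm⟩
  have h2 := card_le_card h1
  have h3 := card_insert_le (D.par y) (chld D y)
  have h4 := hy.1
  unfold dg at h4
  omega

private theorem emb_step [Fintype V] [DecidableEq V] [Fintype W] [DecidableEq W]
    {T : SimpleGraph W} (D : RT T) (P : Finset W) (hP : Bip T P) (hc : D.c ∈ P)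
    (R : SimpleGraph V) (F U : Finset V) (hFU : Disjoint F U) (hF : P.card ≤ F.card)
    (hU : P.card + 1 ≤ U.card) (hmiss : ∀ f ∈ F, (nb Rᶜ f U).card ≤ 1) (k : ℕ)
    (hk : k ≤ (Qone T P).card) :
    ∃ Y ⊆ Qone T P, Y.card = k ∧ ∃ g : W → V,
      Set.InjOn g ((Y ∪ PY D Y : Finset W) : Set W) ∧ (∀ y ∈ Y, g y ∈ U) ∧
      (∀ v ∈ PY D Y, g v ∈ F) ∧ (∀ y ∈ Y, D.par y ∈ PY D Y) ∧
      (∀ y ∈ Y, R.Adj (g y) (g (D.par y))) ∧ (∀ y ∈ Y, ∀ v ∈ chld D y, R.Adj (g y) (g v)) := by
  induction k with
  | zero =>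
    have hPpos : 1 ≤ P.card := card_pos.2 ⟨_, hc⟩
    obtain ⟨f0, hf0⟩ := card_pos.1 (lt_of_lt_of_le hPpos hF)
    refine ⟨∅, empty_subset _, rfl, fun _ => f0, ?_, by simp, fun _ _ => hf0, by simp, by simp,
      by simp⟩
    intro a ha b hb _
    simp only [PY, biUnion_empty, empty_union, coe_insert, coe_empty,
      insert_empty_eq, Set.mem_singleton_iff, coe_singleton] at ha hb
    rw [ha, hb]
  | succ k ih =>
    obtain ⟨Y, hYQ, hYk, g, hinj, hgU, hgF, hpar, hadj1, hadj2⟩ := ih (by omega)
    have hYP : ∀ y ∈ Y, y ∉ P := fun y hy => ((mem_Qone T P y).1 (hYQ hy)).2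
    have hPYP : PY D Y ⊆ P := PY_sub D P hP hc Y hYP
    -- the new vertex
    have hne : (Qone T P \ Y).Nonempty := by
      rw [← card_pos, card_sdiff_of_subset hYQ]
      omega
    obtain ⟨y, hy, hymin⟩ := exists_min_image _ D.dep hne
    rw [mem_sdiff] at hy
    obtain ⟨hyQ, hyY⟩ := hy
    have hyP : y ∉ P := ((mem_Qone T P y).1 hyQ).2
    have hyc : y ≠ D.c := fun h => hyP (h ▸ hc)
    have hxP : D.par y ∈ P := by
      by_contra h
      exact hyP ((hP _ _ (D.adj_par hyc)).2 h)
    have hxPY : D.par y ∈ PY D Y := by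
      rw [mem_PY]
      by_cases hxc : D.par y = D.c
      · exact Or.inl hxc
      · refine Or.inr ⟨hxc, ?_⟩
        by_contra hcon
        have h1 := par_Qone D P hP hc _ hxP hxc
        have h2 := hymin _ (mem_sdiff.2 ⟨h1, hcon⟩)
        have h3 := D.dep_par y hyc
        have h4 := D.dep_par _ hxc
        omega
    set f := g (D.par y) with hf
    have hfF : f ∈ F := hgF _ hxPY
    set F' : Finset V := F \ (PY D Y).image g with hF'
    set C : Finset V := nb R f (U \ Y.image g) with hC
    -- cardinalities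
    have hsum : ∑ z ∈ Y, (chld D z).card + (chld D y).card + ((Qone T P).card - (k + 1)) + 1 ≤
        P.card := by
      have h1 : PY D (Qone T P) ⊆ P :=
        PY_sub D P hP hc _ (fun z hz => ((mem_Qone T P z).1 hz).2)
      have h2 := card_le_card h1
      rw [card_PY] at h2
      have h3 : insert y Y ⊆ Qone T P := insert_subset hyQ hYQ
      have h4 := sum_sdiff (f := fun z => (chld D z).card) h3
      rw [sum_insert hyY] at h4
      have h5 : ((Qone T P) \ insert y Y).card ≤ ∑ z ∈ (Qone T P) \ insert y Y, (chld D z).card := by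
        rw [card_eq_sum_ones]
        refine sum_le_sum fun z hz => ?_
        exact chld_pos D P hc z (mem_sdiff.1 hz).1
      rw [card_sdiff_of_subset h3, card_insert_of_notMem hyY, hYk] at h5
      omega
    have hr1 : 1 ≤ (chld D y).card := chld_pos D P hc y hyQ
    have hF'c : F.card ≤ F'.card + (PY D Y).card := by
      have h1 := le_card_sdiff ((PY D Y).image g) F
      rw [← hF'] at h1
      have h2 : ((PY D Y).image g).card ≤ (PY D Y).card := card_image_le
      omega
    rw [card_PY] at hF'c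
    have hYr : Y.card ≤ ∑ z ∈ Y, (chld D z).card := by
      rw [card_eq_sum_ones]
      exact sum_le_sum fun z hz => chld_pos D P hc z (hYQ hz)
    have hCc : (U \ Y.image g).card ≤ C.card + 1 := by
      have h1 := card_nb_compl R f (U \ Y.image g)
        (fun h => Finset.disjoint_left.1 hFU hfF (mem_sdiff.1 h).1)
      rw [← hC] at h1
      have h2 := card_nb_mono Rᶜ f (sdiff_subset (s := U) (t := Y.image g))
      have h3 := hmiss f hfF
      omega
    have hUc : U.card ≤ (U \ Y.image g).card + Y.card := by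
      have h1 := le_card_sdiff (Y.image g) U
      have h2 : (Y.image g).card ≤ Y.card := card_image_le
      omega
    have hCU : C ⊆ U := fun x hx => (mem_sdiff.1 (mem_nb.1 hx).1).1
    obtain ⟨u, huC, hu⟩ := choose_u R F' C (chld D y).card ((Qone T P).card - k) (by omega) hr1
      (by omega) (by omega)
      (fun f' hf' => (card_nb_mono Rᶜ f' hCU).trans (hmiss f' (mem_sdiff.1 hf').1))
      (hFU.mono sdiff_subset hCU)
    have huU : u ∈ U := hCU huC
    have huF : u ∉ F := fun h => Finset.disjoint_left.1 hFU h huU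
    have hfu : R.Adj f u := (mem_nb.1 huC).2
    have hug : ∀ z ∈ Y, g z ≠ u := by
      intro z hz h
      exact (mem_sdiff.1 (mem_nb.1 huC).1).2 (mem_image.2 ⟨z, hz, h⟩)
    -- the children
    have hemb : Fintype.card (chld D y) ≤ (nb R u F').card := by
      rw [Fintype.card_coe]
      exact hu
    obtain ⟨e, he⟩ := Function.Embedding.exists_of_card_le_finset hemb
    have he' : ∀ v : chld D y, e v ∈ F' ∧ R.Adj u (e v) := fun v =>
      mem_nb.1 (by exact_mod_cast he (Set.mem_range_self v))
    classical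
    let g' : W → V := fun w => if w = y then u else if hw : w ∈ chld D y then e ⟨w, hw⟩ else g w
    have hchP : ∀ v ∈ chld D y, v ∈ P := by
      intro v hv
      rw [mem_chld] at hv
      refine (hP _ _ (D.adj_par hv.1)).2 ?_
      rw [hv.2]
      exact hyP
    have hych : y ∉ chld D y := fun h => hyP (hchP y h)
    have hgy : g' y = u := by simp only [g', if_true]
    have hgch : ∀ v (hv : v ∈ chld D y), g' v = e ⟨v, hv⟩ := by
      intro v hv
      have : v ≠ y := fun h => hych (h ▸ hv)
      simp only [g', if_neg this, dif_pos hv]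
    have hgold : ∀ w ∈ Y ∪ PY D Y, g' w = g w := by
      intro w hw
      have h1 : w ≠ y := by
        rintro rfl
        rcases mem_union.1 hw with h | h
        · exact hyY h
        · exact hyP (hPYP h)
      have h2 : w ∉ chld D y := by
        intro h
        rcases mem_union.1 hw with h3 | h3
        · exact hYP w h3 (hchP w h)
        · rw [mem_PY] at h3
          rw [mem_chld] at h
          rcases h3 with h3 | h3
          · exact h.1 h3
          · exact hyY (h.2 ▸ h3.2)
      simp only [g', if_neg h1, dif_neg h2]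
    have hgF' : ∀ v ∈ chld D y, g' v ∈ F ∧ (∀ w ∈ PY D Y, g w ≠ g' v) ∧ R.Adj u (g' v) := by
      intro v hv
      rw [hgch v hv]
      obtain ⟨h1, h2⟩ := he' ⟨v, hv⟩
      rw [hF', mem_sdiff] at h1
      refine ⟨h1.1, ?_, h2⟩
      intro w hw h
      exact h1.2 (mem_image.2 ⟨w, hw, h⟩)
    have hmem : ∀ w, w ∈ insert y Y ∪ PY D (insert y Y) ↔
        w = y ∨ w ∈ chld D y ∨ w ∈ Y ∪ PY D Y := by
      intro w
      simp only [mem_union, mem_insert, mem_PY, mem_chld]
      by_cases hwc : w = D.c
      · simp [hwc]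
      · simp only [hwc, false_or, ne_eq, not_false_eq_true, true_and]
        tauto
    have hPYmem : ∀ w, w ∈ PY D (insert y Y) → w ∈ chld D y ∨ w ∈ PY D Y := by
      intro w hw
      rw [mem_PY, mem_insert] at hw
      rw [mem_chld, mem_PY]
      rcases hw with h | ⟨h1, h2 | h2⟩
      · exact Or.inr (Or.inl h)
      · exact Or.inl ⟨h1, h2⟩
      · exact Or.inr (Or.inr ⟨h1, h2⟩)
    have hPYmono : PY D Y ⊆ PY D (insert y Y) := by
      intro w hw
      rw [mem_PY] at hw ⊢
      rcases hw with h | ⟨h1, h2⟩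
      · exact Or.inl h
      · exact Or.inr ⟨h1, mem_insert_of_mem h2⟩
    -- separation facts
    have s1 : ∀ w ∈ chld D y, g' w ≠ u := fun w hw h => huF (h ▸ (hgF' w hw).1)
    have s2 : ∀ w ∈ Y ∪ PY D Y, g' w ≠ u := by
      intro w hw
      rw [hgold w hw]
      rcases mem_union.1 hw with h | h
      · exact hug w h
      · exact fun h2 => huF (h2 ▸ hgF w h)
    have s3 : ∀ w ∈ Y ∪ PY D Y, ∀ v ∈ chld D y, g' w ≠ g' v := by
      intro w hw v hv
      rw [hgold w hw]
      rcases mem_union.1 hw with h | h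
      · intro h2
        have h3 := hgU w h
        rw [h2] at h3
        exact Finset.disjoint_left.1 hFU (hgF' v hv).1 h3
      · exact (hgF' v hv).2.1 w h
    refine ⟨insert y Y, insert_subset hyQ hYQ, ?_, g', ?_, ?_, ?_, ?_, ?_, ?_⟩
    · rw [card_insert_of_notMem hyY, hYk]
    · intro a ha b hb hab
      rw [mem_coe, hmem] at ha hb
      rcases ha with rfl | ha | ha
      · rcases hb with rfl | hb | hb
        · rfl
        · rw [hgy] at hab
          exact absurd hab.symm (s1 b hb)
        · rw [hgy] at hab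
          exact absurd hab.symm (s2 b hb)
      · rcases hb with rfl | hb | hb
        · rw [hgy] at hab
          exact absurd hab (s1 a ha)
        · rw [hgch a ha, hgch b hb] at hab
          have := e.injective hab
          exact congrArg Subtype.val this
        · exact absurd hab.symm (s3 b hb a ha)
      · rcases hb with rfl | hb | hb
        · rw [hgy] at hab
          exact absurd hab (s2 a ha)
        · exact absurd hab (s3 a ha b hb)
        · rw [hgold a ha, hgold b hb] at hab
          exact hinj (mem_coe.2 ha) (mem_coe.2 hb) hab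
    · intro z hz
      rcases mem_insert.1 hz with rfl | h
      · rw [hgy]
        exact huU
      · rw [hgold z (mem_union_left _ h)]
        exact hgU z h
    · intro v hv
      rcases hPYmem v hv with h | h
      · exact (hgF' v h).1
      · rw [hgold v (mem_union_right _ h)]
        exact hgF v h
    · intro z hz
      rcases mem_insert.1 hz with rfl | h
      · exact hPYmono hxPY
      · exact hPYmono (hpar z h)
    · intro z hz
      rcases mem_insert.1 hz with rfl | h
      · rw [hgy, hgold _ (mem_union_right _ hxPY)]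
        exact hfu.symm
      · rw [hgold z (mem_union_left _ h), hgold _ (mem_union_right _ (hpar z h))]
        exact hadj1 z h
    · intro z hz v hv
      rcases mem_insert.1 hz with rfl | h
      · rw [hgy]
        exact (hgF' v hv).2.2
      · have hvPY : v ∈ PY D Y := by
          rw [mem_PY]
          rw [mem_chld] at hv
          exact Or.inr ⟨hv.1, hv.2 ▸ h⟩
        rw [hgold z (mem_union_left _ h), hgold v (mem_union_right _ hvPY)]
        exact hadj2 z h v hv

theorem emb_inner [Fintype V] [DecidableEq V] [Fintype W] [DecidableEq W] (T : SimpleGraph W)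
    (hT : T.IsTree) (hW : 3 ≤ Fintype.card W) (P : Finset W) (hP : Bip T P) (R : SimpleGraph V)
    (F U : Finset V) (hFU : Disjoint F U) (hF : P.card ≤ F.card) (hU : P.card + 1 ≤ U.card)
    (hmiss : ∀ f ∈ F, (nb Rᶜ f U).card ≤ 1) :
    ∃ g : W → V, Set.InjOn g ((P ∪ inner T : Finset W) : Set W) ∧ (∀ w ∈ P, g w ∈ F) ∧
      ∀ u ∈ P ∪ inner T, ∀ v ∈ P ∪ inner T, T.Adj u v → R.Adj (g u) (g v) := by
  obtain ⟨c, hc⟩ := bip_nonempty T hT P hP (by omega)
  obtain ⟨D, hDc, -⟩ := exists_RT hT c
  have hc' : D.c ∈ P := by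
    rw [hDc]
    exact hc
  obtain ⟨Y, hYQ, hYk, g, hinj, hgU, hgF, hpar, hadj1, hadj2⟩ :=
    emb_step D P hP hc' R F U hFU hF hU hmiss _ le_rfl
  have hYe : Y = Qone T P := eq_of_subset_of_card_le hYQ hYk.ge
  have hPPY : P ⊆ PY D Y := by
    intro v hv
    rw [mem_PY]
    by_cases hvc : v = D.c
    · exact Or.inl hvc
    · refine Or.inr ⟨hvc, ?_⟩
      rw [hYe]
      exact par_Qone D P hP hc' v hv hvc
  have hsub : P ∪ inner T ⊆ Y ∪ PY D Y := by
    intro w hw
    by_cases hwP : w ∈ P
    · exact mem_union_right _ (hPPY hwP)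
    · refine mem_union_left _ ?_
      rw [hYe, mem_Qone]
      rcases mem_union.1 hw with h | h
      · exact absurd h hwP
      · exact ⟨h, hwP⟩
  refine ⟨g, hinj.mono (by exact_mod_cast hsub), fun w hw => hgF w (hPPY hw), ?_⟩
  have key : ∀ a ∈ P ∪ inner T, a ≠ D.c → R.Adj (g a) (g (D.par a)) := by
    intro a ha hac
    by_cases haP : a ∈ P
    · have h1 : D.par a ∈ Y := by
        rw [hYe]
        exact par_Qone D P hP hc' a haP hac
      exact (hadj2 _ h1 a ((mem_chld D _ _).2 ⟨hac, rfl⟩)).symm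
    · refine hadj1 a ?_
      rw [hYe, mem_Qone]
      rcases mem_union.1 ha with h | h
      · exact absurd h haP
      · exact ⟨h, haP⟩
  intro a ha b hb hab
  rw [D.adj_iff] at hab
  rcases hab with ⟨h1, h2⟩ | ⟨h1, h2⟩
  · rw [h2]
    exact key a ha h1
  · rw [h2]
    exact (key b hb h1).symm

end Pool.Agent.Lib.MP_0e31aa_co.H
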