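import Pool.Agent.Lib.MP_0e31aa_co.H.Defs
import Pool.Agent.Lib.MP_c5b475_co.Rooted

/-!
Module GreedyK (45 min): greedy embedding of a subtree into prescribed regions. It is the proof of
`TC.greedy` (TC/Greedy.lean) with `univ` replaced by `K` and with the parent not counted.

`D : RT T` rooted tree (root `D.c`, parents `D.par`, depths `D.dep`), `K` a set of vertices
containing the root and closed under parents (`u ∈ K`, `u ≠ D.c` implies `D.par u ∈ K`). Place the
vertices of `K` in the order of increasing depth. When `v ∈ K` is placed, its parent `u` is placed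
at `x = g u ∈ A u`; `x` has at least `#{w ∈ K, w ≠ u, A w meets A v}` neighbours in `A v`; the
used vertices of `A v` which are neighbours of `x` are images of vertices `w ∈ K` different from
`u` and from `v` with `A w` meeting `A v` : one less. So a free neighbour in `A v` exists.
-/

set_option autoImplicit false

namespace Pool.Agent.Lib.MP_0e31aa_co.H

open Finset
open Pool.Agent.Lib.MP_0e31aa_co.TC (nb mem_nb Emb HasCyc Bip)
open Pool.Agent.Lib.MP_c5b475_co (RT exists_RT)

variable {V W : Type}

theorem greedyK [DecidableEq V] [Fintype W] [DecidableEq W] (T : SimpleGraph W) (D : RT T)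
    (K : Finset W) (hc : D.c ∈ K) (hK : ∀ u ∈ K, u ≠ D.c → D.par u ∈ K)
    (R : SimpleGraph V) (A : W → Finset V) (hr : ∀ w ∈ K, (A w).Nonempty)
    (h : ∀ v ∈ K, v ≠ D.c → ∀ x ∈ A (D.par v),
      (K.filter fun w => w ≠ D.par v ∧ ¬ Disjoint (A w) (A v)).card ≤ (nb R x (A v)).card) :
    ∃ g : W → V, Set.InjOn g (K : Set W) ∧ (∀ w ∈ K, g w ∈ A w) ∧
      ∀ u ∈ K, ∀ v ∈ K, T.Adj u v → R.Adj (g u) (g v) := by
  have key : ∀ k : ℕ, k + 1 ≤ K.card → ∃ F : Finset W, F ⊆ K ∧ F.card = k + 1 ∧ D.c ∈ F ∧
      (∀ u ∈ F, u ≠ D.c → D.par u ∈ F) ∧ ∃ f : W → V, Set.InjOn f (F : Set W) ∧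
      (∀ u ∈ F, f u ∈ A u) ∧ ∀ u ∈ F, u ≠ D.c → R.Adj (f (D.par u)) (f u) := by
    intro k
    induction k with
    | zero =>
      intro _
      obtain ⟨y, hy⟩ := hr D.c hc
      refine ⟨{D.c}, by simpa using hc, by simp, by simp, ?_, fun _ => y, ?_, ?_, ?_⟩
      · intro u hu hne
        exact absurd (mem_singleton.1 hu) hne
      · intro a ha b hb _
        simp only [coe_singleton, Set.mem_singleton_iff] at ha hb
        rw [ha, hb]
      · intro u hu
        rw [mem_singleton.1 hu]
        exact hy
      · intro u hu hne
        exact absurd (mem_singleton.1 hu) hne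
    | succ k ih =>
      intro hk
      obtain ⟨F, hFK, hF, hcF, hpF, f, hinj, hfS, hadj⟩ := ih (by omega)
      have hne : (K \ F : Finset W).Nonempty := by
        rw [← card_pos, card_sdiff_of_subset hFK]
        omega
      obtain ⟨u, hu, humin⟩ := exists_min_image (K \ F) D.dep hne
      have huK : u ∈ K := (mem_sdiff.1 hu).1
      have huF : u ∉ F := (mem_sdiff.1 hu).2
      have hur : u ≠ D.c := fun e => huF (e ▸ hcF)
      have hdp : D.dep (D.par u) + 1 = D.dep u := D.dep_par u hur
      have hpu : D.par u ∈ F := by
        by_contra hcon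
        have := humin (D.par u) (mem_sdiff.2 ⟨hK u huK hur, hcon⟩)
        omega
      have hmain := h u huK hur (f (D.par u)) (hfS _ hpu)
      set x := f (D.par u) with hx
      let used : Finset V :=
        (F.filter (fun w => w ≠ D.par u ∧ ¬ Disjoint (A w) (A u))).image f
      have hused : used.card + 1 ≤
          (K.filter fun w => w ≠ D.par u ∧ ¬ Disjoint (A w) (A u)).card := by
        have h1 : used.card ≤ (F.filter (fun w => w ≠ D.par u ∧ ¬ Disjoint (A w) (A u))).card :=
          card_image_le
        have h2 : (F.filter (fun w => w ≠ D.par u ∧ ¬ Disjoint (A w) (A u))).card <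
            (K.filter fun w => w ≠ D.par u ∧ ¬ Disjoint (A w) (A u)).card := by
          apply card_lt_card
          refine ⟨?_, ?_⟩
          · intro w hw
            rw [mem_filter] at hw ⊢
            exact ⟨hFK hw.1, hw.2⟩
          · intro hsub
            have hself : ¬ Disjoint (A u) (A u) := by
              intro hd
              have := (disjoint_self_iff_empty _).1 hd
              obtain ⟨z, hz⟩ := hr u huK
              rw [this] at hz
              exact absurd hz (notMem_empty z)
            have hpar : u ≠ D.par u := by
              intro e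
              rw [← e] at hdp
              omega
            have := hsub (mem_filter.2 ⟨huK, hpar, hself⟩)
            exact huF (mem_filter.1 this).1
        omega
      have hex : ∃ y ∈ nb R x (A u), y ∉ used := by
        by_contra hcon
        push Not at hcon
        have h1 := card_le_card (show nb R x (A u) ⊆ used from hcon)
        omega
      obtain ⟨y, hyn, hyu⟩ := hex
      rw [mem_nb] at hyn
      obtain ⟨hyS, hRxy⟩ := hyn
      have hclass : ∀ w ∈ F, f w = y → False := by
        intro w hw hfw
        have h1 : f w ∈ A w := hfS w hw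
        rw [hfw] at h1
        have h2 : ¬ Disjoint (A w) (A u) := by
          intro hd
          exact disjoint_left.1 hd h1 hyS
        have h3 : w ≠ D.par u := by
          intro e
          rw [e, ← hx] at hfw
          rw [hfw] at hRxy
          exact R.loopless.irrefl y hRxy
        exact hyu (mem_image.2 ⟨w, mem_filter.2 ⟨hw, h3, h2⟩, hfw⟩)
      refine ⟨insert u F, insert_subset huK hFK, ?_, mem_insert_of_mem hcF, ?_,
        Function.update f u y, ?_, ?_, ?_⟩
      · rw [card_insert_of_notMem huF, hF]
      · intro v hv hvc
        rcases mem_insert.1 hv with e | hvF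
        · rw [e]; exact mem_insert_of_mem hpu
        · exact mem_insert_of_mem (hpF v hvF hvc)
      · intro a ha b hb hab
        rw [mem_coe, mem_insert] at ha hb
        rcases ha with e | haF
        · rcases hb with e' | hbF
          · rw [e, e']
          · exfalso
            have hbu : b ≠ u := fun e2 => huF (e2 ▸ hbF)
            rw [e, Function.update_self, Function.update_of_ne hbu] at hab
            exact hclass b hbF hab.symm
        · have hau : a ≠ u := fun e2 => huF (e2 ▸ haF)
          rcases hb with e' | hbF
          · exfalso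
            rw [e', Function.update_self, Function.update_of_ne hau] at hab
            exact hclass a haF hab
          · have hbu : b ≠ u := fun e2 => huF (e2 ▸ hbF)
            rw [Function.update_of_ne hau, Function.update_of_ne hbu] at hab
            exact hinj haF hbF hab
      · intro v hv
        rcases mem_insert.1 hv with e | hvF
        · rw [e, Function.update_self]; exact hyS
        · have hvu : v ≠ u := fun e2 => huF (e2 ▸ hvF)
          rw [Function.update_of_ne hvu]
          exact hfS v hvF
      · intro v hv hvc
        have hpne : D.par u ≠ u := by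
          intro e2
          apply huF
          rw [← e2]
          exact hpu
        rcases mem_insert.1 hv with e | hvF
        · rw [e, Function.update_self, Function.update_of_ne hpne]
          exact hRxy
        · have hvu : v ≠ u := fun e2 => huF (e2 ▸ hvF)
          have hpv : D.par v ≠ u := fun e2 => huF (e2 ▸ hpF v hvF hvc)
          rw [Function.update_of_ne hvu, Function.update_of_ne hpv]
          exact hadj v hvF hvc
  have hpos : 0 < K.card := card_pos.2 ⟨D.c, hc⟩
  obtain ⟨F, hFK, hF, -, -, f, hinj, hfS, hadj⟩ := key (K.card - 1) (by omega)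
  have hFu : F = K := eq_of_subset_of_card_le hFK (by omega)
  subst hFu
  refine ⟨f, hinj, hfS, ?_⟩
  intro u hu v hv huv
  rcases (D.adj_iff u v).1 huv with ⟨h1, h2⟩ | ⟨h1, h2⟩
  · rw [h2]
    exact (hadj u hu h1).symm
  · rw [h2]
    exact hadj v hv h1

/-- A set of vertices containing all non-leaves and the root is closed under parents. -/
theorem inner_closed [Fintype W] [DecidableEq W] (T : SimpleGraph W) (D : RT T) (K : Finset W)
    (hK : inner T ⊆ K) (hc : D.c ∈ K) : ∀ u, u ≠ D.c → D.par u ∈ K := by
  intro u hu
  by_cases hp : D.par u = D.c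
  · rw [hp]
    exact hc
  · refine hK (mem_inner.2 ?_)
    have h1 := D.adj_par hu
    have h2 := D.adj_par hp
    have h3 := D.dep_par u hu
    have h4 := D.dep_par _ hp
    have hne : u ≠ D.par (D.par u) := by
      intro e
      rw [← e] at h4
      omega
    have hsub : ({u, D.par (D.par u)} : Finset W) ⊆ nb T (D.par u) univ := by
      intro z hz
      rw [mem_insert, mem_singleton] at hz
      rcases hz with rfl | rfl
      · exact mem_nb.2 ⟨mem_univ _, h1.symm⟩
      · exact mem_nb.2 ⟨mem_univ _, h2⟩
    have h5 := card_le_card hsub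
    rw [card_pair hne] at h5
    exact h5

/-- Outside the inner vertices every vertex has exactly one neighbour, and it is inner if
`3 ≤ |W|`. -/
theorem leaf_par [Fintype W] [DecidableEq W] (T : SimpleGraph W) (hT : T.IsTree)
    (hW : 3 ≤ Fintype.card W) (w : W) (hw : w ∉ inner T) :
    ∃ p, p ∈ inner T ∧ T.Adj w p ∧ ∀ v, T.Adj w v → v = p := by
  have hlt : (nb T w univ).card < 2 := by
    rw [mem_inner] at hw
    exact not_le.1 hw
  obtain ⟨D, hc, -⟩ := exists_RT hT w
  have hne : (nb T w univ).Nonempty := by
    by_contra h0
    rw [not_nonempty_iff_eq_empty] at h0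
    have hall : ∀ u, u = w := by
      refine D.ind (P := fun u => u = w) hc ?_
      intro u hu hp
      exfalso
      have h1 := D.adj_par hu
      rw [hp] at h1
      have h2 : u ∈ nb T w univ := mem_nb.2 ⟨mem_univ _, h1.symm⟩
      rw [h0] at h2
      exact notMem_empty _ h2
    have h3 : Fintype.card W ≤ 1 :=
      Fintype.card_le_one_iff.2 fun a b => (hall a).trans (hall b).symm
    omega
  have h1 : (nb T w univ).card = 1 := by
    have := card_pos.2 hne
    omega
  obtain ⟨p, hp⟩ := card_eq_one.1 h1
  have hpm : p ∈ nb T w univ := by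
    rw [hp]
    exact mem_singleton_self p
  have hwp : T.Adj w p := (mem_nb.1 hpm).2
  have huniq : ∀ v, T.Adj w v → v = p := by
    intro v hv
    have h2 : v ∈ nb T w univ := mem_nb.2 ⟨mem_univ _, hv⟩
    rw [hp] at h2
    exact mem_singleton.1 h2
  refine ⟨p, ?_, hwp, huniq⟩
  rw [mem_inner]
  by_contra hlt2
  have h2 : ∀ v, T.Adj p v → v = w := by
    intro v hv
    by_contra hvw
    apply hlt2
    have hsub : ({v, w} : Finset W) ⊆ nb T p univ := by
      intro z hz
      rw [mem_insert, mem_singleton] at hz
      rcases hz with rfl | rfl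
      · exact mem_nb.2 ⟨mem_univ _, hv⟩
      · exact mem_nb.2 ⟨mem_univ _, hwp.symm⟩
    have h5 := card_le_card hsub
    rw [card_pair hvw] at h5
    exact h5
  obtain ⟨D', hc', -⟩ := exists_RT hT p
  have hall : ∀ u, u = p ∨ u = w := by
    refine D'.ind (P := fun u => u = p ∨ u = w) (Or.inl hc') ?_
    intro u hu hpar
    have h3 := D'.adj_par hu
    rcases hpar with e | e
    · rw [e] at h3
      exact Or.inr (h2 u h3.symm)
    · rw [e] at h3
      exact Or.inl (huniq u h3.symm)
  have h6 : (univ : Finset W) ⊆ {p, w} := by
    intro z _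
    rw [mem_insert, mem_singleton]
    exact hall z
  have h7 := (card_le_card h6).trans card_le_two
  rw [card_univ] at h7
  omega

end Pool.Agent.Lib.MP_0e31aa_co.H
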