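import Pool.Agent.Lib.MP_0e31aa_co.H.LeafExt
import Pool.Agent.Lib.MP_0e31aa_co.H.GreedyK
import Pool.Agent.Lib.MP_0e31aa_co.H.EmbStep

/-!
Module EmbF (45 min): the embedding lemma.

`T` tree, `P` one colour class, `F`, `U` disjoint sets of vertices of the host graph `R`, `|F| ≥ |P|`,
`|U| ≥ |P| + 1`, every `f ∈ F` is (in `R`) non-adjacent to at most one `u ∈ U` (written with `Rᶜ`;
`f ∉ U`), every `f ∈ F` has degree at least `|W| - 1`. Then `T` embeds.

Proof. `K = P ∪ inner T`. `emb_inner` (module EmbStep) embeds `T` restricted to `K` with `P → F`.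
Every vertex outside `K` is a leaf in the other class; its neighbour is in `P` (`leaf_par`, `Bip`),
so its image is in `F` and has degree at least `|W| - 1`: `leaf_ext`.
(For `|W| ≤ 2`, not needed: assume `3 ≤ |W|`.)
-/

set_option autoImplicit false

namespace Pool.Agent.Lib.MP_0e31aa_co.H

open Finset
open Pool.Agent.Lib.MP_0e31aa_co.TC (nb mem_nb Emb HasCyc Bip)

variable {V W : Type}

theorem emb_F [Fintype V] [DecidableEq V] [Fintype W] [DecidableEq W] (T : SimpleGraph W)
    (hT : T.IsTree) (hW : 3 ≤ Fintype.card W) (P : Finset W) (hP : Bip T P) (R : SimpleGraph V)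
    (F U : Finset V) (hFU : Disjoint F U) (hF : P.card ≤ F.card) (hU : P.card + 1 ≤ U.card)
    (hmiss : ∀ f ∈ F, (nb Rᶜ f U).card ≤ 1) (hdeg : ∀ f ∈ F, Fintype.card W ≤ dg R f + 1) :
    Emb T R := by
  obtain ⟨g, hinj, hgF, hadj⟩ := emb_inner T hT hW P hP R F U hFU hF hU hmiss
  have hp : ∀ w : W, ∃ p, w ∉ P ∪ inner T → (p ∈ P ∧ ∀ v, T.Adj w v → v = p) := by
    intro w
    by_cases hw : w ∈ P ∪ inner T
    · exact ⟨w, fun h => absurd hw h⟩
    · rw [mem_union, not_or] at hw
      obtain ⟨p, _, hp2, hp3⟩ := leaf_par T hT hW w hw.2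
      refine ⟨p, fun _ => ⟨?_, hp3⟩⟩
      by_contra hpP
      exact hw.1 ((hP w p hp2).2 hpP)
  choose par hpar using hp
  refine leaf_ext T R (P ∪ inner T) g hinj hadj par ?_ ?_
  · intro w hw
    exact ⟨mem_union_left _ (hpar w hw).1, (hpar w hw).2⟩
  · intro w hw
    exact hdeg _ (hgF _ (hpar w hw).1)

end Pool.Agent.Lib.MP_0e31aa_co.H
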