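import Pool.Agent.Lib.MP_0e31aa_co.H.Defs

/-!
Module SegCut: cutting a segment between two consecutive vertices of `L`, and the count.
-/

set_option autoImplicit false

namespace Pool.Agent.Lib.MP_0e31aa_co.H

open Finset
open Pool.Agent.Lib.MP_0e31aa_co.TC (nb mem_nb Emb HasCyc Bip)

variable {V : Type}

theorem seg_cut (G : SimpleGraph V) (L : Finset V) (ss : List (List V)) (hss : Sys G L ss)
    (s : List V) (hs : s ∈ ss) (l1 l2 : List V) (x y : V) (hxy : s = l1 ++ x :: y :: l2)
    (hx : x ∈ L) (hy : y ∈ L) :
    ∃ ss' : List (List V), Sys G L ss' ∧ ss'.flatten.length = ss.flatten.length ∧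
      ss'.length = ss.length + 1 := by
  obtain ⟨hnd, hseg, hcov⟩ := hss
  obtain ⟨c1, hne, c2, c3⟩ := hseg s hs
  obtain ⟨a, b, rfl⟩ := List.append_of_mem hs
  have hs' : s = (l1 ++ [x]) ++ (y :: l2) := by rw [hxy]; simp
  have hflat : (a ++ (l1 ++ [x]) :: (y :: l2) :: b).flatten = (a ++ s :: b).flatten := by
    rw [hs']
    simp
  have hch : (l1 ++ [x]).IsChain G.Adj ∧ (y :: l2).IsChain G.Adj := by
    rw [hs', List.isChain_append] at c1
    exact ⟨c1.1, c1.2.1⟩
  have n1 : l1 ++ [x] ≠ [] := by simp
  have n2 : y :: l2 ≠ [] := List.cons_ne_nil _ _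
  refine ⟨a ++ (l1 ++ [x]) :: (y :: l2) :: b, ⟨?_, ?_, ?_⟩, ?_, ?_⟩
  · rw [hflat]; exact hnd
  · intro t ht
    rw [List.mem_append, List.mem_cons, List.mem_cons] at ht
    rcases ht with ht | rfl | rfl | ht
    · exact hseg t (List.mem_append_left _ ht)
    · refine ⟨hch.1, n1, ?_, ?_⟩
      · have e : (l1 ++ [x]).head n1 = s.head hne := by
          have : s.head? = (l1 ++ [x]).head? := by
            rw [hs', List.head?_append_of_ne_nil _ n1]
          rw [List.head?_eq_some_head hne, List.head?_eq_some_head n1, Option.some.injEq] at this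
          exact this.symm
        rw [e]
        exact c2
      · rw [List.getLast_append_singleton]
        exact hx
    · refine ⟨hch.2, n2, hy, ?_⟩
      have e : (y :: l2).getLast n2 = s.getLast hne := by
        have : s.getLast? = (y :: l2).getLast? := by
          rw [hs', List.getLast?_append_of_ne_nil _ n2]
        rw [List.getLast?_eq_some_getLast hne, List.getLast?_eq_some_getLast n2,
          Option.some.injEq] at this
        exact this.symm
      rw [e]
      exact c3
    · exact hseg t (List.mem_append_right _ (List.mem_cons_of_mem _ ht))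
  · intro z hz
    rw [hflat]
    exact hcov z hz
  · rw [hflat]
  · simp only [List.length_append, List.length_cons]
    omega

open scoped Classical in
private theorem SegCut_list (L : Finset V) : ∀ s : List V,
    (∀ l1 l2 x y, s = l1 ++ x :: y :: l2 → x ∈ L → y ∉ L) →
    2 * s.countP (fun v => decide (v ∈ L)) ≤ s.length + 1
  | [], _ => by simp
  | [x], _ => by
    by_cases hx : x ∈ L <;> simp [hx]
  | x :: y :: t, h => by
    by_cases hx : x ∈ L
    · have hy : y ∉ L := h [] t x y rfl hx
      have ih := SegCut_list L t (fun l1 l2 a b e => h (x :: y :: l1) l2 a b (by rw [e]; simp))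
      rw [List.countP_cons_of_pos (by simpa using hx), List.countP_cons_of_neg (by simpa using hy)]
      simp only [List.length_cons]
      omega
    · have ih := SegCut_list L (y :: t) (fun l1 l2 a b e => h (x :: l1) l2 a b (by rw [e]; simp))
      rw [List.countP_cons_of_neg (by simpa using hx)]
      simp only [List.length_cons] at ih ⊢
      omega

open scoped Classical in
theorem seg_count (G : SimpleGraph V) (L : Finset V) (ss : List (List V)) (hss : Sys G L ss)
    (hno : ∀ s ∈ ss, ∀ l1 l2 x y, s = l1 ++ x :: y :: l2 → x ∈ L → y ∉ L) :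
    2 * L.card ≤ ss.flatten.length + ss.length := by
  have key : ∀ ss : List (List V),
      (∀ s ∈ ss, ∀ l1 l2 x y, s = l1 ++ x :: y :: l2 → x ∈ L → y ∉ L) →
      2 * ss.flatten.countP (fun v => decide (v ∈ L)) ≤ ss.flatten.length + ss.length := by
    intro ss
    induction ss with
    | nil => intro _; simp
    | cons s r ih =>
      intro h
      have h1 := SegCut_list L s (h s (List.mem_cons_self))
      have h2 := ih (fun t ht => h t (List.mem_cons_of_mem _ ht))
      rw [List.flatten_cons, List.countP_append, List.length_append, List.length_cons]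
      omega
  have h1 := key ss hno
  have h2 : L.card ≤ ss.flatten.countP (fun v => decide (v ∈ L)) := by
    rw [List.countP_eq_length_filter]
    have h3 : L ⊆ (ss.flatten.filter (fun v => decide (v ∈ L))).toFinset := by
      intro x hx
      rw [List.mem_toFinset, List.mem_filter]
      exact ⟨hss.2.2 x hx, by simpa using hx⟩
    exact (card_le_card h3).trans (List.toFinset_card_le _)
  omega

end Pool.Agent.Lib.MP_0e31aa_co.H
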