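import Pool.Agent.Lib.MP_0e31aa_co.H.Defs

/-!
Module SegJoin: a vertex `f` outside, adjacent to the first vertices of two different
segments `s`, `t`: the system with `s`, `t` replaced by `s.reverse ++ f :: t` covers one vertex
more.
-/

set_option autoImplicit false

namespace Pool.Agent.Lib.MP_0e31aa_co.H

open Finset
open Pool.Agent.Lib.MP_0e31aa_co.TC (nb mem_nb Emb HasCyc Bip)

variable {V : Type}

open scoped Classical in
theorem seg_join (G : SimpleGraph V) (L : Finset V) (ss : List (List V)) (hss : Sys G L ss)
    (f : V) (hf : f ∉ ss.flatten) (s t : List V) (hs : s ∈ ss) (ht : t ∈ ss) (hst : s ≠ t)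
    (hs0 : s ≠ []) (ht0 : t ≠ []) (h1 : G.Adj f (s.head hs0)) (h2 : G.Adj f (t.head ht0)) :
    ∃ ss' : List (List V), Sys G L ss' ∧ ss'.flatten.length = ss.flatten.length + 1 := by
  obtain ⟨hnd, hseg, hcov⟩ := hss
  set r : List (List V) := (ss.erase s).erase t with hr
  have hp1 : ss.Perm (s :: t :: r) := by
    have e1 := List.perm_cons_erase hs
    have ht' : t ∈ ss.erase s := (List.mem_erase_of_ne hst.symm).mpr ht
    exact e1.trans ((List.perm_cons_erase ht').cons s)
  have hp2 : ss.flatten.Perm (s ++ (t ++ r.flatten)) := by
    have := hp1.flatten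
    simpa using this
  have hp3 : (s.reverse ++ f :: t ++ r.flatten).Perm (f :: (s ++ (t ++ r.flatten))) := by
    have e1 : (s.reverse ++ f :: t ++ r.flatten).Perm (s ++ f :: t ++ r.flatten) :=
      ((List.reverse_perm s).append_right _).append_right _
    refine e1.trans ?_
    rw [List.append_assoc, List.cons_append]
    exact List.perm_middle
  have hp4 : (s.reverse ++ f :: t ++ r.flatten).Perm (f :: ss.flatten) :=
    hp3.trans (hp2.symm.cons f)
  have hflat : ((s.reverse ++ f :: t) :: r).flatten = s.reverse ++ f :: t ++ r.flatten := by
    rw [List.flatten_cons]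
  obtain ⟨cs, _, cs2, cs3⟩ := hseg s hs
  obtain ⟨ct, _, ct2, ct3⟩ := hseg t ht
  refine ⟨(s.reverse ++ f :: t) :: r, ⟨?_, ?_, ?_⟩, ?_⟩
  · rw [hflat, hp4.nodup_iff, List.nodup_cons]
    exact ⟨hf, hnd⟩
  · intro q hq
    rw [List.mem_cons] at hq
    rcases hq with rfl | hq
    · have hsr : s.reverse ≠ [] := by simpa using hs0
      have n1 : s.reverse ++ f :: t ≠ [] := by simp
      refine ⟨?_, n1, ?_, ?_⟩
      · rw [List.isChain_append]
        refine ⟨?_, ?_, ?_⟩
        · rw [List.isChain_reverse]
          exact cs.imp fun a b h => h.symm
        · rw [List.isChain_cons]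
          refine ⟨?_, ct⟩
          intro y hy
          rw [Option.mem_def, List.head?_eq_some_head ht0, Option.some.injEq] at hy
          rw [← hy]
          exact h2
        · intro x hx y hy
          rw [List.getLast?_reverse, Option.mem_def, List.head?_eq_some_head hs0,
            Option.some.injEq] at hx
          rw [List.head?_cons, Option.mem_def, Option.some.injEq] at hy
          rw [← hx, ← hy]
          exact h1.symm
      · have e : (s.reverse ++ f :: t).head n1 = s.getLast hs0 := by
          have : (s.reverse ++ f :: t).head? = s.getLast? := by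
            rw [List.head?_append_of_ne_nil _ hsr, List.head?_reverse]
          rw [List.head?_eq_some_head n1, List.getLast?_eq_some_getLast hs0,
            Option.some.injEq] at this
          exact this
        rw [e]
        exact cs3
      · have e : (s.reverse ++ f :: t).getLast n1 = t.getLast ht0 := by
          have : (s.reverse ++ f :: t).getLast? = t.getLast? := by
            have e2 : s.reverse ++ f :: t = (s.reverse ++ [f]) ++ t := by simp
            rw [e2, List.getLast?_append_of_ne_nil _ ht0]
          rw [List.getLast?_eq_some_getLast n1, List.getLast?_eq_some_getLast ht0,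
            Option.some.injEq] at this
          exact this
        rw [e]
        exact ct3
    · exact hseg q (List.mem_of_mem_erase (List.mem_of_mem_erase hq))
  · intro x hx
    rw [hflat, hp4.mem_iff]
    exact List.mem_cons_of_mem _ (hcov x hx)
  · rw [hflat, hp4.length_eq, List.length_cons]

end Pool.Agent.Lib.MP_0e31aa_co.H
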