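import Pool.Agent.Lib.MP_0e31aa_co.H.SegCyc
import Pool.Agent.Lib.MP_0e31aa_co.H.SegCut
import Pool.Agent.Lib.MP_0e31aa_co.H.SegJoin

/-!
Module Seg (50 min): the segment lemma.

Take a system (`L.toList.map (fun x => [x])` is one) with `ss.flatten.length` maximum (it is at most
`|V|` by nodup), and among these one with `ss.length` maximum (at most `flatten.length`, the
segments are non-empty). `F` = vertices not in `ss.flatten`, `U` = the first vertices of the
segments (`|U| = ss.length`, because the segments are disjoint: nodup of `flatten`).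
* `F` is disjoint from `L`, `U ⊆ L`; `|F| = |V| - flatten.length`; `seg_cyc` gives the cycle.
* by `seg_cut` and maximality no segment has two consecutive vertices in `L`, `seg_count`:
  `2 |L| ≤ flatten.length + ss.length`.
* `f ∈ F` with two different neighbours in `U`: they are heads of two different segments,
  `seg_join` contradicts the maximality.
-/

set_option autoImplicit false

namespace Pool.Agent.Lib.MP_0e31aa_co.H

open Finset
open Pool.Agent.Lib.MP_0e31aa_co.TC (nb mem_nb Emb HasCyc Bip)

variable {V : Type}

private theorem Seg_sub (ss : List (List V)) (h : ∀ s ∈ ss, s ≠ []) :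
    (ss.filterMap List.head?).Sublist ss.flatten ∧
      (ss.filterMap List.head?).length = ss.length := by
  induction ss with
  | nil => simp
  | cons s r ih =>
    obtain ⟨ih1, ih2⟩ := ih (fun t ht => h t (List.mem_cons_of_mem _ ht))
    have hs := h s List.mem_cons_self
    cases s with
    | nil => exact absurd rfl hs
    | cons x l =>
      constructor
      · have e1 : ((x :: l) :: r).filterMap List.head? = x :: r.filterMap List.head? := by
          simp
        have e2 : ((x :: l) :: r).flatten = x :: (l ++ r.flatten) := by simp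
        rw [e1, e2]
        exact (ih1.trans (List.sublist_append_right _ _)).cons_cons x
      · simp [ih2]

private theorem Seg_flat (l : List V) : (l.map (fun x => [x])).flatten = l := by
  induction l with
  | nil => rfl
  | cons a l ih => simpa using ih

private theorem Seg_init (G : SimpleGraph V) (L : Finset V) :
    Sys G L (L.toList.map (fun x => [x])) := by
  refine ⟨?_, ?_, ?_⟩
  · rw [Seg_flat]
    exact L.nodup_toList
  · intro s hs
    rw [List.mem_map] at hs
    obtain ⟨x, hx, rfl⟩ := hs
    rw [Finset.mem_toList] at hx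
    refine ⟨List.isChain_singleton x, by simp, ?_, ?_⟩
    · simpa using hx
    · simpa using hx
  · intro x hx
    rw [Seg_flat, Finset.mem_toList]
    exact hx

theorem seg [Fintype V] (G : SimpleGraph V) (L : Finset V) (hL : 3 ≤ L.card)
    (hcl : ∀ u ∈ L, ∀ v ∈ L, u ≠ v → G.Adj u v) :
    ∃ F U : Finset V, Disjoint F L ∧ U ⊆ L ∧ HasCyc G (Fintype.card V - F.card) ∧
      2 * L.card + F.card ≤ U.card + Fintype.card V ∧ ∀ f ∈ F, (nb G f U).card ≤ 1 := by
  classical
  set N := Fintype.card V with hN
  have hne : ∀ ss, Sys G L ss → ∀ s ∈ ss, s ≠ [] := by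
    intro ss hss s hs
    obtain ⟨h, -⟩ := (hss.2.1 s hs).2
    exact h
  have hfl : ∀ ss, Sys G L ss → ss.flatten.length ≤ N := by
    intro ss hss
    exact hss.1.length_le_card
  have hlen : ∀ ss, Sys G L ss → ss.length ≤ ss.flatten.length := by
    intro ss hss
    obtain ⟨h1, h2⟩ := Seg_sub ss (hne ss hss)
    rw [← h2]
    exact h1.length_le
  set S : Set ℕ := {k | ∃ ss, Sys G L ss ∧ ss.flatten.length * (N + 1) + ss.length = k} with hS
  have hSne : S.Nonempty := ⟨_, _, Seg_init G L, rfl⟩
  have hSb : BddAbove S := by
    refine ⟨N * (N + 1) + N, ?_⟩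
    rintro k ⟨ss, hss, rfl⟩
    exact Nat.add_le_add (Nat.mul_le_mul_right _ (hfl ss hss)) ((hlen ss hss).trans (hfl ss hss))
  obtain ⟨ss, hss, hval⟩ := Nat.sSup_mem hSne hSb
  have hmax : ∀ ss', Sys G L ss' → ss'.flatten.length * (N + 1) + ss'.length ≤
      ss.flatten.length * (N + 1) + ss.length := by
    intro ss' hss'
    rw [hval]
    exact le_csSup hSb ⟨ss', hss', rfl⟩
  have hno : ∀ s ∈ ss, ∀ l1 l2 x y, s = l1 ++ x :: y :: l2 → x ∈ L → y ∉ L := by
    intro s hs l1 l2 x y hxy hx hy
    obtain ⟨ss', h1, h2, h3⟩ := seg_cut G L ss hss s hs l1 l2 x y hxy hx hy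
    have := hmax ss' h1
    rw [h2, h3] at this
    omega
  have hcount := seg_count G L ss hss hno
  obtain ⟨hsub, hlen2⟩ := Seg_sub ss (hne ss hss)
  have hnd : (ss.filterMap List.head?).Nodup := hsub.nodup hss.1
  have hLsub : L ⊆ ss.flatten.toFinset := by
    intro x hx
    rw [List.mem_toFinset]
    exact hss.2.2 x hx
  have hflc : ss.flatten.toFinset.card = ss.flatten.length := List.toFinset_card_of_nodup hss.1
  have hL2 : L.card ≤ ss.flatten.length := by
    rw [← hflc]
    exact card_le_card hLsub
  refine ⟨univ \ ss.flatten.toFinset, (ss.filterMap List.head?).toFinset, ?_, ?_, ?_, ?_, ?_⟩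
  · exact disjoint_sdiff_self_left.mono_right hLsub
  · intro x hx
    rw [List.mem_toFinset, List.mem_filterMap] at hx
    obtain ⟨s, hs, hsx⟩ := hx
    obtain ⟨-, h, h1, -⟩ := hss.2.1 s hs
    rw [List.head?_eq_some_head h] at hsx
    rw [← Option.some.inj hsx]
    exact h1
  · have h1 : (univ \ ss.flatten.toFinset).card = N - ss.flatten.length := by
      rw [card_sdiff_of_subset (subset_univ _), card_univ, hflc]
    have h2 := hfl ss hss
    rw [h1]
    have h3 : N - (N - ss.flatten.length) = ss.flatten.length := by omega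
    rw [h3]
    exact seg_cyc G L hcl ss hss (by omega)
  · have h1 : (univ \ ss.flatten.toFinset).card = N - ss.flatten.length := by
      rw [card_sdiff_of_subset (subset_univ _), card_univ, hflc]
    have h2 := hfl ss hss
    rw [h1, List.toFinset_card_of_nodup hnd, hlen2]
    omega
  · intro f hf
    by_contra hcon
    rw [not_le, one_lt_card] at hcon
    obtain ⟨a, ha, b, hb, hab⟩ := hcon
    rw [mem_nb, List.mem_toFinset, List.mem_filterMap] at ha hb
    obtain ⟨⟨s, hs, hsa⟩, hfa⟩ := ha
    obtain ⟨⟨t, ht, htb⟩, hfb⟩ := hb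
    have hs0 := hne ss hss s hs
    have ht0 := hne ss hss t ht
    rw [List.head?_eq_some_head hs0] at hsa
    rw [List.head?_eq_some_head ht0] at htb
    have hsa' := Option.some.inj hsa
    have htb' := Option.some.inj htb
    have hst : s ≠ t := by
      intro h
      subst h
      exact hab (hsa'.symm.trans htb')
    have hf' : f ∉ ss.flatten := by
      rw [mem_sdiff, List.mem_toFinset] at hf
      exact hf.2
    obtain ⟨ss', h1, h2⟩ := seg_join G L ss hss f hf' s t hs ht hst hs0 ht0
      (by rw [hsa']; exact hfa) (by rw [htb']; exact hfb)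
    have h3 := hmax ss' h1
    rw [h2] at h3
    have h4 := (hlen ss hss).trans (hfl ss hss)
    have h5 : (ss.flatten.length + 1) * (N + 1) = ss.flatten.length * (N + 1) + (N + 1) := by ring
    omega

end Pool.Agent.Lib.MP_0e31aa_co.H
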