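import Pool.Agent.Lib.MP_0e31aa_co.H.MaxG
import Pool.Agent.Lib.MP_0e31aa_co.H.Seg
import Pool.Agent.Lib.MP_0e31aa_co.H.EmbF

/-!
Module Circ (40 min): the circumference. `|V| = 2n - 1`, `|W| = n ≥ 3`, `P` class of `T` with
`2 |P| ≤ n`, `|big B n| ≥ n`, `B` without cycles on `2n - p` or more vertices: `T` embeds in `Bᶜ`.

Proof. `G` from `exists_closed` with `k = 2n - p ≥ 3`. `L = big G n` is a clique (non-adjacent
`u ≠ v` in `L` would give `2n + 1 ≤ |V| = 2n - 1`), `big B n ⊆ L` (`dg_mono`), so `|L| ≥ n ≥ 3`.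
`seg`: `F`, `U`; the cycle on `|V| - |F|` vertices is shorter than `2n - p`, so `|F| ≥ p`
(`2n - 1 - |F| < 2n - p`); `|U| ≥ 2|L| + |F| - |V| ≥ 2n + p - (2n-1) = p + 1`.
`f ∈ F` is not in `L`: `dg G f ≤ n - 1`, `dg Gᶜ f ≥ 2n - 2 - (n-1) = n - 1` (`dg_compl`).
`emb_F` for `R = Gᶜ` (`Rᶜ = G`, `compl_compl`), and `Gᶜ ≤ Bᶜ`.
-/

set_option autoImplicit false

namespace Pool.Agent.Lib.MP_0e31aa_co.H

open Finset
open Pool.Agent.Lib.MP_0e31aa_co.TC (nb mem_nb Emb HasCyc Bip)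

variable {V W : Type}

theorem circ [Fintype V] [DecidableEq V] [Fintype W] [DecidableEq W] (n : ℕ) (hn : 3 ≤ n)
    (hV : Fintype.card V + 1 = 2 * n) (hW : Fintype.card W = n) (T : SimpleGraph W)
    (hT : T.IsTree) (P : Finset W) (hP : Bip T P) (hP2 : 2 * P.card ≤ n) (B : SimpleGraph V)
    (hL : n ≤ (big B n).card) (hB : NoLong B (2 * n - P.card)) : Emb T Bᶜ := by
  have hp3 : 3 ≤ 2 * n - P.card := by omega
  obtain ⟨G, hBG, hG, hcl⟩ := exists_closed B (2 * n - P.card) hp3 hB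
  have hLsub : big B n ⊆ big G n := by
    intro v hv
    rw [mem_big] at hv ⊢
    exact hv.trans (dg_mono hBG v)
  have hLn : n ≤ (big G n).card := hL.trans (card_le_card hLsub)
  have hclique : ∀ u ∈ big G n, ∀ v ∈ big G n, u ≠ v → G.Adj u v := by
    intro u hu v hv huv
    by_contra hadj
    have := hcl u v huv hadj
    rw [mem_big] at hu hv
    omega
  obtain ⟨F, U, hFL, hUL, hcyc, hU, hmiss⟩ := seg G (big G n) (by omega) hclique
  have hFc : F.card ≤ Fintype.card V := card_le_univ F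
  have hF : P.card ≤ F.card := by
    by_contra hlt
    exact hG _ (by omega) hcyc
  have hemb := emb_F T hT (by omega) P hP Gᶜ F U (hFL.mono_right hUL) hF (by omega)
    (by rw [compl_compl]; exact hmiss) (by
      intro f hf
      have hfL : f ∉ big G n := fun h => Finset.disjoint_left.1 hFL hf h
      rw [mem_big] at hfL
      have := dg_compl G f
      omega)
  obtain ⟨φ, hφ1, hφ2⟩ := hemb
  refine ⟨φ, hφ1, ?_⟩
  intro u v huv
  exact compl_le_compl hBG (hφ2 u v huv)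

end Pool.Agent.Lib.MP_0e31aa_co.H
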