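import Pool.Agent.Lib.MP_0e31aa_co.H.Exact

/-!
Module Consec (40 min): if the closing edge `x y` of a longest cycle has `d(x) + d(y) ≥ |V| + 1`,
then all lengths.

Proof. No vertex `w` outside the cycle is adjacent to both `x = f 0` and `y = f (c-1)` (else
`f 0, ..., f (c-1), w` is a cycle on `c+1` vertices). So outside the cycle (`|V| - c` vertices) they
have together at most `|V| - c` neighbours, on the cycle at least `|V| + 1 - (|V| - c) = c + 1`.
`exact_cyc`.
-/

set_option autoImplicit false

namespace Pool.Agent.Lib.MP_0e31aa_co.H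

open Finset
open Pool.Agent.Lib.MP_0e31aa_co.TC (nb mem_nb Emb HasCyc Bip)

variable {V : Type}

theorem consec [Fintype V] (G : SimpleGraph V) (c : ℕ) (hc : 3 ≤ c) (f : ℕ → V)
    (hf : FCyc G c f) (hmax : ¬ HasCyc G (c + 1))
    (hd : Fintype.card V + 1 ≤ dg G (f 0) + dg G (f (c - 1))) :
    ∀ l, 3 ≤ l → l ≤ c → HasCyc G l := by
  classical
  obtain ⟨P, hP⟩ : ∃ P : Finset V, P = (range c).image f := ⟨_, rfl⟩
  have hmemP : ∀ v, v ∈ P ↔ ∃ i < c, f i = v := by
    intro v
    rw [hP, mem_image]
    simp only [mem_range]
  have hinj : Set.InjOn f (range c : Finset ℕ) := fun i hi j hj hij =>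
    hf.inj i (mem_range.1 (mem_coe.1 hi)) j (mem_range.1 (mem_coe.1 hj)) hij
  have hcard : P.card = c := by
    rw [hP, card_image_of_injOn hinj, card_range]
  have hsub : ∀ v : V, (nb G v P).card = ((range c).filter fun j => G.Adj v (f j)).card := by
    intro v
    have h1 : nb G v P = ((range c).filter fun j => G.Adj v (f j)).image f := by
      ext u
      rw [mem_nb, hmemP, mem_image]
      constructor
      · rintro ⟨⟨i, hi, rfl⟩, hu⟩
        exact ⟨i, mem_filter.2 ⟨mem_range.2 hi, hu⟩, rfl⟩
      · rintro ⟨i, hi, rfl⟩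
        rw [mem_filter, mem_range] at hi
        exact ⟨⟨i, hi.1, rfl⟩, hi.2⟩
    rw [h1, card_image_of_injOn]
    exact hinj.mono (coe_subset.2 (filter_subset _ _))
  have hdeg : ∀ v : V, dg G v = (nb G v P).card + (nb G v Pᶜ).card := by
    intro v
    unfold dg
    rw [← card_union_of_disjoint]
    · congr 1
      ext u
      rw [mem_union, mem_nb, mem_nb, mem_nb, mem_compl]
      by_cases hu : u ∈ P
      · simp [hu]
      · simp [hu]
    · rw [disjoint_left]
      intro u hu hu'
      rw [mem_nb] at hu hu'
      exact (mem_compl.1 hu'.1) hu.1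
  have hno : ∀ w, w ∉ P → G.Adj (f 0) w → G.Adj (f (c - 1)) w → False := by
    intro w hw h0 h1
    apply hmax
    refine hasCyc_of_fcyc (f := fun i => if i < c then f i else w) (by omega)
      ⟨⟨fun i hi j hj hij => ?_, fun i hi => ?_⟩, ?_⟩
    · by_cases h2 : i < c <;> by_cases h3 : j < c
      · simp only [h2, h3, if_true] at hij
        exact hf.inj i h2 j h3 hij
      · simp only [h2, h3, if_true, if_false] at hij
        exact absurd ((hmemP w).2 ⟨i, h2, hij⟩) hw
      · simp only [h2, h3, if_true, if_false] at hij
        exact absurd ((hmemP w).2 ⟨j, h3, hij.symm⟩) hw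
      · omega
    · by_cases h2 : i + 1 < c
      · have h3 : i < c := by omega
        simp only [h2, h3, if_true]
        exact hf.adj i h2
      · have h3 : i = c - 1 := by omega
        have h4 : i < c := by omega
        simp only [h2, h4, if_true, if_false]
        rw [h3]
        exact h1
    · have h2 : ¬ (c + 1 - 1 < c) := by omega
      have h3 : 0 < c := by omega
      simp only [h2, h3, if_true, if_false]
      exact h0.symm
  have hout : (nb G (f 0) Pᶜ).card + (nb G (f (c - 1)) Pᶜ).card ≤ Pᶜ.card := by
    rw [← card_union_of_disjoint]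
    · refine card_le_card ?_
      intro u hu
      rcases mem_union.1 hu with hu | hu
      · exact (mem_nb.1 hu).1
      · exact (mem_nb.1 hu).1
    · rw [disjoint_left]
      intro u hu hu'
      rw [mem_nb] at hu hu'
      exact hno u (mem_compl.1 hu.1) hu.2 hu'.2
  rw [card_compl, hcard] at hout
  have hcV : c ≤ Fintype.card V := by
    rw [← hcard, ← card_univ]
    exact card_le_card (subset_univ P)
  rw [hdeg, hdeg, hsub, hsub] at hd
  refine exact_cyc G c hc f hf ?_
  have h5 : ∀ v : V, (@Finset.filter ℕ (fun j => G.Adj v (f j))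
      (fun j => Classical.propDecidable _) (range c)).card =
      ((range c).filter fun j => G.Adj v (f j)).card := by
    intro v
    congr 1
  omega

end Pool.Agent.Lib.MP_0e31aa_co.H
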