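import Pool.Agent.Lib.MP_0e31aa_co.H.Defs

/-!
Module Core (40 min): dense bipartite graphs contain a core.

`X`, `Y` finite sets (not necessarily disjoint; we count ordered pairs). If the number of pairs
`x ∈ X`, `y ∈ Y`, `R.Adj x y` is larger than `b |X| + a |Y|`, then there are non-empty `X' ⊆ X`,
`Y' ⊆ Y` such that each `x ∈ X'` has at least `b + 1` neighbours in `Y'` and each `y ∈ Y'` at least
`a + 1` neighbours in `X'`.

Proof. Strong induction on `|X| + |Y|`: if `X, Y` themselves do not have the property, delete a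
vertex `x` with at most `b` neighbours in `Y` (the sum decreases by at most `b`), or a vertex `y`
with at most `a` neighbours in `X`. Non-empty: if `X` or `Y` is empty the sum is `0`.
Useful: `∑ x ∈ X, (nb R x Y).card = ∑ y ∈ Y, (nb R y X).card` (`Finset.sum_card_bipartiteAbove_eq_sum_card_bipartiteBelow` or direct).
-/

set_option autoImplicit false

namespace Pool.Agent.Lib.MP_0e31aa_co.H

open Finset
open Pool.Agent.Lib.MP_0e31aa_co.TC (nb mem_nb Emb HasCyc Bip)

variable {V : Type}

theorem sum_nb_comm [DecidableEq V] (R : SimpleGraph V) (X Y : Finset V) :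
    ∑ x ∈ X, (nb R x Y).card = ∑ y ∈ Y, (nb R y X).card := by
  classical
  have h1 : ∀ x, (nb R x Y).card = ∑ y ∈ Y, if R.Adj x y then 1 else 0 := by
    intro x
    unfold nb
    rw [Finset.card_filter]
  have h2 : ∀ y, (nb R y X).card = ∑ x ∈ X, if R.Adj x y then 1 else 0 := by
    intro y
    unfold nb
    rw [Finset.card_filter]
    refine Finset.sum_congr rfl fun x _ => ?_
    simp only [R.adj_comm y x]
  simp only [h1, h2]
  exact Finset.sum_comm

private theorem core_aux [DecidableEq V] (R : SimpleGraph V) (a b : ℕ) (N : ℕ) :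
    ∀ X Y : Finset V, X.card + Y.card ≤ N →
      b * X.card + a * Y.card < ∑ x ∈ X, (nb R x Y).card →
    ∃ X' Y' : Finset V, X' ⊆ X ∧ Y' ⊆ Y ∧ X'.Nonempty ∧ Y'.Nonempty ∧
      (∀ x ∈ X', b + 1 ≤ (nb R x Y').card) ∧ (∀ y ∈ Y', a + 1 ≤ (nb R y X').card) := by
  induction N with
  | zero =>
    intro X Y hN h
    have hX : X = ∅ := Finset.card_eq_zero.1 (by omega)
    subst hX
    simp at h
  | succ N ih =>
    intro X Y hN h
    by_cases hx : ∃ x ∈ X, (nb R x Y).card ≤ b
    · obtain ⟨x, hxX, hxb⟩ := hx
      have hc := Finset.card_erase_of_mem hxX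
      have hpos := Finset.card_pos.2 ⟨x, hxX⟩
      have hsum := Finset.add_sum_erase X (fun x => (nb R x Y).card) hxX
      have hmul : b * X.card = b * (X.erase x).card + b := by
        have : X.card = (X.erase x).card + 1 := by omega
        rw [this, Nat.mul_succ]
      obtain ⟨X', Y', h1, h2, h3⟩ := ih (X.erase x) Y (by omega) (by omega)
      exact ⟨X', Y', h1.trans (Finset.erase_subset _ _), h2, h3⟩
    · by_cases hy : ∃ y ∈ Y, (nb R y X).card ≤ a
      · obtain ⟨y, hyY, hya⟩ := hy
        rw [sum_nb_comm] at h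
        have hc := Finset.card_erase_of_mem hyY
        have hpos := Finset.card_pos.2 ⟨y, hyY⟩
        have hsum := Finset.add_sum_erase Y (fun y => (nb R y X).card) hyY
        have hmul : a * Y.card = a * (Y.erase y).card + a := by
          have : Y.card = (Y.erase y).card + 1 := by omega
          rw [this, Nat.mul_succ]
        obtain ⟨X', Y', h1, h2, h3⟩ := ih X (Y.erase y) (by omega) (by
          rw [sum_nb_comm]; omega)
        exact ⟨X', Y', h1, h2.trans (Finset.erase_subset _ _), h3⟩
      · push Not at hx hy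
        refine ⟨X, Y, subset_rfl, subset_rfl, ?_, ?_, ?_, ?_⟩
        · rw [Finset.nonempty_iff_ne_empty]
          rintro rfl
          simp at h
        · rw [Finset.nonempty_iff_ne_empty]
          rintro rfl
          rw [sum_nb_comm] at h
          simp at h
        · intro x hxX; exact hx x hxX
        · intro y hyY; exact hy y hyY

theorem core [DecidableEq V] (R : SimpleGraph V) (X Y : Finset V) (a b : ℕ)
    (h : b * X.card + a * Y.card < ∑ x ∈ X, (nb R x Y).card) :
    ∃ X' Y' : Finset V, X' ⊆ X ∧ Y' ⊆ Y ∧ X'.Nonempty ∧ Y'.Nonempty ∧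
      (∀ x ∈ X', b + 1 ≤ (nb R x Y').card) ∧ (∀ y ∈ Y', a + 1 ≤ (nb R y X').card) :=
  core_aux R a b _ X Y le_rfl h

end Pool.Agent.Lib.MP_0e31aa_co.H
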