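import Pool.Agent.Lib.MP_0e31aa_co.H.LeafExt
import Pool.Agent.Lib.MP_0e31aa_co.H.GreedyK
import Pool.Agent.Lib.MP_0e31aa_co.H.Core
import Pool.Agent.Lib.MP_0e31aa_co.TC.Classes

/-!
Module CoreEmb (60 min): embedding a tree in a core and adding leaves.

`K ⊇ inner T`. In both statements the tree restricted to `K` is placed by `greedyK` with the regions
`A w = X'` for `w ∈ P` and `A w = Y'` for `w ∉ P`, where `X', Y'` is the core (module Core); the root
is any vertex of `K` (non-empty, `inner T` is non-empty for `|W| ≥ 3`); `K` is closed under parents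
by `inner_closed`. Neighbours in `T` are in different classes (`Bip`).
* coreEmb_disj: `X`, `Y` disjoint, `|K ∩ P| ≤ a + 1`, `|K \ P| ≤ b + 1`: a vertex of `X'` has `≥ b + 1`
  neighbours in `Y'` and the vertices of `K` with region meeting `Y'` are those of `K \ P`.
* coreEmb_two: `X`, `Y` arbitrary, `|K| ≤ r + 2`: the vertices `w ∈ K` different from the parent are at
  most `r + 1`, and each vertex of the core has at least `r + 1` neighbours.
Then `leaf_ext`: the vertices outside `K` are leaves (`leaf_par`), by hypothesis their neighbours are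
placed at vertices of degree at least `|W| - 1`: either all leaves outside `K` hang at `P` and all
vertices of `X` have large degree, or all vertices of `X ∪ Y` have large degree.
-/

set_option autoImplicit false

namespace Pool.Agent.Lib.MP_0e31aa_co.H

open Finset
open Pool.Agent.Lib.MP_0e31aa_co.TC (nb mem_nb Emb HasCyc Bip)

variable {V W : Type}

private theorem CoreEmb_gen [Fintype V] [DecidableEq V] [Fintype W] [DecidableEq W]
    (T : SimpleGraph W) (hT : T.IsTree) (hW : 3 ≤ Fintype.card W) (P K : Finset W) (hP : Bip T P)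
    (hK : inner T ⊆ K) (R : SimpleGraph V) (X' Y' : Finset V) (hX : X'.Nonempty) (hY : Y'.Nonempty)
    (h1 : ∀ v ∈ K, v ∈ P → ∀ p ∈ K, p ∉ P → ∀ x ∈ Y',
      (K.filter fun w => w ≠ p ∧ ¬ Disjoint (if w ∈ P then X' else Y') X').card ≤
        (nb R x X').card)
    (h2 : ∀ v ∈ K, v ∉ P → ∀ p ∈ K, p ∈ P → ∀ x ∈ X',
      (K.filter fun w => w ≠ p ∧ ¬ Disjoint (if w ∈ P then X' else Y') Y').card ≤
        (nb R x Y').card)
    (h3 : ∀ w, w ∉ K → w ∉ P → ∀ x ∈ X', Fintype.card W ≤ dg R x + 1)
    (h4 : ∀ w, w ∉ K → w ∈ P → ∀ y ∈ Y', Fintype.card W ≤ dg R y + 1) : Emb T R := by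
  have hne : ∃ c, c ∈ inner T := by
    have hW0 : 0 < Fintype.card W := by omega
    obtain ⟨w0⟩ := Fintype.card_pos_iff.1 hW0
    by_cases hw : w0 ∈ inner T
    · exact ⟨w0, hw⟩
    · obtain ⟨p, hp, -⟩ := leaf_par T hT hW w0 hw
      exact ⟨p, hp⟩
  obtain ⟨c, hc⟩ := hne
  obtain ⟨D, hDc, -⟩ := Pool.Agent.Lib.MP_c5b475_co.exists_RT hT c
  have hDK : D.c ∈ K := by
    rw [hDc]
    exact hK hc
  have hcl := inner_closed T D K hK hDK
  obtain ⟨g, hg1, hg2, hg3⟩ := greedyK T D K hDK (fun u _ hu => hcl u hu) R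
    (fun w => if w ∈ P then X' else Y') (by
      intro w _
      by_cases h : w ∈ P
      · simp only [h, if_true]
        exact hX
      · simp only [h, if_false]
        exact hY) (by
      intro v hv hvc x hx
      have hadj : T.Adj v (D.par v) := D.adj_par hvc
      have hPv := hP v (D.par v) hadj
      by_cases hvP : v ∈ P
      · have hpP : D.par v ∉ P := hPv.1 hvP
        simp only [hpP, if_false] at hx
        simp only [hvP, if_true]
        exact h1 v hv hvP (D.par v) (hcl v hvc) hpP x hx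
      · have hpP : D.par v ∈ P := by
          by_contra hc'
          exact hvP (hPv.2 hc')
        simp only [hpP, if_true] at hx
        simp only [hvP, if_false]
        exact h2 v hv hvP (D.par v) (hcl v hvc) hpP x hx)
  have hlp : ∀ w, ∃ p, w ∉ K → (p ∈ inner T ∧ T.Adj w p ∧ ∀ v, T.Adj w v → v = p) := by
    intro w
    by_cases hw : w ∈ K
    · exact ⟨w, fun h => absurd hw h⟩
    · obtain ⟨p, hp⟩ := leaf_par T hT hW w (fun h => hw (hK h))
      exact ⟨p, fun _ => hp⟩
  choose par hpar using hlp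
  refine leaf_ext T R K g hg1 hg3 par (fun w hw => ⟨hK (hpar w hw).1, (hpar w hw).2.2⟩) ?_
  intro w hw
  have hpK : par w ∈ K := hK (hpar w hw).1
  have hgp := hg2 (par w) hpK
  have hPw := hP w (par w) (hpar w hw).2.1
  by_cases hwP : w ∈ P
  · have hpP : par w ∉ P := hPw.1 hwP
    simp only [hpP, if_false] at hgp
    exact h4 w hw hwP _ hgp
  · have hpP : par w ∈ P := by
      by_contra hc'
      exact hwP (hPw.2 hc')
    simp only [hpP, if_true] at hgp
    exact h3 w hw hwP _ hgp

theorem coreEmb_disj [Fintype V] [DecidableEq V] [Fintype W] [DecidableEq W] (T : SimpleGraph W)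
    (hT : T.IsTree) (hW : 3 ≤ Fintype.card W) (P K : Finset W) (hP : Bip T P) (hK : inner T ⊆ K)
    (R : SimpleGraph V) (X Y : Finset V) (hXY : Disjoint X Y) (a b : ℕ)
    (h : b * X.card + a * Y.card < ∑ x ∈ X, (nb R x Y).card)
    (h1 : (K ∩ P).card ≤ a + 1) (h2 : (K \ P).card ≤ b + 1)
    (hPK : P ⊆ K) (hdeg : ∀ x ∈ X, Fintype.card W ≤ dg R x + 1) : Emb T R := by
  obtain ⟨X', Y', hX, hY, hXn, hYn, hx, hy⟩ := core R X Y a b h
  have hd : Disjoint X' Y' := disjoint_of_subset_left hX (disjoint_of_subset_right hY hXY)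
  refine CoreEmb_gen T hT hW P K hP hK R X' Y' hXn hYn ?_ ?_ ?_ ?_
  · intro v _ _ p _ _ x hxY
    refine le_trans ?_ (hy x hxY)
    refine le_trans (card_le_card ?_) h1
    intro w hw
    rw [mem_filter] at hw
    rw [mem_inter]
    refine ⟨hw.1, ?_⟩
    by_contra hwP
    apply hw.2.2
    simp only [hwP, if_false]
    exact hd.symm
  · intro v _ _ p _ _ x hxX
    refine le_trans ?_ (hx x hxX)
    refine le_trans (card_le_card ?_) h2
    intro w hw
    rw [mem_filter] at hw
    rw [mem_sdiff]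
    refine ⟨hw.1, ?_⟩
    intro hwP
    apply hw.2.2
    simp only [hwP, if_true]
    exact hd
  · intro w _ _ x hxX
    exact hdeg x (hX hxX)
  · intro w hw hwP
    exact absurd (hPK hwP) hw

theorem coreEmb_two [Fintype V] [DecidableEq V] [Fintype W] [DecidableEq W] (T : SimpleGraph W)
    (hT : T.IsTree) (hW : 3 ≤ Fintype.card W) (P K : Finset W) (hP : Bip T P) (hK : inner T ⊆ K)
    (R : SimpleGraph V) (X Y : Finset V) (r : ℕ)
    (h : r * (X.card + Y.card) < ∑ x ∈ X, (nb R x Y).card) (h1 : K.card ≤ r + 2)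
    (hdeg : ∀ x ∈ X, Fintype.card W ≤ dg R x + 1)
    (hdeg2 : P ⊆ K ∨ ∀ y ∈ Y, Fintype.card W ≤ dg R y + 1) : Emb T R := by
  obtain ⟨X', Y', hX, hY, hXn, hYn, hx, hy⟩ := core R X Y r r (by rw [← mul_add]; exact h)
  have hcard : ∀ p ∈ K, ∀ Q : W → Prop, ∀ _ : DecidablePred Q,
      (K.filter fun w => w ≠ p ∧ Q w).card ≤ r + 1 := by
    intro p hp Q _
    have h2 : (K.filter fun w => w ≠ p ∧ Q w) ⊆ K.erase p := by
      intro w hw
      rw [mem_filter] at hw
      exact mem_erase.2 ⟨hw.2.1, hw.1⟩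
    have h3 := card_le_card h2
    rw [card_erase_of_mem hp] at h3
    omega
  refine CoreEmb_gen T hT hW P K hP hK R X' Y' hXn hYn ?_ ?_ ?_ ?_
  · intro v _ _ p hp _ x hxY
    exact (hcard p hp _ _).trans (hy x hxY)
  · intro v _ _ p hp _ x hxX
    exact (hcard p hp _ _).trans (hx x hxX)
  · intro w _ _ x hxX
    exact hdeg x (hX hxX)
  · intro w hw hwP y hyY
    rcases hdeg2 with h2 | h2
    · exact absurd (h2 hwP) hw
    · exact h2 y (hY hyY)

end Pool.Agent.Lib.MP_0e31aa_co.H
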