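import Pool.Agent.Lib.MP_0e31aa_co.TC.Defs

/-!
# Tree versus odd cycle: definitions for Theorem G

Theorem G: if the red graph `Bᶜ` on `2 n - 1` vertices does not contain the tree `T` and at least
`n` vertices have blue degree at least `n`, then `B` contains all cycles `C_3, ..., C_(2n-p)`.
-/

set_option autoImplicit false

namespace Pool.Agent.Lib.MP_0e31aa_co.H

open Finset
open Pool.Agent.Lib.MP_0e31aa_co.TC (nb mem_nb Emb HasCyc Bip card_nb_compl_mem)

variable {V W : Type}

/-- The degree. -/
noncomputable def dg [Fintype V] (G : SimpleGraph V) (v : V) : ℕ := (nb G v univ).card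

theorem dg_compl [Fintype V] (G : SimpleGraph V) (v : V) :
    dg G v + dg Gᶜ v + 1 = Fintype.card V := by
  have h := card_nb_compl_mem G v univ (mem_univ v)
  rw [card_univ] at h
  exact h

theorem dg_mono [Fintype V] {G G' : SimpleGraph V} (h : G ≤ G') (v : V) : dg G v ≤ dg G' v := by
  refine card_le_card ?_
  intro u hu
  rw [mem_nb] at hu ⊢
  exact ⟨hu.1, h hu.2⟩

/-- `f 0, ..., f (c - 1)` are the consecutive vertices of a path of `G`. -/
structure FPath (G : SimpleGraph V) (c : ℕ) (f : ℕ → V) : Prop where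
  inj : ∀ i < c, ∀ j < c, f i = f j → i = j
  adj : ∀ i, i + 1 < c → G.Adj (f i) (f (i + 1))

/-- `f 0, ..., f (c - 1)` are the consecutive vertices of a cycle of `G` (used for `3 ≤ c`). -/
structure FCyc (G : SimpleGraph V) (c : ℕ) (f : ℕ → V) : Prop extends FPath G c f where
  close : G.Adj (f (c - 1)) (f 0)

/-- A system of segments: disjoint paths of `G` with both ends in `L`, covering `L`. -/
def Sys (G : SimpleGraph V) (L : Finset V) (ss : List (List V)) : Prop :=
  ss.flatten.Nodup ∧
    (∀ s ∈ ss, s.IsChain G.Adj ∧ ∃ h : s ≠ [], s.head h ∈ L ∧ s.getLast h ∈ L) ∧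
    ∀ x ∈ L, x ∈ ss.flatten

/-- `G` has no cycle on `k` or more vertices. -/
def NoLong (G : SimpleGraph V) (k : ℕ) : Prop := ∀ c, k ≤ c → ¬ HasCyc G c

/-- The vertices of degree at least `n`. -/
noncomputable def big [Fintype V] (G : SimpleGraph V) (n : ℕ) : Finset V :=
  univ.filter fun v => n ≤ dg G v

theorem mem_big [Fintype V] {G : SimpleGraph V} {n : ℕ} {v : V} : v ∈ big G n ↔ n ≤ dg G v := by
  simp [big]

/-- The non-leaves of a tree (vertices of degree at least two). -/
noncomputable def inner [Fintype W] (T : SimpleGraph W) : Finset W :=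
  univ.filter fun w => 2 ≤ dg T w

theorem mem_inner [Fintype W] {T : SimpleGraph W} {w : W} : w ∈ inner T ↔ 2 ≤ dg T w := by
  simp [inner]

end Pool.Agent.Lib.MP_0e31aa_co.H
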