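import Pool.Agent.Lib.MP_0e31aa_co.H.FC

/-!
Module Exact (60 min): Bondy's argument. A cycle `f 0, ..., f (c-1)` whose closing edge `x y`
(`x = f 0`, `y = f (c-1)`) has at least `c + 1` neighbours in total on the cycle gives all lengths.

Proof. Suppose no cycle on `l` vertices, `3 ≤ l < c` (`l = c` is `f`). For `j` in `[1, c-2]` put
`g j = j + l - 3` if `j ≤ c - l + 1` and `g j = j + l - 1 - c` otherwise; `g` is a bijection of
`[1, c-2]` (`[1, c-l+1] → [l-2, c-2]`, `[c-l+2, c-2] → [1, l-3]`).
If `x ~ f j` and `y ~ f (g j)` there is a cycle on `l` vertices: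
 case 1 (`j ≤ c-l+1`): `f 0, f j, f (j+1), ..., f (j+l-3), f (c-1)`;
   as a function: `h 0 = f 0`, `h i = f (j+i-1)` for `1 ≤ i ≤ l-2`, `h (l-1) = f (c-1)`;
 case 2: with `j' = g j < j`: `f 0, f j, f (j+1), ..., f (c-1), f j', f (j'-1), ..., f 1`;
   `h 0 = f 0`, `h i = f (j+i-1)` for `1 ≤ i ≤ c-j`, `h i = f (j' + c - j + 1 - i)` for
   `c-j+1 ≤ i ≤ l-1` (`l = c - j + j' + 1`).
So the sets `{j ∈ [1,c-2] | x ~ f j}` and `{j ∈ [1,c-2] | y ~ f (g j)}` are disjoint, the second one
has as many elements as `{i ∈ [1,c-2] | y ~ f i}`: together at most `c - 2`; with `x ~ y` (counted in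
both) the two numbers of neighbours on the cycle sum up to at most `c`. Contradiction.
-/

set_option autoImplicit false

namespace Pool.Agent.Lib.MP_0e31aa_co.H

open Finset
open Pool.Agent.Lib.MP_0e31aa_co.TC (nb mem_nb Emb HasCyc Bip)

variable {V : Type}

private theorem exact_phi {G : SimpleGraph V} {c : ℕ} {f : ℕ → V} (hf : FCyc G c f) (l : ℕ)
    (hl : 0 < l) (φ : ℕ → ℕ) (hlt : ∀ t < l, φ t < c)
    (hinj : ∀ s < l, ∀ t < l, φ s = φ t → s = t)
    (hadj : ∀ t, t + 1 < l → G.Adj (f (φ t)) (f (φ (t + 1))))
    (hclose : G.Adj (f (φ (l - 1))) (f (φ 0))) : HasCyc G l := by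
  refine hasCyc_of_fcyc (f := fun t => f (φ t)) hl ?_
  exact ⟨⟨fun s hs t ht h => hinj s hs t ht (hf.inj _ (hlt s hs) _ (hlt t ht) h),
    fun t ht => hadj t ht⟩, hclose⟩

open scoped Classical in
theorem exact_cyc (G : SimpleGraph V) (c : ℕ) (hc : 3 ≤ c) (f : ℕ → V) (hf : FCyc G c f)
    (hd : c + 1 ≤ ((range c).filter fun j => G.Adj (f 0) (f j)).card +
      ((range c).filter fun j => G.Adj (f (c - 1)) (f j)).card) :
    ∀ l, 3 ≤ l → l ≤ c → HasCyc G l := by
  intro l hl hlc
  rcases Nat.lt_or_ge l c with hlt | hge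
  swap
  · have : l = c := le_antisymm hlc hge
    subst this
    exact hasCyc_of_fcyc (by omega) hf
  have hcl := hf.close
  have hirr : ∀ v, ¬ G.Adj v v := fun v h => (G.ne_of_adj h) rfl
  set A : Finset ℕ := (Icc 1 (c - 2)).filter fun j => G.Adj (f 0) (f j) with hA
  set B : Finset ℕ := (Icc 1 (c - 2)).filter fun j => G.Adj (f (c - 1)) (f j) with hB
  have h1 : ((range c).filter fun j => G.Adj (f 0) (f j)).card ≤ A.card + 1 := by
    have hsub : ((range c).filter fun j => G.Adj (f 0) (f j)) ⊆ insert (c - 1) A := by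
      intro j hj
      rw [mem_filter, mem_range] at hj
      rw [mem_insert, hA, mem_filter, mem_Icc]
      by_cases h : j = c - 1
      · exact Or.inl h
      · right
        refine ⟨⟨?_, by omega⟩, hj.2⟩
        rcases Nat.eq_zero_or_pos j with h0 | h0
        · exfalso; rw [h0] at hj; exact hirr _ hj.2
        · exact h0
    exact (card_le_card hsub).trans (card_insert_le _ _)
  have h2 : ((range c).filter fun j => G.Adj (f (c - 1)) (f j)).card ≤ B.card + 1 := by
    have hsub : ((range c).filter fun j => G.Adj (f (c - 1)) (f j)) ⊆ insert 0 B := by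
      intro j hj
      rw [mem_filter, mem_range] at hj
      rw [mem_insert, hB, mem_filter, mem_Icc]
      by_cases h : j = 0
      · exact Or.inl h
      · right
        refine ⟨⟨by omega, ?_⟩, hj.2⟩
        by_contra h0
        have : j = c - 1 := by omega
        rw [this] at hj
        exact hirr _ hj.2
    exact (card_le_card hsub).trans (card_insert_le _ _)
  set g : ℕ → ℕ := fun i => if l - 2 ≤ i then i + 3 - l else i + c + 1 - l with hg
  have hginj : Set.InjOn g (B : Set ℕ) := by
    intro x hx y hy hxy
    rw [mem_coe, hB, mem_filter, mem_Icc] at hx hy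
    simp only [hg] at hxy
    split_ifs at hxy <;> omega
  have hD : (B.image g).card = B.card := card_image_of_injOn hginj
  have hDs : B.image g ⊆ Icc 1 (c - 2) := by
    intro j hj
    obtain ⟨i, hi, rfl⟩ := mem_image.1 hj
    rw [hB, mem_filter, mem_Icc] at hi
    rw [mem_Icc]
    simp only [hg]
    split_ifs <;> omega
  have hAs : A ⊆ Icc 1 (c - 2) := filter_subset _ _
  have hmeet : (A ∩ B.image g).Nonempty := by
    rw [nonempty_iff_ne_empty]
    intro he
    have hdis : Disjoint A (B.image g) := disjoint_iff_inter_eq_empty.2 he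
    have h3 := card_union_of_disjoint hdis
    have h4 : (A ∪ B.image g).card ≤ (Icc 1 (c - 2)).card := card_le_card (union_subset hAs hDs)
    rw [Nat.card_Icc] at h4
    omega
  obtain ⟨j, hj⟩ := hmeet
  rw [mem_inter, mem_image] at hj
  obtain ⟨hjA, i, hiB, hij⟩ := hj
  rw [hA, mem_filter, mem_Icc] at hjA
  rw [hB, mem_filter, mem_Icc] at hiB
  obtain ⟨⟨hj1, hj2⟩, hxj⟩ := hjA
  obtain ⟨⟨hi1, hi2⟩, hyi⟩ := hiB
  simp only [hg] at hij
  by_cases hcase : l - 2 ≤ i
  · rw [if_pos hcase] at hij
    have hi : i = j + l - 3 := by omega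
    refine exact_phi hf l (by omega) (fun t => if t = 0 then 0 else if t ≤ l - 2 then j + t - 1
      else c - 1) ?_ ?_ ?_ ?_
    · intro t ht
      split_ifs <;> omega
    · intro s hs t ht hst
      split_ifs at hst <;> omega
    · intro t ht
      rcases Nat.eq_zero_or_pos t with h0 | h0
      · subst h0
        rw [if_pos rfl, if_neg (by omega), if_pos (by omega)]
        have : j + (0 + 1) - 1 = j := by omega
        rw [this]
        exact hxj
      · rw [if_neg (by omega), if_pos (by omega), if_neg (by omega)]
        by_cases h1 : t + 1 ≤ l - 2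
        · rw [if_pos h1]
          have : j + (t + 1) - 1 = (j + t - 1) + 1 := by omega
          rw [this]
          exact hf.adj _ (by omega)
        · rw [if_neg h1]
          have : j + t - 1 = i := by omega
          rw [this]
          exact hyi.symm
    · rw [if_neg (by omega), if_neg (by omega), if_pos rfl]
      exact hcl
  · rw [if_neg hcase] at hij
    refine exact_phi hf l (by omega) (fun t => if t = 0 then 0 else if t ≤ c - j then j + t - 1
      else i + c - j + 1 - t) ?_ ?_ ?_ ?_
    · intro t ht
      split_ifs <;> omega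
    · intro s hs t ht hst
      split_ifs at hst <;> omega
    · intro t ht
      rcases Nat.eq_zero_or_pos t with h0 | h0
      · subst h0
        rw [if_pos rfl, if_neg (by omega), if_pos (by omega)]
        have : j + (0 + 1) - 1 = j := by omega
        rw [this]
        exact hxj
      · rw [if_neg (by omega : ¬ t = 0), if_neg (by omega : ¬ t + 1 = 0)]
        by_cases h1 : t + 1 ≤ c - j
        · rw [if_pos h1, if_pos (by omega)]
          have : j + (t + 1) - 1 = (j + t - 1) + 1 := by omega
          rw [this]
          exact hf.adj _ (by omega)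
        · rw [if_neg h1]
          by_cases h2 : t ≤ c - j
          · rw [if_pos h2]
            have e1 : j + t - 1 = c - 1 := by omega
            have e2 : i + c - j + 1 - (t + 1) = i := by omega
            rw [e1, e2]
            exact hyi
          · rw [if_neg h2]
            have e1 : i + c - j + 1 - t = (i + c - j + 1 - (t + 1)) + 1 := by omega
            rw [e1]
            exact (hf.adj _ (by omega)).symm
    · rw [if_neg (by omega), if_neg (by omega), if_pos rfl]
      have e1 : i + c - j + 1 - (l - 1) = 0 + 1 := by omega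
      rw [e1]
      exact (hf.adj 0 (by omega)).symm

end Pool.Agent.Lib.MP_0e31aa_co.H
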