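import Pool.Agent.Lib.MP_0e31aa_co.H.Defs
import Pool.Agent.Lib.MP_0e31aa_co.TC.Lower

/-!
Module FC (40 min, basic): cycles given by functions.
`hasCyc_iff` (TC/Lower.lean) is the translation between `HasCyc` and injective maps from `Fin m`.
rot: indices `(i + k) % c`; the only two cases for the successor are `i + k + 1 < c`-like and wrap
around (use `Nat.mod_eq_of_lt`, `Nat.mod_eq_sub_mod`).
-/

set_option autoImplicit false

namespace Pool.Agent.Lib.MP_0e31aa_co.H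

open Finset
open Pool.Agent.Lib.MP_0e31aa_co.TC (nb mem_nb Emb HasCyc Bip)

variable {V : Type}

theorem hasCyc_of_fcyc {G : SimpleGraph V} {c : ℕ} {f : ℕ → V} (hc : 0 < c) (h : FCyc G c f) :
    HasCyc G c := by
  rw [Pool.Agent.Lib.MP_0e31aa_co.TC.hasCyc_iff G c hc]
  refine ⟨fun i => f i, ?_, ?_, h.close⟩
  · intro i j hij
    exact Fin.ext (h.inj i i.2 j j.2 hij)
  · intro i hi
    exact h.adj i hi

theorem fcyc_of_hasCyc {G : SimpleGraph V} {c : ℕ} (hc : 0 < c) (h : HasCyc G c) :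
    ∃ f : ℕ → V, FCyc G c f := by
  rw [Pool.Agent.Lib.MP_0e31aa_co.TC.hasCyc_iff G c hc] at h
  obtain ⟨g, hg, ha, hcl⟩ := h
  have key : ∀ i (hi : i < c), (if h : i < c then g ⟨i, h⟩ else g ⟨0, hc⟩) = g ⟨i, hi⟩ :=
    fun i hi => dif_pos hi
  refine ⟨fun i => if h : i < c then g ⟨i, h⟩ else g ⟨0, hc⟩, ⟨⟨?_, ?_⟩, ?_⟩⟩
  · intro i hi j hj hij
    simp only [key i hi, key j hj] at hij
    have := hg hij
    exact congrArg Fin.val this
  · intro i hi
    show G.Adj (if h : i < c then g ⟨i, h⟩ else g ⟨0, hc⟩)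
      (if h : i + 1 < c then g ⟨i + 1, h⟩ else g ⟨0, hc⟩)
    rw [key i (by omega), key (i + 1) hi]
    exact ha i hi
  · show G.Adj (if h : c - 1 < c then g ⟨c - 1, h⟩ else g ⟨0, hc⟩)
      (if h : 0 < c then g ⟨0, h⟩ else g ⟨0, hc⟩)
    rw [key (c - 1) (by omega), key 0 hc]
    exact hcl

theorem FCyc.fc_step {G : SimpleGraph V} {c : ℕ} {f : ℕ → V} (hc : 2 ≤ c) (h : FCyc G c f) (n : ℕ) :
    G.Adj (f (n % c)) (f ((n + 1) % c)) := by
  have hr : n % c < c := Nat.mod_lt _ (by omega)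
  rw [← Nat.mod_add_mod]
  by_cases h1 : n % c + 1 < c
  · rw [Nat.mod_eq_of_lt h1]
    exact h.adj _ h1
  · have h2 : n % c = c - 1 := by omega
    rw [h2]
    have h3 : (c - 1 + 1) % c = 0 := by
      rw [Nat.sub_add_cancel (by omega)]
      exact Nat.mod_self c
    rw [h3]
    exact h.close

theorem FCyc.rot {G : SimpleGraph V} {c : ℕ} {f : ℕ → V} (hc : 2 ≤ c) (h : FCyc G c f) (k : ℕ) :
    FCyc G c (fun i => f ((i + k) % c)) := by
  refine ⟨⟨?_, ?_⟩, ?_⟩
  · intro i hi j hj hij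
    have h1 := h.inj _ (Nat.mod_lt _ (by omega)) _ (Nat.mod_lt _ (by omega)) hij
    have h2 : i ≡ j [MOD c] := Nat.ModEq.add_right_cancel' k h1
    have h3 : i % c = j % c := h2
    rwa [Nat.mod_eq_of_lt hi, Nat.mod_eq_of_lt hj] at h3
  · intro i hi
    have h1 := h.fc_step hc (i + k)
    have h2 : i + k + 1 = i + 1 + k := by omega
    rw [h2] at h1
    exact h1
  · have h1 := h.fc_step hc (c - 1 + k)
    have h2 : (c - 1 + k + 1) % c = (0 + k) % c := by
      have h3 : c - 1 + k + 1 = c + k := by omega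
      rw [h3, Nat.add_mod_left, zero_add]
    rw [h2] at h1
    exact h1

theorem FCyc.rev {G : SimpleGraph V} {c : ℕ} {f : ℕ → V} (hc : 2 ≤ c) (h : FCyc G c f) :
    FCyc G c (fun i => f (c - 1 - i)) := by
  refine ⟨⟨?_, ?_⟩, ?_⟩
  · intro i hi j hj hij
    have h1 := h.inj _ (by omega) _ (by omega) hij
    omega
  · intro i hi
    have h1 := h.adj (c - 1 - (i + 1)) (by omega)
    have h2 : c - 1 - (i + 1) + 1 = c - 1 - i := by omega
    rw [h2] at h1
    exact h1.symm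
  · have h1 := h.close
    show G.Adj (f (c - 1 - (c - 1))) (f (c - 1 - 0))
    rw [Nat.sub_self, Nat.sub_zero]
    exact h1.symm

/-- Two vertices `f k`, `f (k + 1)` (indices mod `c`) become the last and the first one. -/
theorem FCyc.move {G : SimpleGraph V} {c : ℕ} {f : ℕ → V} (hc : 2 ≤ c) (h : FCyc G c f) (k : ℕ)
    (hk : k < c) : ∃ g : ℕ → V, FCyc G c g ∧ g (c - 1) = f k ∧ g 0 = f ((k + 1) % c) ∧
      ∀ v, (∃ i < c, g i = v) ↔ ∃ i < c, f i = v := by
  refine ⟨fun i => f ((i + (k + 1)) % c), h.rot hc (k + 1), ?_, ?_, ?_⟩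
  · show f ((c - 1 + (k + 1)) % c) = f k
    have h3 : c - 1 + (k + 1) = c + k := by omega
    rw [h3, Nat.add_mod_left, Nat.mod_eq_of_lt hk]
  · show f ((0 + (k + 1)) % c) = _
    rw [zero_add]
  · intro v
    constructor
    · rintro ⟨i, _, rfl⟩
      exact ⟨_, Nat.mod_lt _ (by omega), rfl⟩
    · rintro ⟨i, hi, rfl⟩
      refine ⟨(i + (c - 1 - k)) % c, Nat.mod_lt _ (by omega), ?_⟩
      show f (((i + (c - 1 - k)) % c + (k + 1)) % c) = f i
      rw [Nat.mod_add_mod]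
      have h3 : i + (c - 1 - k) + (k + 1) = i + c := by omega
      rw [h3, Nat.add_mod_right, Nat.mod_eq_of_lt hi]

end Pool.Agent.Lib.MP_0e31aa_co.H
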