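import Pool.Agent.Lib.MP_0e31aa_co.H.LoeblDef
import Pool.Agent.Lib.MP_0e31aa_co.H.CoreEmb

/-!
Module Few (60 min): the Loebl property for trees with at most `(n + 9) / 5` non-leaves.

`n0 = |inner T|`, `5 n0 ≤ n + 9`, `R` on `2n - 1` vertices, `S = big R (n - 1)`, `s = |S| ≥ n`,
`Sᶜ` has `2n - 1 - s ≤ s - 1` elements. Suppose `T` does not embed.
If `n0 ≤ 1`: `T` is a star (`n0 = 1` as `n ≥ 3`), `leaf_ext` with `K = inner T`, its vertex placed in
`S`. Let `n0 ≥ 2`. Let `P` be the colour class with fewer leaves (`tree_bip` or `exists_class` give a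
class, take it or its complement): the number of leaves in `P` is at most `(n - n0)/2`. Let `q1` be the
number of inner vertices outside `P`, `q1 ≥ 1`, `p = |P| ≥ 1`: `p + q1 ≤ n0 + (n - n0)/2`.
(A) `coreEmb_two` with `K = inner T`, `X = Y = S`, `r = n0 - 2`: not embedding gives
    `∑_{x ∈ S} |nb R x S| ≤ 2 (n0 - 2) s`.
(B) `coreEmb_disj` with `X = S`, `Y = Sᶜ`, `a = p - 1`, `b = q1 - 1`: not embedding gives
    `∑_{x ∈ S} |nb R x Sᶜ| ≤ (q1 - 1) s + (p - 1) |Sᶜ| ≤ (p + q1 - 2) s`.
Sum: `s (n - 1) ≤ ∑_{x ∈ S} dg R x ≤ s (2 n0 - 4 + p + q1 - 2)`, so `n + 5 ≤ 2 n0 + p + q1`, twice: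
`2n + 10 ≤ 4 n0 + 2 n0 + n - n0 = 5 n0 + n`, i.e. `n + 10 ≤ 5 n0`. Contradiction.
-/

set_option autoImplicit false

namespace Pool.Agent.Lib.MP_0e31aa_co.H

open Finset
open Pool.Agent.Lib.MP_0e31aa_co.TC (nb mem_nb Emb HasCyc Bip)

variable {V W : Type}

private theorem few_inner [Fintype W] [DecidableEq W] (T : SimpleGraph W) (hT : T.IsTree)
    (hW : 3 ≤ Fintype.card W) : (inner T).Nonempty := by
  have hpos : 0 < Fintype.card W := by omega
  obtain ⟨w⟩ := Fintype.card_pos_iff.1 hpos
  by_cases hw : w ∈ inner T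
  · exact ⟨w, hw⟩
  · obtain ⟨p, hp, -, -⟩ := leaf_par T hT hW w hw
    exact ⟨p, hp⟩

private theorem few_class [Fintype W] [DecidableEq W] (T : SimpleGraph W) (hT : T.IsTree) :
    ∃ P : Finset W, Bip T P ∧
      2 * (P \ inner T).card + (inner T).card ≤ Fintype.card W := by
  obtain ⟨P, hP, -⟩ := Pool.Agent.Lib.MP_0e31aa_co.TC.tree_bip T hT
  have hQ : Bip T Pᶜ := by
    intro u v huv
    have := hP u v huv
    rw [mem_compl, mem_compl, not_not]
    tauto
  have h1 : (P \ inner T).card + (Pᶜ \ inner T).card = (inner T)ᶜ.card := by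
    rw [← card_union_of_disjoint]
    · congr 1
      ext x
      simp only [mem_union, mem_sdiff, mem_compl]
      tauto
    · rw [disjoint_left]
      intro x hx hx'
      rw [mem_sdiff] at hx hx'
      exact (mem_compl.1 hx'.1) hx.1
  have h2 : (inner T)ᶜ.card + (inner T).card = Fintype.card W := card_compl_add_card _
  by_cases h3 : 2 * (P \ inner T).card + (inner T).card ≤ Fintype.card W
  · exact ⟨P, hP, h3⟩
  · exact ⟨Pᶜ, hQ, by omega⟩

private theorem few_other [Fintype W] [DecidableEq W] (T : SimpleGraph W) (hT : T.IsTree)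
    (h2 : 2 ≤ (inner T).card) (P : Finset W) (hP : Bip T P) : (inner T \ P).Nonempty := by
  obtain ⟨a, ha, b, hb, hab⟩ := one_lt_card.1 h2
  by_cases haP : a ∈ P
  swap
  · exact ⟨a, mem_sdiff.2 ⟨ha, haP⟩⟩
  by_cases hbP : b ∈ P
  swap
  · exact ⟨b, mem_sdiff.2 ⟨hb, hbP⟩⟩
  obtain ⟨D, hc, -⟩ := Pool.Agent.Lib.MP_c5b475_co.exists_RT hT a
  have hbc : b ≠ D.c := by
    rw [hc]
    exact hab.symm
  have h3 := inner_closed T D (inner T) Subset.rfl (by rw [hc]; exact ha) b hbc
  have h4 := hP b (D.par b) (D.adj_par hbc)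
  exact ⟨D.par b, mem_sdiff.2 ⟨h3, h4.1 hbP⟩⟩

theorem loebl_few [Fintype W] [DecidableEq W] (T : SimpleGraph W) (hT : T.IsTree)
    (hW : 3 ≤ Fintype.card W) (h : 5 * (inner T).card ≤ Fintype.card W + 9) : Loebl T := by
  classical
  intro V _ R hV hbig
  by_contra hE
  set n := Fintype.card W with hn
  set S := big R (n - 1) with hS
  have hdeg : ∀ x ∈ S, n ≤ dg R x + 1 := by
    intro x hx
    have := mem_big.1 hx
    omega
  have hI := few_inner T hT hW
  have hI1 : 1 ≤ (inner T).card := card_pos.2 hI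
  have hn0 : 2 ≤ (inner T).card := by
    by_contra hlt
    have h1 : (inner T).card = 1 := by omega
    obtain ⟨c, hc⟩ := card_eq_one.1 h1
    have hSne : S.Nonempty := card_pos.1 (by omega)
    obtain ⟨s, hs⟩ := hSne
    apply hE
    refine leaf_ext T R (inner T) (fun _ => s) ?_ ?_ (fun _ => c) ?_ ?_
    · rw [hc]
      intro a ha b hb _
      simp only [coe_singleton, Set.mem_singleton_iff] at ha hb
      rw [ha, hb]
    · rw [hc]
      intro u hu v hv huv
      rw [mem_singleton] at hu hv
      rw [hu, hv] at huv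
      exact absurd huv (T.loopless.irrefl c)
    · intro w hw
      obtain ⟨p, hp, -, hp2⟩ := leaf_par T hT hW w hw
      rw [hc, mem_singleton] at hp
      rw [hp] at hp2
      refine ⟨?_, hp2⟩
      rw [hc]
      exact mem_singleton_self c
    · intro w _
      exact hdeg s hs
  obtain ⟨P, hP, hPl⟩ := few_class T hT
  have hq := few_other T hT hn0 P hP
  have hq1 : 1 ≤ (inner T \ P).card := card_pos.2 hq
  have hp1 : 1 ≤ P.card :=
    card_pos.2 (Pool.Agent.Lib.MP_0e31aa_co.TC.bip_nonempty T hT P hP (by omega))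
  have hcard : P.card + (inner T \ P).card = (inner T).card + (P \ inner T).card := by
    have e1 := card_union_of_disjoint (disjoint_sdiff (s := P) (t := inner T))
    have e2 := card_union_of_disjoint (disjoint_sdiff (s := inner T) (t := P))
    rw [union_sdiff_self_eq_union] at e1 e2
    rw [← e1, ← e2, union_comm]
  have hSc : S.card + Sᶜ.card = Fintype.card V := card_add_card_compl S
  have hA : ∑ x ∈ S, (nb R x S).card ≤ ((inner T).card - 2) * (S.card + S.card) := by
    by_contra hlt
    exact hE (coreEmb_two T hT hW P (inner T) hP Subset.rfl R S S ((inner T).card - 2)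
      (not_le.1 hlt) (by omega) hdeg (Or.inr hdeg))
  have hB : ∑ x ∈ S, (nb R x Sᶜ).card ≤
      ((inner T \ P).card - 1) * S.card + (P.card - 1) * Sᶜ.card := by
    by_contra hlt
    refine hE (coreEmb_disj T hT hW P (inner T ∪ P) hP subset_union_left R S Sᶜ
      disjoint_compl_right (P.card - 1) ((inner T \ P).card - 1) (not_le.1 hlt) ?_ ?_
      subset_union_right hdeg)
    · have e : (inner T ∪ P) ∩ P = P := inter_eq_right.2 subset_union_right
      rw [e]
      omega
    · have e : (inner T ∪ P) \ P = inner T \ P := by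
        ext x
        simp only [mem_sdiff, mem_union]
        tauto
      rw [e]
      omega
  have hsum : S.card * (n - 1) ≤ ∑ x ∈ S, (nb R x S).card + ∑ x ∈ S, (nb R x Sᶜ).card := by
    rw [← sum_add_distrib, ← smul_eq_mul, ← sum_const]
    refine sum_le_sum fun x hx => ?_
    have h1 := mem_big.1 hx
    have h2 : dg R x ≤ (nb R x S).card + (nb R x Sᶜ).card := by
      refine (card_le_card ?_).trans (card_union_le _ _)
      intro y hy
      rw [mem_nb] at hy
      rw [mem_union, mem_nb, mem_nb, mem_compl]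
      by_cases hyS : y ∈ S
      · exact Or.inl ⟨hyS, hy.2⟩
      · exact Or.inr ⟨hyS, hy.2⟩
    exact h1.trans h2
  have hScle : (P.card - 1) * Sᶜ.card ≤ (P.card - 1) * S.card :=
    Nat.mul_le_mul_left _ (by omega)
  have hfin : S.card * (n - 1) ≤ S.card *
      (2 * ((inner T).card - 2) + ((inner T \ P).card - 1) + (P.card - 1)) := by
    have e : S.card * (2 * ((inner T).card - 2) + ((inner T \ P).card - 1) + (P.card - 1)) =
        ((inner T).card - 2) * (S.card + S.card) + (((inner T \ P).card - 1) * S.card +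
          (P.card - 1) * S.card) := by ring
    rw [e]
    omega
  have hspos : 0 < S.card := by omega
  have := Nat.le_of_mul_le_mul_left hfin hspos
  omega

end Pool.Agent.Lib.MP_0e31aa_co.H
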