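import Pool.Agent.Lib.MP_0e31aa_co.H.Defs

/-!
Module LeafExt (50 min): adding the leaves.

`T` graph on `W`, `K` a set of vertices, every vertex outside `K` has exactly one neighbour, its
neighbour `par w` is in `K`. `g` embeds `T` restricted to `K`, and `g (par w)` has degree at least
`|W| - 1` in `R` for every `w` outside `K`. Then `T` embeds.

Proof. Extend one vertex at a time: for every `j ≤ |W \ K|` there are `K' ⊇ K` with
`|K'| = |K| + j` and `g'` with the same properties on `K'` (`g' = g` on `K`). Step: `w ∉ K'`,
`x = g' (par w)`: at most `|K'| - 1 ≤ |W| - 2` neighbours of `x` are used (`x` itself is used and is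
not a neighbour), so there is a free neighbour `y` of `x`; `Function.update g' w y`. Adjacency:
the only neighbour of `w` is `par w`; two vertices outside `K` are never adjacent.
-/

set_option autoImplicit false

namespace Pool.Agent.Lib.MP_0e31aa_co.H

open Finset
open Pool.Agent.Lib.MP_0e31aa_co.TC (nb mem_nb Emb HasCyc Bip)

variable {V W : Type}

private theorem leafExt_aux [Fintype V] [DecidableEq V] [Fintype W] [DecidableEq W]
    (T : SimpleGraph W) (R : SimpleGraph V) (K : Finset W) (g : W → V) (par : W → W)
    (hpar : ∀ w, w ∉ K → par w ∈ K ∧ ∀ v, T.Adj w v → v = par w)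
    (hdeg : ∀ w, w ∉ K → Fintype.card W ≤ dg R (g (par w)) + 1) (m : ℕ) :
    ∀ (K' : Finset W) (g' : W → V), K ⊆ K' → K'ᶜ.card = m → Set.InjOn g' (K' : Set W) →
      (∀ u ∈ K', ∀ v ∈ K', T.Adj u v → R.Adj (g' u) (g' v)) → (∀ w ∈ K, g' w = g w) →
      Emb T R := by
  induction m with
  | zero =>
    intro K' g' _ hc hi ha _
    have hK' : ∀ w, w ∈ K' := fun w => by
      by_contra hw
      have h1 : w ∈ K'ᶜ := mem_compl.2 hw
      rw [card_eq_zero.1 hc] at h1
      exact absurd h1 (notMem_empty w)
    exact ⟨g', fun a b hab => hi (mem_coe.2 (hK' a)) (mem_coe.2 (hK' b)) hab,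
      fun u v huv => ha u (hK' u) v (hK' v) huv⟩
  | succ m ih =>
    intro K' g' hKK hc hi ha hg
    obtain ⟨w, hw⟩ : K'ᶜ.Nonempty := card_pos.1 (by omega)
    have hwK' : w ∉ K' := mem_compl.1 hw
    have hwK : w ∉ K := fun h => hwK' (hKK h)
    obtain ⟨hp, huniq⟩ := hpar w hwK
    have hd := hdeg w hwK
    rw [← hg _ hp] at hd
    have hx : g' (par w) ∈ K'.image g' := mem_image_of_mem _ (hKK hp)
    have hlt : K'.card < Fintype.card W := by
      have := card_compl K'
      have h2 := card_le_univ K'
      omega
    have hex : ∃ y ∈ nb R (g' (par w)) univ, y ∉ (K'.image g').erase (g' (par w)) := by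
      by_contra hcon
      push Not at hcon
      have h1 : nb R (g' (par w)) univ ⊆ (K'.image g').erase (g' (par w)) := fun y hy => hcon y hy
      have h2 := card_le_card h1
      rw [card_erase_of_mem hx] at h2
      have h3 : (K'.image g').card ≤ K'.card := card_image_le
      have h4 : 0 < (K'.image g').card := card_pos.2 ⟨_, hx⟩
      have h5 : dg R (g' (par w)) = (nb R (g' (par w)) univ).card := rfl
      omega
    obtain ⟨y, hy, hyn⟩ := hex
    have hadj : R.Adj (g' (par w)) y := (mem_nb.1 hy).2
    have hyim : y ∉ K'.image g' := fun h => hyn (mem_erase.2 ⟨hadj.ne', h⟩)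
    have hyne : ∀ b ∈ K', g' b ≠ y := fun b hb h => hyim (h ▸ mem_image_of_mem _ hb)
    have hup : ∀ b ∈ K', Function.update g' w y b = g' b := fun b hb =>
      Function.update_of_ne (fun h : b = w => hwK' (h ▸ hb)) _ _
    have hself : Function.update g' w y w = y := Function.update_self _ _ _
    refine ih (insert w K') (Function.update g' w y) (hKK.trans (subset_insert _ _)) ?_ ?_ ?_ ?_
    · rw [card_compl, card_insert_of_notMem hwK']
      rw [card_compl] at hc
      omega
    · intro a hA b hB hab
      rw [mem_coe, mem_insert] at hA hB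
      rcases hA with rfl | hA
      · rcases hB with rfl | hB
        · rfl
        · rw [hself, hup b hB] at hab
          exact absurd hab.symm (hyne b hB)
      · rcases hB with rfl | hB
        · rw [hself, hup a hA] at hab
          exact absurd hab (hyne a hA)
        · rw [hup a hA, hup b hB] at hab
          exact hi (mem_coe.2 hA) (mem_coe.2 hB) hab
    · intro a hA b hB hab
      rw [mem_insert] at hA hB
      rcases hA with rfl | hA
      · rcases hB with rfl | hB
        · exact absurd hab (T.irrefl)
        · rw [hself, hup b hB, huniq b hab]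
          exact hadj.symm
      · rcases hB with rfl | hB
        · rw [hself, hup a hA, huniq a hab.symm]
          exact hadj
        · rw [hup a hA, hup b hB]
          exact ha a hA b hB hab
    · intro b hb
      rw [hup b (hKK hb), hg b hb]

theorem leaf_ext [Fintype V] [DecidableEq V] [Fintype W] [DecidableEq W] (T : SimpleGraph W)
    (R : SimpleGraph V) (K : Finset W) (g : W → V) (hinj : Set.InjOn g (K : Set W))
    (hadj : ∀ u ∈ K, ∀ v ∈ K, T.Adj u v → R.Adj (g u) (g v)) (par : W → W)
    (hpar : ∀ w, w ∉ K → par w ∈ K ∧ ∀ v, T.Adj w v → v = par w)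
    (hdeg : ∀ w, w ∉ K → Fintype.card W ≤ dg R (g (par w)) + 1) : Emb T R :=
  leafExt_aux T R K g par hpar hdeg _ K g Subset.rfl rfl hinj hadj fun _ _ => rfl

end Pool.Agent.Lib.MP_0e31aa_co.H
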