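import Pool.Agent.Lib.MP_0e31aa_co.H.ThmG

/-!
Module LoeblDef (30 min): the reduction to the Loebl property.

`Loebl T`: every graph on `2n - 1` vertices (`n = |W|`) with at least `n` vertices of degree at least
`n - 1` contains `T`.
reduction: `m` with `2m ≤ 3n + 1`, `3 ≤ m`, `3 ≤ n`, `Loebl T` : every `B` on `2n - 1` vertices
contains a cycle on `m` vertices, or `Bᶜ` contains `T`.
Proof. Let `T` not be in `Bᶜ`. `big Bᶜ (n-1)` has fewer than `n` elements by `Loebl`, so at least
`n` vertices have `dg Bᶜ v ≤ n - 2`, i.e. `dg B v ≥ n` (`dg_compl`). `tree_bip` (TC/Classes.lean)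
gives `P` with `2 |P| ≤ n`, and `m + |P| ≤ 2n` because `2m + 2|P| ≤ 3n + 1 + n`. `thmG`.
-/

set_option autoImplicit false

namespace Pool.Agent.Lib.MP_0e31aa_co.H

open Finset
open Pool.Agent.Lib.MP_0e31aa_co
open Pool.Agent.Lib.MP_0e31aa_co.TC (nb mem_nb Emb HasCyc Bip)

variable {V W : Type}

/-- The case `|V| = 2 |W| - 1` of the Loebl conjecture for the tree `T`. -/
def Loebl [Fintype W] (T : SimpleGraph W) : Prop :=
  ∀ (V : Type) [Fintype V] (R : SimpleGraph V), Fintype.card V + 1 = 2 * Fintype.card W →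
    Fintype.card W ≤ (big R (Fintype.card W - 1)).card → Emb T R

theorem reduction [Fintype V] [DecidableEq V] [Fintype W] [DecidableEq W] (n m : ℕ) (hn : 3 ≤ n)
    (hm : 3 ≤ m) (hmn : 2 * m ≤ 3 * n + 1) (hV : Fintype.card V + 1 = 2 * n)
    (hW : Fintype.card W = n) (T : SimpleGraph W) (hT : T.IsTree) (hLo : Loebl T)
    (B : SimpleGraph V) : HasCyc B m ∨ Emb T Bᶜ := by
  by_cases hE : Emb T Bᶜ
  · exact Or.inr hE
  left
  obtain ⟨P, hP, hP2⟩ := TC.tree_bip T hT
  have h1 : ¬ n ≤ (big Bᶜ (n - 1)).card := by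
    intro h
    refine hE (hLo V Bᶜ (by rw [hW]; exact hV) ?_)
    rw [hW]
    exact h
  have h2 : univ \ big Bᶜ (n - 1) ⊆ big B n := by
    intro v hv
    have h3 := (mem_sdiff.1 hv).2
    rw [mem_big, not_le] at h3
    rw [mem_big]
    have h4 := dg_compl B v
    omega
  have h3 : n ≤ (big B n).card := by
    refine le_trans ?_ (card_le_card h2)
    have h4 := card_sdiff_add_card_eq_card (subset_univ (big Bᶜ (n - 1)))
    rw [card_univ] at h4
    omega
  rw [hW] at hP2
  exact thmG n hn hV hW T hT P hP hP2 B h3 hE m hm (by omega)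

end Pool.Agent.Lib.MP_0e31aa_co.H
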