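import Pool.Agent.Lib.MP_0e31aa_co.H.PathClose

/-!
Module LongL (90 min): all vertices of degree at least `n` on one longest cycle.

`|V| = 2n - 1`, `c ≥ 3` the maximum length of a cycle, `2c ≥ 3n - 5`. Among all cycles of length `c`
take one, `f`, with the maximum number of vertices of `L = big G n` on it. Suppose `l ∈ L` is not on
it.
 (a) `l` has at least `n - (2n - 2 - c) = c - n + 2` neighbours on the cycle.
 (b) if `l ~ f i` and `u = f (i+1)` (index mod `c`), then `u ∉ L`: the path
     `u = f (i+1), f (i+2), ..., f i, l` has `c + 1` vertices; if `d(u) + d(l) ≥ 2n - 1 = |V|`,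
     `path_close` gives a cycle on `c + 1` or `c + 2` vertices, contradiction.
 (c) `l` is not adjacent to both `f i` and `f (i+1)` (insert `l`: cycle on `c + 1` vertices) and not to
     both `f i` and `f (i+2)`: replace `f (i+1)` (not in `L` by (b)) by `l`: a cycle of length `c` with
     more vertices of `L`.
 So the index sets `A`, `A + 1`, `A + 2` (mod `c`), `A = {i < c | l ~ f i}`, are pairwise disjoint:
 `3 |A| ≤ c`, and `c - n + 2 ≤ |A|` gives `2c ≤ 3n - 6`. Contradiction.
 (`c ≥ 3`, and `c ≥ 4` if `A` is non-empty; use `FCyc.rot` to move the index `i` to a convenient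
 place, for instance such that the pair is `f (c-1), f 0` or the triple is `f (c-1), f 0, f 1`.)
-/

set_option autoImplicit false

namespace Pool.Agent.Lib.MP_0e31aa_co.H

open Finset
open Pool.Agent.Lib.MP_0e31aa_co.TC (nb mem_nb Emb HasCyc Bip)

variable {V : Type}

/-- The path `g 0, ..., g (c - 1), l`. -/
theorem longL_path {G : SimpleGraph V} {c : ℕ} {g : ℕ → V} {l : V} (hc : 1 ≤ c)
    (hg : FPath G c g) (hl : ∀ i < c, g i ≠ l) (ha : G.Adj l (g (c - 1))) :
    FPath G (c + 1) (fun j => if j < c then g j else l) := by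
  constructor
  · intro i hi j hj hij
    by_cases h1 : i < c
    · by_cases h2 : j < c
      · simp only [h1, h2, if_true] at hij
        exact hg.inj i h1 j h2 hij
      · simp only [h1, h2, if_true, if_false] at hij
        exact absurd hij (hl i h1)
    · by_cases h2 : j < c
      · simp only [h1, h2, if_true, if_false] at hij
        exact absurd hij.symm (hl j h2)
      · omega
  · intro i hi
    by_cases h2 : i + 1 < c
    · have h1 : i < c := by omega
      simp only [h1, h2, if_true]
      exact hg.adj i h2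
    · have h1 : i < c := by omega
      have h3 : i = c - 1 := by omega
      simp only [h1, h2, if_true, if_false]
      rw [h3]
      exact ha.symm

/-- Rotation with a name for the places. -/
theorem longL_rot {G : SimpleGraph V} {c : ℕ} {f : ℕ → V} (hc : 3 ≤ c) (h : FCyc G c f) (k : ℕ)
    (hk : k < c) : ∃ g : ℕ → V, FCyc G c g ∧ g (c - 1) = f k ∧ g 0 = f ((k + 1) % c) ∧
      g 1 = f ((k + 2) % c) ∧ (∀ i < c, ∃ j < c, g i = f j) ∧ (∀ j < c, ∃ i < c, g i = f j) := by
  refine ⟨fun i => f ((i + (k + 1)) % c), FCyc.rot (by omega) h (k + 1), ?_, ?_, ?_, ?_, ?_⟩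
  · show f ((c - 1 + (k + 1)) % c) = f k
    have h1 : c - 1 + (k + 1) = k + c := by omega
    rw [h1, Nat.add_mod_right, Nat.mod_eq_of_lt hk]
  · show f ((0 + (k + 1)) % c) = f ((k + 1) % c)
    rw [Nat.zero_add]
  · show f ((1 + (k + 1)) % c) = f ((k + 2) % c)
    rw [show 1 + (k + 1) = k + 2 by omega]
  · intro i hi
    exact ⟨(i + (k + 1)) % c, Nat.mod_lt _ (by omega), rfl⟩
  · intro j hj
    by_cases hjk : k + 1 ≤ j
    · refine ⟨j - (k + 1), by omega, ?_⟩
      show f ((j - (k + 1) + (k + 1)) % c) = f j
      rw [Nat.sub_add_cancel hjk, Nat.mod_eq_of_lt hj]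
    · refine ⟨j + c - (k + 1), by omega, ?_⟩
      show f ((j + c - (k + 1) + (k + 1)) % c) = f j
      rw [Nat.sub_add_cancel (by omega), Nat.add_mod_right, Nat.mod_eq_of_lt hj]

/-- (b) The successor of a neighbour of `l` is not in `L`. -/
theorem longL_succ [Fintype V] {G : SimpleGraph V} {n c : ℕ} (hV : Fintype.card V + 1 = 2 * n)
    (hc : 3 ≤ c) (hmax : NoLong G (c + 1)) {f : ℕ → V} (hf : FCyc G c f) {l : V}
    (hlL : n ≤ dg G l) (hl : ∀ i < c, f i ≠ l) {i : ℕ} (hi : i < c) (ha : G.Adj l (f i)) :
    f ((i + 1) % c) ∉ big G n := by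
  intro hu
  rw [mem_big] at hu
  obtain ⟨g, hg, h1, h2, h3, h4, h5⟩ := longL_rot hc hf i hi
  have hgl : ∀ j < c, g j ≠ l := by
    intro j hj
    obtain ⟨j', hj', he⟩ := h4 j hj
    rw [he]; exact hl j' hj'
  have hp := longL_path (by omega : 1 ≤ c) hg.toFPath hgl (by rw [h1]; exact ha)
  have hd := path_close G (c + 1) (by omega) _ hp (by
    have h0 : (if (0 : ℕ) < c then g 0 else l) = g 0 := if_pos (by omega)
    have h6 : (if c + 1 - 1 < c then g (c + 1 - 1) else l) = l := if_neg (by omega)
    show Fintype.card V ≤ dg G (if (0 : ℕ) < c then g 0 else l) +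
      dg G (if c + 1 - 1 < c then g (c + 1 - 1) else l)
    rw [h0, h6, h2]
    omega)
  rcases hd with hd | hd
  · exact hmax (c + 1) le_rfl hd
  · exact hmax (c + 1 + 1) (by omega) hd

/-- (c) `l` is not adjacent to two consecutive vertices. -/
theorem longL_consec {G : SimpleGraph V} {c : ℕ}
    (hc : 3 ≤ c) (hmax : NoLong G (c + 1)) {f : ℕ → V} (hf : FCyc G c f) {l : V}
    (hl : ∀ i < c, f i ≠ l) {i : ℕ} (hi : i < c) (ha : G.Adj l (f i)) :
    ¬ G.Adj l (f ((i + 1) % c)) := by
  intro hu
  obtain ⟨g, hg, h1, h2, h3, h4, h5⟩ := longL_rot hc hf i hi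
  have hgl : ∀ j < c, g j ≠ l := by
    intro j hj
    obtain ⟨j', hj', he⟩ := h4 j hj
    rw [he]; exact hl j' hj'
  have hp := longL_path (by omega : 1 ≤ c) hg.toFPath hgl (by rw [h1]; exact ha)
  have hcyc : FCyc G (c + 1) (fun j => if j < c then g j else l) := by
    refine ⟨hp, ?_⟩
    have h0 : (if (0 : ℕ) < c then g 0 else l) = g 0 := if_pos (by omega)
    have h6 : (if c + 1 - 1 < c then g (c + 1 - 1) else l) = l := if_neg (by omega)
    show G.Adj (if c + 1 - 1 < c then g (c + 1 - 1) else l) (if (0 : ℕ) < c then g 0 else l)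
    rw [h0, h6, h2]
    exact hu
  exact hmax (c + 1) le_rfl (hasCyc_of_fcyc (by omega) hcyc)

/-- The number of vertices of `big G n` on the cycle `f`. -/
noncomputable def longL_num [Fintype V] [DecidableEq V] (G : SimpleGraph V) (n c : ℕ)
    (f : ℕ → V) : ℕ :=
  (big G n ∩ (range c).image f).card

/-- (c) `l` is not adjacent to two vertices at distance two, if `f` is the best cycle. -/
theorem longL_two [Fintype V] [DecidableEq V] {G : SimpleGraph V} {n c : ℕ}
    (hV : Fintype.card V + 1 = 2 * n)
    (hc : 3 ≤ c) (hmax : NoLong G (c + 1)) {f : ℕ → V} (hf : FCyc G c f)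
    (hbest : ∀ g : ℕ → V, FCyc G c g → longL_num G n c g ≤ longL_num G n c f) {l : V}
    (hlL : n ≤ dg G l) (hl : ∀ i < c, f i ≠ l) {i : ℕ} (hi : i < c) (ha : G.Adj l (f i)) :
    ¬ G.Adj l (f ((i + 2) % c)) := by
  intro hu
  obtain ⟨g, hg, h1, h2, h3, h4, h5⟩ := longL_rot hc hf i hi
  have hgl : ∀ j < c, g j ≠ l := by
    intro j hj
    obtain ⟨j', hj', he⟩ := h4 j hj
    rw [he]; exact hl j' hj'
  have hsucc := longL_succ hV hc hmax hf hlL hl hi ha
  have hcyc : FCyc G c (fun j => if j = 0 then l else g j) := by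
    refine ⟨⟨?_, ?_⟩, ?_⟩
    · intro a ha' b hb' hab
      by_cases h6 : a = 0
      · by_cases h7 : b = 0
        · omega
        · simp only [h6, h7, if_true, if_false] at hab
          exact absurd hab.symm (hgl b hb')
      · by_cases h7 : b = 0
        · simp only [h6, h7, if_true, if_false] at hab
          exact absurd hab (hgl a ha')
        · simp only [h6, h7, if_false] at hab
          exact hg.inj a ha' b hb' hab
    · intro a ha'
      by_cases h6 : a = 0
      · subst h6
        have h8 : (if 0 + 1 = 0 then l else g (0 + 1)) = g 1 := if_neg (by omega)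
        show G.Adj (if 0 = 0 then l else g 0) (if 0 + 1 = 0 then l else g (0 + 1))
        rw [if_pos rfl, h8, h3]
        exact hu
      · have h7 : a + 1 ≠ 0 := by omega
        simp only [h6, h7, if_false]
        exact hg.adj a ha'
    · have h7 : c - 1 ≠ 0 := by omega
      show G.Adj (if c - 1 = 0 then l else g (c - 1)) (if 0 = 0 then l else g 0)
      rw [if_neg h7, if_pos rfl, h1]
      exact ha.symm
  have hle := hbest _ hcyc
  have hlt : longL_num G n c f < longL_num G n c (fun j => if j = 0 then l else g j) := by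
    apply card_lt_card
    rw [ssubset_iff_of_subset]
    · refine ⟨l, ?_, ?_⟩
      · rw [mem_inter, mem_image]
        exact ⟨mem_big.2 hlL, 0, mem_range.2 (by omega), if_pos rfl⟩
      · rw [mem_inter, mem_image]
        rintro ⟨_, j, hj, hjl⟩
        exact hl j (mem_range.1 hj) hjl
    · intro v hv
      rw [mem_inter, mem_image] at hv
      obtain ⟨hvL, j, hj, hjv⟩ := hv
      obtain ⟨k, hk, hkj⟩ := h5 j (mem_range.1 hj)
      rw [mem_inter, mem_image]
      refine ⟨hvL, k, mem_range.2 hk, ?_⟩
      have hk0 : k ≠ 0 := by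
        rintro rfl
        apply hsucc
        rw [← h2, hkj, hjv]
        exact hvL
      show (if k = 0 then l else g k) = v
      rw [if_neg hk0, hkj, hjv]
  omega

theorem longL_shift {c a b k : ℕ} (ha : a < c) (hb : b < c) (h : (a + k) % c = (b + k) % c) :
    a = b := by
  have h1 : a ≡ b [MOD c] := Nat.ModEq.add_right_cancel' k h
  have h2 : a % c = b % c := h1
  rwa [Nat.mod_eq_of_lt ha, Nat.mod_eq_of_lt hb] at h2

theorem longL [Fintype V] [DecidableEq V] (G : SimpleGraph V) (n c : ℕ)
    (hV : Fintype.card V + 1 = 2 * n) (hc : 3 ≤ c) (h : HasCyc G c) (hmax : NoLong G (c + 1))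
    (hcn : 3 * n ≤ 2 * c + 5) :
    ∃ f : ℕ → V, FCyc G c f ∧ ∀ v ∈ big G n, ∃ i < c, f i = v := by
  classical
  -- the best cycle
  have hex : ∃ k : ℕ, ∃ f : ℕ → V, FCyc G c f ∧ longL_num G n c f + k = Fintype.card V := by
    obtain ⟨f, hf⟩ := fcyc_of_hasCyc (by omega) h
    have h1 : longL_num G n c f ≤ Fintype.card V := card_le_univ _
    exact ⟨Fintype.card V - longL_num G n c f, f, hf, by omega⟩
  obtain ⟨f, hf, hk⟩ := Nat.find_spec hex
  have hbest : ∀ g : ℕ → V, FCyc G c g → longL_num G n c g ≤ longL_num G n c f := by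
    intro g hg
    have h1 : longL_num G n c g ≤ Fintype.card V := card_le_univ _
    have h2 := Nat.find_min' hex ⟨g, hg, (by omega :
      longL_num G n c g + (Fintype.card V - longL_num G n c g) = Fintype.card V)⟩
    omega
  refine ⟨f, hf, ?_⟩
  intro l hlL
  by_contra hno
  have hl : ∀ i < c, f i ≠ l := fun i hi he => hno ⟨i, hi, he⟩
  rw [mem_big] at hlL
  set A : Finset ℕ := (range c).filter (fun i => G.Adj l (f i)) with hA
  have memA : ∀ i, i ∈ A ↔ i < c ∧ G.Adj l (f i) := by
    intro i; rw [hA, mem_filter, mem_range]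
  -- (a)
  have hcardim : ((range c).image f).card = c := by
    rw [card_image_of_injOn, card_range]
    intro i hi j hj hij
    exact hf.inj i (mem_range.1 hi) j (mem_range.1 hj) hij
  have hcount : n + c + 1 ≤ A.card + Fintype.card V := by
    have hsub : nb G l univ ⊆ A.image f ∪ (univ \ (insert l ((range c).image f))) := by
      intro v hv
      rw [mem_nb] at hv
      rw [mem_union]
      by_cases h1 : v ∈ (range c).image f
      · left
        rw [mem_image] at h1 ⊢
        obtain ⟨i, hi, hiv⟩ := h1
        exact ⟨i, (memA i).2 ⟨mem_range.1 hi, by rw [hiv]; exact hv.2⟩, hiv⟩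
      · right
        rw [mem_sdiff, mem_insert]
        refine ⟨mem_univ _, ?_⟩
        rintro (h2 | h2)
        · rw [h2] at hv
          exact G.loopless.irrefl _ hv.2
        · exact h1 h2
    have h1 := card_le_card hsub
    have h2 := card_union_le (A.image f) (univ \ (insert l ((range c).image f)))
    have h3 : (A.image f).card ≤ A.card := card_image_le
    have hlnot : l ∉ (range c).image f := by
      rw [mem_image]
      rintro ⟨i, hi, hiv⟩
      exact hl i (mem_range.1 hi) hiv
    have h4 : (insert l ((range c).image f)).card = c + 1 := by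
      rw [card_insert_of_notMem hlnot, hcardim]
    have h5 : (univ \ (insert l ((range c).image f))).card = Fintype.card V - (c + 1) := by
      rw [card_univ_sdiff, h4]
    have h6 : c + 1 ≤ Fintype.card V := by
      rw [← h4]; exact card_le_univ _
    have h7 : n ≤ (nb G l univ).card := hlL
    omega
  -- disjointness
  have hinj1 : (A.image (fun i => (i + 1) % c)).card = A.card := by
    apply card_image_of_injOn
    intro a ha b hb hab
    exact longL_shift ((memA a).1 ha).1 ((memA b).1 hb).1 hab
  have hinj2 : (A.image (fun i => (i + 2) % c)).card = A.card := by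
    apply card_image_of_injOn
    intro a ha b hb hab
    exact longL_shift ((memA a).1 ha).1 ((memA b).1 hb).1 hab
  have hd01 : Disjoint A (A.image (fun i => (i + 1) % c)) := by
    rw [disjoint_left]
    intro a ha hb
    rw [mem_image] at hb
    obtain ⟨b, hb, hab⟩ := hb
    have := longL_consec hc hmax hf hl ((memA b).1 hb).1 ((memA b).1 hb).2
    rw [hab] at this
    exact this ((memA a).1 ha).2
  have hd02 : Disjoint A (A.image (fun i => (i + 2) % c)) := by
    rw [disjoint_left]
    intro a ha hb
    rw [mem_image] at hb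
    obtain ⟨b, hb, hab⟩ := hb
    have := longL_two hV hc hmax hf hbest hlL hl ((memA b).1 hb).1 ((memA b).1 hb).2
    rw [hab] at this
    exact this ((memA a).1 ha).2
  have hd12 : Disjoint (A.image (fun i => (i + 1) % c)) (A.image (fun i => (i + 2) % c)) := by
    rw [disjoint_left]
    intro x hx hy
    rw [mem_image] at hx hy
    obtain ⟨a, ha, hax⟩ := hx
    obtain ⟨b, hb, hbx⟩ := hy
    have hA1 := (memA a).1 ha
    have hB1 := (memA b).1 hb
    have h1 : (a + 1) % c = ((b + 1) % c + 1) % c := by
      rw [hax, ← hbx, Nat.mod_add_mod]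
    have h2 : a = (b + 1) % c := longL_shift hA1.1 (Nat.mod_lt _ (by omega)) h1
    have := longL_consec hc hmax hf hl hB1.1 hB1.2
    rw [← h2] at this
    exact this hA1.2
  have hsub : A ∪ (A.image (fun i => (i + 1) % c)) ∪ (A.image (fun i => (i + 2) % c)) ⊆ range c := by
    intro x hx
    rw [mem_union, mem_union, mem_image, mem_image] at hx
    rw [mem_range]
    rcases hx with (hx | ⟨a, _, hx⟩) | ⟨a, _, hx⟩
    · exact ((memA x).1 hx).1
    · rw [← hx]; exact Nat.mod_lt _ (by omega)
    · rw [← hx]; exact Nat.mod_lt _ (by omega)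
  have hcard := card_le_card hsub
  rw [card_union_of_disjoint (disjoint_union_left.2 ⟨hd02, hd12⟩), card_union_of_disjoint hd01,
    hinj1, hinj2, card_range] at hcard
  omega

end Pool.Agent.Lib.MP_0e31aa_co.H
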