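import Pool.Agent.Lib.MP_0e31aa_co.H.LoeblDef
import Pool.Agent.Lib.MP_0e31aa_co.H.CoreEmb

/-!
Module Side (40 min): the Loebl property for trees with many leaves in one class.

`P` one colour class, `K = P ∪ inner T`, `τ = |K|`, `3 τ ≤ n + 5` (the other class has at least
`(2n - 5)/3` leaves). `S = big R (n - 1)`, `s = |S| ≥ n`. `coreEmb_two` with `X = S`, `Y = univ`,
`r = τ - 2` (if `τ ≤ 1` then `n ≤ 2`... `τ ≥ 2` or `T` is a star with centre in `P`, `τ = 1`: take `r = 0`
and the bound is trivially satisfied since the sum is positive): enough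
`r (s + 2n - 1) < s (n - 1) ≤ ∑_{x ∈ S} dg R x`. As `s ≥ n` it is enough at `s = n`:
`(τ - 2)(3n - 1) < n (n - 1)`, and `3 (τ - 2) ≤ n - 1` gives
`3 (τ - 2)(3n - 1) ≤ (n - 1)(3n - 1) < 3 n (n - 1)`. (For general `s`: `s (n - 1 - r) > r (2n - 1)`
with `n - 1 - r ≥ 0`.)
-/

set_option autoImplicit false

namespace Pool.Agent.Lib.MP_0e31aa_co.H

open Finset
open Pool.Agent.Lib.MP_0e31aa_co.TC (nb mem_nb Emb HasCyc Bip)

variable {V W : Type}

theorem loebl_side [Fintype W] [DecidableEq W] (T : SimpleGraph W) (hT : T.IsTree)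
    (hW : 3 ≤ Fintype.card W) (P : Finset W) (hP : Bip T P)
    (h : 3 * (P ∪ inner T).card ≤ Fintype.card W + 5) : Loebl T := by
  classical
  intro V _ R hV hS
  set n := Fintype.card W with hn
  set S := big R (n - 1) with hSdef
  set r := (P ∪ inner T).card - 2 with hr
  have hsum : S.card * (n - 1) ≤ ∑ x ∈ S, (nb R x univ).card := by
    have := Finset.card_nsmul_le_sum S (fun x => (nb R x univ).card) (n - 1) (fun x hx =>
      (mem_big.1 hx : n - 1 ≤ dg R x))
    simpa [smul_eq_mul] using this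
  have hlt : r * (S.card + (univ : Finset V).card) < ∑ x ∈ S, (nb R x univ).card := by
    refine lt_of_lt_of_le ?_ hsum
    rw [card_univ]
    obtain ⟨m, hm⟩ : ∃ m, n = m + 1 := ⟨n - 1, by omega⟩
    have hr3 : 3 * r ≤ m := by omega
    have hc : Fintype.card V = 2 * m + 1 := by omega
    have hs : m + 1 ≤ S.card := by omega
    have hn1 : n - 1 = m := by omega
    rw [hc, hn1]
    have hm0 : 0 < m := by omega
    have h1 : 3 * r * (S.card + (2 * m + 1)) ≤ m * (S.card + (2 * m + 1)) :=
      Nat.mul_le_mul_right _ hr3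
    have h2 : m * (S.card + (2 * m + 1)) < m * (3 * S.card) :=
      Nat.mul_lt_mul_of_pos_left (by omega) hm0
    have h3 : 3 * r * (S.card + (2 * m + 1)) = 3 * (r * (S.card + (2 * m + 1))) := by ring
    have h4 : m * (3 * S.card) = 3 * (S.card * m) := by ring
    omega
  refine coreEmb_two T hT hW P (P ∪ inner T) hP subset_union_right R S univ r hlt (by omega) ?_
    (Or.inl subset_union_left)
  intro x hx
  have : n - 1 ≤ dg R x := mem_big.1 hx
  omega

end Pool.Agent.Lib.MP_0e31aa_co.H
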