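import Pool.Agent.Lib.MP_0e31aa_co.H.Rad2
import Pool.Agent.Lib.MP_0e31aa_co.H.Center
import Pool.Agent.Lib.MP_0e31aa_co.H.Few
import Pool.Agent.Lib.MP_0e31aa_co.H.Side

/-!
Module Main: assembly (proved over the other modules).
-/

set_option autoImplicit false

namespace Pool.Agent.Lib.MP_0e31aa_co.H

open Finset
open Pool.Agent.Lib.MP_0e31aa_co.TC (nb mem_nb Emb HasCyc Bip)

theorem main_fam (m n : ℕ) (hm : 5 ≤ m) (hmn : 2 * m ≤ 3 * n + 1) (T : SimpleGraph (Fin n))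
    (hT : T.IsTree)
    (h : (∀ u v, T.dist u v ≤ 4) ∨ 5 * (inner T).card ≤ n + 9 ∨
      ∃ P : Finset (Fin n), Bip T P ∧ 3 * (P ∪ inner T).card ≤ n + 5)
    (B : SimpleGraph (Fin (2 * n - 1))) : HasCyc B m ∨ Emb T Bᶜ := by
  have hn : 3 ≤ n := by omega
  have hW : Fintype.card (Fin n) = n := Fintype.card_fin n
  have hV : Fintype.card (Fin (2 * n - 1)) + 1 = 2 * n := by rw [Fintype.card_fin]; omega
  refine reduction n m hn (by omega) hmn hV hW T hT ?_ B
  rcases h with h | h | ⟨P, hP, h⟩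
  · obtain ⟨z, hz⟩ := center T hT h
    exact loebl_rad2 T hT (by rw [hW]; exact hn) z hz
  · exact loebl_few T hT (by rw [hW]; exact hn) (by rw [hW]; exact h)
  · exact loebl_side T hT (by rw [hW]; exact hn) P hP (by rw [hW]; exact h)

end Pool.Agent.Lib.MP_0e31aa_co.H
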