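import Pool.Agent.Lib.MP_0e31aa_co.H.FC

/-!
Module PathClose (50 min): closing a path (Ore, Bondy-Chvatal).

`f 0, ..., f (c-1)` path, ends not adjacent, `|V| ≤ d(f 0) + d(f (c-1))`: then there is a cycle on
`c` or on `c + 1` vertices.
Proof. (a) If some `w` not on the path is adjacent to `f 0` and to `f (c-1)`, then
`f 0, ..., f (c-1), w` is a cycle on `c + 1` vertices (take `g i = if i < c then f i else w`).
(b) Otherwise the sets of neighbours outside the path are disjoint, so together they have at most
`|V| - c` elements, and the numbers `a`, `b` of `i < c` with `f 0 ~ f i`, resp. `f (c-1) ~ f i`,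
satisfy `a + b ≥ c`. The sets `{i | i + 1 < c, f 0 ~ f (i+1)}` (size `a`, since `f 0` is not its own
neighbour) and `{i | i + 1 < c, f (c-1) ~ f i}` (size `b`) are subsets of `range (c-1)`, so they
meet: `f 0 ~ f (i+1)` and `f (c-1) ~ f i`. Then
`f 0, ..., f i, f (c-1), f (c-2), ..., f (i+1)` is a cycle on `c` vertices
(`g j = if j ≤ i then f j else f (c + i - j)`).
(This works also when the ends are adjacent, then it is trivial.)
-/

set_option autoImplicit false

namespace Pool.Agent.Lib.MP_0e31aa_co.H

open Finset
open Pool.Agent.Lib.MP_0e31aa_co.TC (nb mem_nb Emb HasCyc Bip)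

variable {V : Type}

theorem path_close [Fintype V] (G : SimpleGraph V) (c : ℕ) (hc : 3 ≤ c) (f : ℕ → V)
    (hf : FPath G c f) (hd : Fintype.card V ≤ dg G (f 0) + dg G (f (c - 1))) :
    HasCyc G c ∨ HasCyc G (c + 1) := by
  classical
  by_cases hw : ∃ w, (∀ i < c, f i ≠ w) ∧ G.Adj (f 0) w ∧ G.Adj (f (c - 1)) w
  · obtain ⟨w, hw1, hw2, hw3⟩ := hw
    right
    refine hasCyc_of_fcyc (by omega) (f := fun i => if i < c then f i else w) ⟨⟨?_, ?_⟩, ?_⟩
    · intro i hi j hj hij
      split_ifs at hij with h1 h2 h2
      · exact hf.inj i h1 j h2 hij
      · exact absurd hij (hw1 i h1)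
      · exact absurd hij.symm (hw1 j h2)
      · omega
    · intro i hi
      rw [if_pos (by omega : i < c)]
      split_ifs with h2
      · exact hf.adj i h2
      · have : i = c - 1 := by omega
        rw [this]
        exact hw3
    · rw [if_neg (by omega), if_pos (by omega)]
      exact hw2.symm
  · left
    push Not at hw
    set P : Finset V := (range c).image f with hP
    have hPc : P.card = c := by
      rw [hP, card_image_of_injOn, card_range]
      intro i hi j hj hij
      rw [coe_range] at hi hj
      exact hf.inj i hi j hj hij
    have hPmem : ∀ v, v ∉ P → ∀ i < c, f i ≠ v := by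
      intro v hv i hi h
      exact hv (mem_image.mpr ⟨i, mem_range.mpr hi, h⟩)
    set I : Finset ℕ := (range (c - 1)).filter fun i => G.Adj (f 0) (f (i + 1)) with hI
    set J : Finset ℕ := (range (c - 1)).filter fun i => G.Adj (f (c - 1)) (f i) with hJ
    have hIc : (nb G (f 0) P).card ≤ I.card := by
      have h1 : nb G (f 0) P ⊆ I.image fun i => f (i + 1) := by
        intro v hv
        rw [mem_nb, hP, mem_image] at hv
        obtain ⟨⟨i, hi, rfl⟩, h2⟩ := hv
        rw [mem_range] at hi
        have hi0 : i ≠ 0 := by
          rintro rfl
          exact h2.ne rfl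
        rw [mem_image]
        refine ⟨i - 1, ?_, ?_⟩
        · rw [hI, mem_filter, mem_range]
          refine ⟨by omega, ?_⟩
          rw [Nat.sub_add_cancel (by omega)]
          exact h2
        · show f (i - 1 + 1) = f i
          rw [Nat.sub_add_cancel (by omega)]
      exact (card_le_card h1).trans card_image_le
    have hJc : (nb G (f (c - 1)) P).card ≤ J.card := by
      have h1 : nb G (f (c - 1)) P ⊆ J.image f := by
        intro v hv
        rw [mem_nb, hP, mem_image] at hv
        obtain ⟨⟨i, hi, rfl⟩, h2⟩ := hv
        rw [mem_range] at hi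
        have hi0 : i ≠ c - 1 := by
          rintro rfl
          exact h2.ne rfl
        rw [mem_image]
        refine ⟨i, ?_, rfl⟩
        rw [hJ, mem_filter, mem_range]
        exact ⟨by omega, h2⟩
      exact (card_le_card h1).trans card_image_le
    have hout : (nb G (f 0) (univ \ P)).card + (nb G (f (c - 1)) (univ \ P)).card ≤
        Fintype.card V - c := by
      rw [← card_union_of_disjoint, ← hPc, ← card_univ, ← card_sdiff_of_subset (subset_univ P)]
      · refine card_le_card ?_
        intro v hv
        rw [mem_union, mem_nb, mem_nb] at hv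
        rcases hv with h | h
        · exact h.1
        · exact h.1
      · rw [disjoint_left]
        intro v h1 h2
        rw [mem_nb, mem_sdiff] at h1 h2
        exact hw v (hPmem v h1.1.2) h1.2 h2.2
    have hsplit : ∀ x, dg G x ≤ (nb G x P).card + (nb G x (univ \ P)).card := by
      intro x
      unfold dg
      have h1 : nb G x univ ⊆ nb G x P ∪ nb G x (univ \ P) := by
        intro v hv
        rw [mem_nb] at hv
        rw [mem_union, mem_nb, mem_nb, mem_sdiff]
        by_cases h : v ∈ P
        · exact Or.inl ⟨h, hv.2⟩
        · exact Or.inr ⟨⟨mem_univ _, h⟩, hv.2⟩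
      exact (card_le_card h1).trans (card_union_le _ _)
    have hPle : c ≤ Fintype.card V := by
      rw [← hPc]
      exact card_le_univ P
    have hsum : c ≤ I.card + J.card := by
      have h1 := hsplit (f 0)
      have h2 := hsplit (f (c - 1))
      omega
    have hne : (I ∩ J).Nonempty := by
      rw [nonempty_iff_ne_empty]
      intro h0
      have h1 := card_union_add_card_inter I J
      rw [h0, card_empty, add_zero] at h1
      have h2 : (I ∪ J).card ≤ (range (c - 1)).card := by
        refine card_le_card (union_subset (filter_subset _ _) (filter_subset _ _))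
      rw [card_range] at h2
      omega
    obtain ⟨i, hi⟩ := hne
    rw [mem_inter, hI, hJ, mem_filter, mem_filter, mem_range] at hi
    obtain ⟨⟨hic, hi1⟩, -, hi2⟩ := hi
    refine hasCyc_of_fcyc (by omega) (f := fun j => if j ≤ i then f j else f (c + i - j))
      ⟨⟨?_, ?_⟩, ?_⟩
    · intro j hj k hk hjk
      split_ifs at hjk with h1 h2 h2
      · exact hf.inj j (by omega) k (by omega) hjk
      · have := hf.inj j (by omega) (c + i - k) (by omega) hjk
        omega
      · have := hf.inj (c + i - j) (by omega) k (by omega) hjk
        omega
      · have := hf.inj (c + i - j) (by omega) (c + i - k) (by omega) hjk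
        omega
    · intro j hj
      split_ifs with h1 h2 h2
      · exact hf.adj j (by omega)
      · have h3 : j = i := by omega
        subst h3
        have h4 : c + j - (j + 1) = c - 1 := by omega
        rw [h4]
        exact hi2.symm
      · omega
      · have h4 := hf.adj (c + i - (j + 1)) (by omega)
        have h5 : c + i - (j + 1) + 1 = c + i - j := by omega
        rw [h5] at h4
        exact h4.symm
    · rw [if_neg (by omega), if_pos (by omega)]
      have h4 : c + i - (c - 1) = i + 1 := by omega
      rw [h4]
      exact hi1.symm

end Pool.Agent.Lib.MP_0e31aa_co.H
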