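import Pool.Agent.Lib.MP_0e31aa_co.H.AddEdge
import Pool.Agent.Lib.MP_0e31aa_co.H.PathClose

/-!
Module MaxG (30 min): an edge-maximal graph without cycles on `k` or more vertices is closed:
non-adjacent `u ≠ v` have `d(u) + d(v) ≤ |V| - 1`.

Proof. The set of graphs `G ≥ B` with `NoLong G k` is finite (`SimpleGraph V` is finite for finite
`V`) and contains `B`: take a maximal one (`Set.Finite.exists_maximal` or induction). If
`u ≠ v` are not adjacent and `d(u) + d(v) ≥ |V|`, then `G ⊔ edge u v` is larger, so it has a cycle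
on `c ≥ k ≥ 3` vertices; `add_edge`: `HasCyc G c` (contradiction) or a `u`-`v` path on `c` vertices,
and `path_close` gives a cycle of `G` on `c` or `c + 1` vertices, contradiction.
-/

set_option autoImplicit false

namespace Pool.Agent.Lib.MP_0e31aa_co.H

open Finset
open Pool.Agent.Lib.MP_0e31aa_co.TC (nb mem_nb Emb HasCyc Bip)

variable {V : Type}

theorem exists_closed [Fintype V] (B : SimpleGraph V) (k : ℕ) (hk : 3 ≤ k) (hB : NoLong B k) :
    ∃ G : SimpleGraph V, B ≤ G ∧ NoLong G k ∧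
      ∀ u v, u ≠ v → ¬ G.Adj u v → dg G u + dg G v + 1 ≤ Fintype.card V := by
  classical
  have hfin : {G : SimpleGraph V | B ≤ G ∧ NoLong G k}.Finite := Set.toFinite _
  obtain ⟨G, hG⟩ := hfin.exists_maximal ⟨B, le_refl B, hB⟩
  refine ⟨G, hG.1.1, hG.1.2, ?_⟩
  intro u v huv hadj
  by_contra hcon
  have hlt : ¬ NoLong (G ⊔ SimpleGraph.edge u v) k := by
    intro h1
    have h2 : G ⊔ SimpleGraph.edge u v ≤ G :=
      hG.2 ⟨hG.1.1.trans le_sup_left, h1⟩ le_sup_left
    apply hadj
    apply h2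
    rw [SimpleGraph.sup_adj, SimpleGraph.edge_adj]
    exact Or.inr ⟨Or.inl ⟨rfl, rfl⟩, huv⟩
  unfold NoLong at hlt
  push Not at hlt
  obtain ⟨c, hc, hcyc⟩ := hlt
  rcases add_edge G u v c (by omega) hcyc with h1 | ⟨f, hf, hf0, hf1⟩
  · exact hG.1.2 c hc h1
  · have h2 : Fintype.card V ≤ dg G (f 0) + dg G (f (c - 1)) := by
      rw [hf0, hf1]
      omega
    rcases path_close G c (by omega) f hf h2 with h3 | h3
    · exact hG.1.2 c hc h3
    · exact hG.1.2 (c + 1) (by omega) h3

end Pool.Agent.Lib.MP_0e31aa_co.H
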