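import Pool.Agent.Lib.MP_0e31aa_co.H.LoeblDef
import Pool.Agent.Lib.MP_0e31aa_co.H.LeafExt
import Pool.Agent.Lib.MP_0e31aa_co.H.Core
import Pool.Agent.Lib.MP_c5b475_co.Rooted

/-!
Module Rad2 (75 min): the Loebl property for trees of radius at most two.

`z` with `T.dist z w ≤ 2` for all `w`; `C` = neighbours of `z`, `k = |C|`; `C' = {c ∈ C | 2 ≤ dg T c}`,
`k' = |C'|`. Every `w ≠ z`, `w ∉ C` is a leaf with its neighbour in `C'`; every `c ∈ C \ C'` is a
leaf with neighbour `z`. Each `c ∈ C'` has at least one neighbour outside `C ∪ {z}`, different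
for different `c`: `1 + k + k' ≤ n`.
`R` on `2n - 1` vertices, `S = big R (n-1)`, `|S| ≥ n`.
Case 1: some `x ∈ S` has at least `k'` neighbours in `S`: put `z` at `x`, `C'` injectively in these
neighbours, `leaf_ext` with `K = {z} ∪ C'` (all images in `S`).
Case 2: every `x ∈ S` has at most `k' - 1` neighbours in `S`, so at least `n - k'` neighbours outside
`S`; `|Sᶜ| ≤ n - 1`. Counting pairs: `∑_{l ∉ S} |nb R l S| = ∑_{x ∈ S} |nb R x Sᶜ| ≥ n (n - k')`, so some
`l ∉ S` has at least `n - k' ≥ k + 1` neighbours in `S` (if all had at most `n - k' - 1`, the sum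
would be at most `(n-1)(n-k'-1)`). Put `z` at `l`, `C` injectively in the neighbours, `leaf_ext` with
`K = {z} ∪ C` (the leaves outside `K` hang at vertices of `C`, whose images are in `S`).
-/

set_option autoImplicit false

namespace Pool.Agent.Lib.MP_0e31aa_co.H

open Finset
open Pool.Agent.Lib.MP_0e31aa_co.TC (nb mem_nb Emb HasCyc Bip)

variable {V W : Type}

/-- A map which is injective on `A`, with values in `N`. -/
private theorem rad2_inj [DecidableEq V] [DecidableEq W] (x : V) (A : Finset W) :
    ∀ N : Finset V, A.card ≤ N.card → ∃ f : W → V, Set.InjOn f (A : Set W) ∧ ∀ a ∈ A, f a ∈ N := by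
  induction A using Finset.induction_on with
  | empty =>
    intro N _
    exact ⟨fun _ => x, by simp, by simp⟩
  | insert a A ha ih =>
    intro N hN
    rw [card_insert_of_notMem ha] at hN
    obtain ⟨f, hf1, hf2⟩ := ih N (by omega)
    have h1 : (A.image f).card < N.card := by
      have := card_image_le (s := A) (f := f)
      omega
    obtain ⟨y, hyN, hyA⟩ := exists_mem_notMem_of_card_lt_card h1
    refine ⟨Function.update f a y, ?_, ?_⟩
    · intro b hb c hc hbc
      rw [mem_coe, mem_insert] at hb hc
      by_cases hba : b = a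
      · by_cases hca : c = a
        · rw [hba, hca]
        · exfalso
          rw [hba, Function.update_self, Function.update_of_ne hca] at hbc
          exact hyA (mem_image.2 ⟨c, hc.resolve_left hca, hbc.symm⟩)
      · by_cases hca : c = a
        · exfalso
          rw [hca, Function.update_self, Function.update_of_ne hba] at hbc
          exact hyA (mem_image.2 ⟨b, hb.resolve_left hba, hbc⟩)
        · rw [Function.update_of_ne hba, Function.update_of_ne hca] at hbc
          exact hf1 (hb.resolve_left hba) (hc.resolve_left hca) hbc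
    · intro b hb
      by_cases hba : b = a
      · rw [hba, Function.update_self]
        exact hyN
      · rw [Function.update_of_ne hba]
        exact hf2 b ((mem_insert.1 hb).resolve_left hba)

/-- Embedding from the image of the root and of a set `A` of vertices of depth one. -/
private theorem rad2_emb [Fintype V] [DecidableEq V] [Fintype W] [DecidableEq W] (T : SimpleGraph W)
    (Q : MP_c5b475_co.RT T) (hdep : ∀ w, Q.dep w ≤ 2) (R : SimpleGraph V) (A : Finset W)
    (hA : ∀ a ∈ A, Q.dep a = 1) (hA2 : ∀ w, Q.dep w = 2 → Q.par w ∈ A) (x : V)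
    (hx : (∀ w, Q.dep w = 1 → w ∈ A) ∨ x ∈ big R (Fintype.card W - 1))
    (hN : A.card ≤ (nb R x (big R (Fintype.card W - 1))).card) : Emb T R := by
  obtain ⟨f, hf1, hf2⟩ := rad2_inj x A _ hN
  have hdc : ∀ w, Q.dep w = 0 → w = Q.c := by
    intro w hw
    by_contra hne
    have := Q.dep_par w hne
    omega
  have hcA : Q.c ∉ A := by
    intro h
    have h1 := hA _ h
    rw [Q.dep_c] at h1
    omega
  set g : W → V := Function.update f Q.c x with hg
  have hgc : g Q.c = x := by rw [hg, Function.update_self]
  have hgA : ∀ a ∈ A, g a = f a := by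
    intro a ha
    rw [hg, Function.update_of_ne]
    rintro rfl
    exact hcA ha
  have hgadj : ∀ a ∈ A, R.Adj x (g a) := by
    intro a ha
    rw [hgA a ha]
    exact (mem_nb.1 (hf2 a ha)).2
  have hgbig : ∀ a ∈ A, g a ∈ big R (Fintype.card W - 1) := by
    intro a ha
    rw [hgA a ha]
    exact (mem_nb.1 (hf2 a ha)).1
  refine leaf_ext T R (insert Q.c A) g ?_ ?_ Q.par ?_ ?_
  · intro a ha b hb hab
    rw [mem_coe, mem_insert] at ha hb
    rcases ha with rfl | ha <;> rcases hb with rfl | hb
    · rfl
    · exfalso
      have := hgadj b hb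
      rw [← hab, hgc] at this
      exact R.loopless.irrefl _ this
    · exfalso
      have := hgadj a ha
      rw [hab, hgc] at this
      exact R.loopless.irrefl _ this
    · rw [hgA a ha, hgA b hb] at hab
      exact hf1 ha hb hab
  · intro a ha b hb hab
    rw [mem_insert] at ha hb
    rcases ha with rfl | ha <;> rcases hb with rfl | hb
    · exact absurd hab (T.loopless.irrefl _)
    · rw [hgc]
      exact hgadj b hb
    · rw [hgc]
      exact (hgadj a ha).symm
    · exfalso
      have h1 := hA a ha
      have h2 := hA b hb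
      rcases (Q.adj_iff a b).1 hab with ⟨h3, rfl⟩ | ⟨h3, rfl⟩
      · have := Q.dep_par a h3
        omega
      · have := Q.dep_par b h3
        omega
  · intro w hw
    rw [mem_insert, not_or] at hw
    have h1 := Q.dep_par w hw.1
    have h2 := hdep w
    constructor
    · rw [mem_insert]
      by_cases h3 : Q.dep w = 1
      · left
        apply hdc
        omega
      · right
        apply hA2
        omega
    · intro v hv
      rcases (Q.adj_iff w v).1 hv with ⟨_, h3⟩ | ⟨h3, h4⟩
      · exact h3
      · exfalso
        have h5 := Q.dep_par v h3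
        rw [← h4] at h5
        have h6 := hdep v
        have h7 := hA2 v (by omega)
        rw [← h4] at h7
        exact hw.2 h7
  · intro w hw
    rw [mem_insert, not_or] at hw
    have h1 := Q.dep_par w hw.1
    have h2 := hdep w
    have h4 : g (Q.par w) ∈ big R (Fintype.card W - 1) := by
      by_cases h3 : Q.dep w = 1
      · rw [hdc (Q.par w) (by omega), hgc]
        rcases hx with hx | hx
        · exact absurd (hx w h3) hw.2
        · exact hx
      · exact hgbig _ (hA2 w (by omega))
    rw [mem_big] at h4
    omega

theorem loebl_rad2 [Fintype W] [DecidableEq W] (T : SimpleGraph W) (hT : T.IsTree)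
    (hW : 3 ≤ Fintype.card W) (z : W) (hz : ∀ w, T.dist z w ≤ 2) : Loebl T := by
  classical
  intro V _ R hV hbig
  obtain ⟨Q, hQc, hQd⟩ := MP_c5b475_co.exists_RT hT z
  have hdep : ∀ w, Q.dep w ≤ 2 := by
    intro w
    rw [hQd]
    exact hz w
  set n := Fintype.card W with hn
  set S := big R (n - 1) with hS
  set C := (univ : Finset W).filter fun w => Q.dep w = 1 with hC
  set L := (univ : Finset W).filter fun w => Q.dep w = 2 with hL
  set C' := L.image Q.par with hC'
  have hC'L : C'.card ≤ L.card := card_image_le
  have hC'C : ∀ w ∈ C', Q.dep w = 1 := by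
    intro w hw
    rw [hC', mem_image] at hw
    obtain ⟨u, hu, rfl⟩ := hw
    rw [hL, mem_filter] at hu
    have h1 := Q.dep_par u (by
      rintro rfl
      rw [Q.dep_c] at hu
      omega)
    omega
  have hcard : 1 + C.card + L.card = n := by
    have h1 : (univ : Finset W) = insert Q.c (C ∪ L) := by
      ext w
      simp only [mem_univ, mem_insert, mem_union, true_iff, hC, hL, mem_filter, true_and]
      by_cases hw : w = Q.c
      · exact Or.inl hw
      · right
        have h1 := Q.dep_par w hw
        have h2 := hdep w
        omega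
    have h2 : Q.c ∉ C ∪ L := by
      simp only [mem_union, hC, hL, mem_filter, mem_univ, true_and, Q.dep_c]
      omega
    have h3 : Disjoint C L := by
      rw [disjoint_left]
      intro w h3 h4
      rw [hC, mem_filter] at h3
      rw [hL, mem_filter] at h4
      omega
    have h4 := congrArg card h1
    rw [card_univ, card_insert_of_notMem h2, card_union_of_disjoint h3] at h4
    omega
  have hA2 : ∀ w, Q.dep w = 2 → Q.par w ∈ C' := fun w hw =>
    mem_image.2 ⟨w, mem_filter.2 ⟨mem_univ _, hw⟩, rfl⟩
  by_cases hcase : ∃ x ∈ S, C'.card ≤ (nb R x S).card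
  · obtain ⟨x, hx, hx2⟩ := hcase
    exact rad2_emb T Q hdep R C' hC'C hA2 x (Or.inr hx) hx2
  · push Not at hcase
    have h1 : ∀ x ∈ S, n - C'.card ≤ (nb R x Sᶜ).card := by
      intro x hx
      have h2 := hcase x hx
      have h3 : n - 1 ≤ dg R x := mem_big.1 hx
      have h4 : dg R x ≤ (nb R x S).card + (nb R x Sᶜ).card := by
        have h5 : nb R x univ ⊆ nb R x S ∪ nb R x Sᶜ := by
          intro u hu
          rw [mem_nb] at hu
          rw [mem_union, mem_nb, mem_nb, mem_compl]
          by_cases h6 : u ∈ S
          · exact Or.inl ⟨h6, hu.2⟩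
          · exact Or.inr ⟨h6, hu.2⟩
        exact (card_le_card h5).trans (card_union_le _ _)
      omega
    have h2 : ∃ l ∈ Sᶜ, C.card ≤ (nb R l S).card := by
      by_contra hcon
      push Not at hcon
      have h3 := sum_nb_comm R S Sᶜ
      have h4 : S.card * (n - C'.card) ≤ ∑ x ∈ S, (nb R x Sᶜ).card := by
        rw [← smul_eq_mul, ← Finset.sum_const]
        exact sum_le_sum h1
      have h5 : ∑ y ∈ Sᶜ, (nb R y S).card ≤ Sᶜ.card * C.card := by
        rw [← smul_eq_mul, ← Finset.sum_const]
        exact sum_le_sum fun y hy => (hcon y hy).le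
      have h6 : Sᶜ.card + S.card = Fintype.card V := by
        rw [card_compl]
        have := card_le_univ S
        omega
      have h7 : n * (n - C'.card) ≤ S.card * (n - C'.card) := Nat.mul_le_mul_right _ hbig
      have h8 : Sᶜ.card * C.card ≤ (n - 1) * C.card := Nat.mul_le_mul_right _ (by omega)
      have h9 : (n - 1) * C.card ≤ (n - 1) * (n - C'.card) := Nat.mul_le_mul_left _ (by omega)
      have h10 : (n - 1) * (n - C'.card) < n * (n - C'.card) := by
        apply Nat.mul_lt_mul_of_pos_right (by omega) (by omega)
      omega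
    obtain ⟨l, _, hl⟩ := h2
    refine rad2_emb T Q hdep R C (fun a ha => (mem_filter.1 ha).2) ?_ l
      (Or.inl fun w hw => mem_filter.2 ⟨mem_univ _, hw⟩) hl
    intro w hw
    have h3 := hC'C _ (hA2 w hw)
    exact mem_filter.2 ⟨mem_univ _, h3⟩

end Pool.Agent.Lib.MP_0e31aa_co.H
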