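import Pool.Agent.Lib.MP_0e31aa_co.H.Defs

/-!
Module SegCyc: the concatenation of a system of segments is a cycle.
-/

set_option autoImplicit false

namespace Pool.Agent.Lib.MP_0e31aa_co.H

open Finset
open Pool.Agent.Lib.MP_0e31aa_co.TC (nb mem_nb Emb HasCyc Bip)

variable {V : Type}

private theorem SegCyc_aux (G : SimpleGraph V) (L : Finset V)
    (hcl : ∀ u ∈ L, ∀ v ∈ L, u ≠ v → G.Adj u v) (ss : List (List V)) (hnd : ss.flatten.Nodup)
    (hseg : ∀ s ∈ ss, s.IsChain G.Adj ∧ ∃ h : s ≠ [], s.head h ∈ L ∧ s.getLast h ∈ L) :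
    ss.flatten.IsChain G.Adj ∧ (∀ x ∈ ss.flatten.head?, x ∈ L) ∧
      (∀ x ∈ ss.flatten.getLast?, x ∈ L) := by
  induction ss with
  | nil =>
    refine ⟨by simp, by simp, by simp⟩
  | cons s r ih =>
    rw [List.flatten_cons] at hnd ⊢
    rw [List.nodup_append] at hnd
    obtain ⟨h1, h2, h3⟩ := hnd
    obtain ⟨i1, i2, i3⟩ := ih h2 (fun t ht => hseg t (List.mem_cons_of_mem _ ht))
    obtain ⟨c1, hne, c2, c3⟩ := hseg s (List.mem_cons_self)
    refine ⟨?_, ?_, ?_⟩
    · rw [List.isChain_append]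
      refine ⟨c1, i1, ?_⟩
      intro x hx y hy
      rw [Option.mem_def, List.getLast?_eq_some_getLast hne, Option.some.injEq] at hx
      have hxs : x ∈ s := hx ▸ List.getLast_mem hne
      have hxL : x ∈ L := hx ▸ c3
      have hyr : y ∈ r.flatten := List.mem_of_mem_head? hy
      exact hcl x hxL y (i2 y hy) (h3 x hxs y hyr)
    · intro x hx
      rw [Option.mem_def, List.head?_append_of_ne_nil _ hne, List.head?_eq_some_head hne,
        Option.some.injEq] at hx
      exact hx ▸ c2
    · intro x hx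
      by_cases hr : r.flatten = []
      · rw [hr, List.append_nil, Option.mem_def, List.getLast?_eq_some_getLast hne,
          Option.some.injEq] at hx
        exact hx ▸ c3
      · rw [List.getLast?_append_of_ne_nil _ hr] at hx
        exact i3 x hx

theorem seg_cyc (G : SimpleGraph V) (L : Finset V)
    (hcl : ∀ u ∈ L, ∀ v ∈ L, u ≠ v → G.Adj u v) (ss : List (List V)) (hss : Sys G L ss)
    (h2 : 2 ≤ ss.flatten.length) : HasCyc G ss.flatten.length := by
  obtain ⟨hnd, hseg, _⟩ := hss
  obtain ⟨h3, h4, h5⟩ := SegCyc_aux G L hcl ss hnd hseg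
  have hne : ss.flatten ≠ [] := by
    intro h
    rw [h] at h2
    simp at h2
  refine ⟨ss.flatten, rfl, h3, hnd, hne, ?_⟩
  have h6 : ss.flatten.getLast hne ∈ L := h5 _ (by
    rw [Option.mem_def, List.getLast?_eq_some_getLast hne])
  have h7 : ss.flatten.head hne ∈ L := h4 _ (by
    rw [Option.mem_def, List.head?_eq_some_head hne])
  refine hcl _ h6 _ h7 ?_
  generalize ss.flatten = l at hnd hne h2
  match l, hnd, hne, h2 with
  | a :: b :: t, hnd, hne, _ =>
    intro h
    rw [List.head_cons] at h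
    have h8 : (a :: b :: t).getLast hne = (b :: t).getLast (List.cons_ne_nil _ _) :=
      List.getLast_cons (List.cons_ne_nil _ _)
    have h9 : (b :: t).getLast (List.cons_ne_nil _ _) ∈ b :: t := List.getLast_mem _
    rw [← h8, h] at h9
    exact (List.nodup_cons.mp hnd).1 h9

end Pool.Agent.Lib.MP_0e31aa_co.H
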