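import Pool.Agent.Lib.MP_0e31aa_co.H.Consec
import Pool.Agent.Lib.MP_0e31aa_co.H.LongL

/-!
Module ThmExact (45 min): `|V| = 2n - 1`, at least `n` vertices of degree `≥ n`, circumference `c`
with `2c ≥ 3n - 5`: all lengths `3, ..., c`.

Proof. `longL`: `f` contains all of `L = big G n`, `|L| ≥ n`, `c ≤ |V| = 2n - 1 < 2n`. Two
consecutive vertices of `f` are in `L`: otherwise the index sets `A = {i < c | f i ∈ L}` (at least
`n` elements) and `A + 1` (mod `c`) are disjoint, `2n ≤ c`. By `FCyc.move` they are the last and the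
first vertex; their degrees sum up to at least `2n = |V| + 1`; `consec`.
-/

set_option autoImplicit false

namespace Pool.Agent.Lib.MP_0e31aa_co.H

open Finset
open Pool.Agent.Lib.MP_0e31aa_co.TC (nb mem_nb Emb HasCyc Bip)

variable {V : Type}

theorem thmExact [Fintype V] [DecidableEq V] (G : SimpleGraph V) (n c : ℕ)
    (hV : Fintype.card V + 1 = 2 * n) (hc : 3 ≤ c) (h : HasCyc G c) (hmax : NoLong G (c + 1))
    (hcn : 3 * n ≤ 2 * c + 5) (hL : n ≤ (big G n).card) : ∀ l, 3 ≤ l → l ≤ c → HasCyc G l := by
  obtain ⟨f, hf, hbig⟩ := longL G n c hV hc h hmax hcn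
  have hcV : c ≤ Fintype.card V := by
    have h1 : ((range c).image f).card = c := by
      rw [card_image_of_injOn, card_range]
      intro i hi j hj hij
      rw [coe_range, Set.mem_Iio] at hi hj
      exact hf.inj i hi j hj hij
    rw [← h1]
    exact card_le_univ _
  set A := (range c).filter fun i => f i ∈ big G n with hA
  have hAn : n ≤ A.card := by
    refine hL.trans ?_
    have h1 : big G n ⊆ A.image f := by
      intro v hv
      obtain ⟨i, hi, rfl⟩ := hbig v hv
      exact mem_image.2 ⟨i, mem_filter.2 ⟨mem_range.2 hi, hv⟩, rfl⟩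
    exact (card_le_card h1).trans card_image_le
  have hB : (A.image fun i => (i + 1) % c).card = A.card := by
    refine card_image_of_injOn ?_
    intro i hi j hj hij
    have hi' : i < c := mem_range.1 (mem_filter.1 hi).1
    have hj' : j < c := mem_range.1 (mem_filter.1 hj).1
    have hij' : (i + 1) % c = (j + 1) % c := hij
    rcases Nat.lt_or_ge (i + 1) c with h1 | h1 <;> rcases Nat.lt_or_ge (j + 1) c with h2 | h2
    · rw [Nat.mod_eq_of_lt h1, Nat.mod_eq_of_lt h2] at hij'
      omega
    · have h3 : j + 1 = c := by omega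
      rw [Nat.mod_eq_of_lt h1, h3, Nat.mod_self] at hij'
      omega
    · have h3 : i + 1 = c := by omega
      rw [Nat.mod_eq_of_lt h2, h3, Nat.mod_self] at hij'
      omega
    · omega
  have hnd : ¬ Disjoint A (A.image fun i => (i + 1) % c) := by
    intro hd
    have h1 := card_union_of_disjoint hd
    have h2 : (A ∪ A.image fun i => (i + 1) % c) ⊆ range c := by
      intro i hi
      rcases mem_union.1 hi with h3 | h3
      · exact (mem_filter.1 h3).1
      · obtain ⟨j, _, rfl⟩ := mem_image.1 h3
        exact mem_range.2 (Nat.mod_lt _ (by omega))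
    have h3 := card_le_card h2
    rw [card_range] at h3
    omega
  rw [disjoint_left] at hnd
  push Not at hnd
  obtain ⟨i, hiA, hiB⟩ := hnd
  obtain ⟨j, hjA, hji⟩ := mem_image.1 hiB
  obtain ⟨g, hg, hg1, hg0, -⟩ := hf.move (by omega) j (mem_range.1 (mem_filter.1 hjA).1)
  refine consec G c hc g hg (hmax (c + 1) le_rfl) ?_
  rw [hg1, hg0, hji]
  have h1 := mem_big.1 (mem_filter.1 hiA).2
  have h2 := mem_big.1 (mem_filter.1 hjA).2
  omega

end Pool.Agent.Lib.MP_0e31aa_co.H
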