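import Pool.Agent.Lib.MP_0e31aa_co.H.Circ
import Pool.Agent.Lib.MP_0e31aa_co.H.ThmExact

/-!
Module ThmG (20 min): THEOREM G.

By `circ` (contrapositive) `B` has a cycle on `c ≥ 2n - p` vertices (`¬ NoLong B (2n-p)`); take `c`
maximum (`c ≤ |V|`, `HasCyc` bounds `c` by `|V|`: the list is nodup); `2c ≥ 4n - 2p ≥ 3n`;
`thmExact`.
-/

set_option autoImplicit false

namespace Pool.Agent.Lib.MP_0e31aa_co.H

open Finset
open Pool.Agent.Lib.MP_0e31aa_co.TC (nb mem_nb Emb HasCyc Bip)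

variable {V W : Type}

theorem hasCyc_le_card [Fintype V] (G : SimpleGraph V) (c : ℕ) (h : HasCyc G c) :
    c ≤ Fintype.card V := by
  obtain ⟨l, hl, _, hn, _⟩ := h
  rw [← hl]
  exact hn.length_le_card

theorem thmG [Fintype V] [DecidableEq V] [Fintype W] [DecidableEq W] (n : ℕ) (hn : 3 ≤ n)
    (hV : Fintype.card V + 1 = 2 * n) (hW : Fintype.card W = n) (T : SimpleGraph W)
    (hT : T.IsTree) (P : Finset W) (hP : Bip T P) (hP2 : 2 * P.card ≤ n) (B : SimpleGraph V)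
    (hL : n ≤ (big B n).card) (hE : ¬ Emb T Bᶜ) :
    ∀ l, 3 ≤ l → l + P.card ≤ 2 * n → HasCyc B l := by
  have h1 : ¬ NoLong B (2 * n - P.card) := fun h =>
    hE (circ n hn hV hW T hT P hP hP2 B hL h)
  unfold NoLong at h1
  push Not at h1
  obtain ⟨c0, hc0, hcyc0⟩ := h1
  obtain ⟨c, hc, hcmax⟩ : ∃ c, HasCyc B c ∧ ∀ c', HasCyc B c' → c' ≤ c := by
    classical
    have hne : ((range (Fintype.card V + 1)).filter fun c => HasCyc B c).Nonempty :=
      ⟨c0, mem_filter.2 ⟨mem_range.2 (Nat.lt_succ_of_le (hasCyc_le_card B c0 hcyc0)), hcyc0⟩⟩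
    obtain ⟨c, hc, hmax⟩ := exists_max_image _ (fun c => c) hne
    refine ⟨c, (mem_filter.1 hc).2, fun c' hc' => hmax c' (mem_filter.2
      ⟨mem_range.2 (Nat.lt_succ_of_le (hasCyc_le_card B c' hc')), hc'⟩)⟩
  have hcc0 := hcmax c0 hcyc0
  intro l hl hlP
  refine thmExact B n c hV (by omega) hc ?_ (by omega) hL l hl (by omega)
  intro c' hc' hcy
  have := hcmax c' hcy
  omega

end Pool.Agent.Lib.MP_0e31aa_co.H
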